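import Pool.Agent.Lib.MP_3efbeb_nt.TK.LB

/-!
# MP_3efbeb_nt, line T(k): A1
-/

set_option autoImplicit false

namespace Pool.Agent.Lib.MP3efbeb.TK

open Finset
open scoped Classical
open Pool.Agent.Lib.MP391708.QPA (PB rInd Rough)
open Pool.Agent.Lib.MP3efbeb.T (BP sg gpf cofP RS PrimeIn SpecSG)

open LBM in
theorem specA1 (hFLK : Odd.SpecFLK) (hCL : SpecCL) (hGL : SpecGL) (hSG : SpecSG) : SpecA1 := by
  intro H b hA a κ ha ha4 hκ
  obtain ⟨η₀, hη₀, h⟩ := gen hFLK hCL hGL hSG H b hA a κ ha ha4 hκ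
  refine ⟨η₀, hη₀, ?_⟩
  intro η hη hη'
  obtain ⟨X₀, hX⟩ := h η hη hη'
  refine ⟨X₀, ?_⟩
  intro x hx u _ q hq hq1 hq2
  have h1 := hX x hx u q (Or.inr ⟨hq, hq1, hq2⟩)
  have h2 := (abs_le.1 h1).2
  have e : (1 + κ) * (sg a x * N0 H η x) / q = sg a x * N0 H η x / q + κ * (sg a x * N0 H η x / q) := by
    ring
  rw [e]
  linarith

end Pool.Agent.Lib.MP3efbeb.TK
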