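import Pool.Agent.Lib.MP_3efbeb_nt.T.Spec

/-!
# MP_3efbeb_nt, line T(k): prime k-tuples in almost every ring `ℤ[1/S]` (exact Specs)

**Theorem T(k).** Let the primes be inverted independently, `p` with probability `ε_p`, let `k ≥ 3` and
`δ p^(-2/(k-1)) ≤ ε_p ≤ 1 - δ` for all large `p`. Then almost surely for every admissible set `H` of at most `k` shifts there
are infinitely many `n` with all `n + h` prime in `ℤ[1/S]`.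

This is line T (`T/Spec.lean`, `H = {0, s, t}`) for all finite sets `H ∋ 0` of shifts with `k = #H ≥ 3`. Dictionary:
`Pi3 s t m` is `PiH H m`, `{s, t}` is `H.erase 0`, `30` is `Mk H` (the product of the primes `≤ 2k`; `30` for `k = 3`),
`p ≤ 5` is `p ≤ 2k`, the powers `3`, `6` of `log x` are `k`, `2k`, `κ = 3` in FLK is `κ = k`, `nu ≤ 3` is `nu ≤ k`,
`gg ≤ 3/7` is `gg ≤ k/(2k+1)`. The proofs are the proofs of `T/Spec.lean`. `BP`, `sg`, `gpf`, `cofP`, `SpecSG`, `RS`,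
`PrimeIn`, `SpecRING`, `SpecCONV` are those of `T`.

Every module: file `TK/<NAME>.lean`, theorem `specNAME (hXX : SpecXX) .. : SpecNAME` in the namespace
`Pool.Agent.Lib.MP3efbeb.TK`, own lemmas in `Pool.Agent.Lib.MP3efbeb.TK.<NAME>M`.
-/

set_option autoImplicit false

namespace Pool.Agent.Lib.MP3efbeb.TK

open Finset
open scoped Classical
open Pool.Agent.Lib.MP391708.QPA (PB rInd Rough)
open Pool.Agent.Lib.MP3efbeb.T (BP sg gpf cofP RS PrimeIn)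

noncomputable section

/-! ## Definitions -/

/-- `∏_{h ∈ H} (m + h)` -/
def PiH (H : Finset ℕ) (m : ℕ) : ℕ := ∏ h ∈ H, (m + h)

/-- number of classes `r` modulo `p` with `p ∣ PiH H r` -/
def nu (H : Finset ℕ) (p : ℕ) : ℕ := ((range p).filter (fun r => p ∣ PiH H r)).card

/-- the product of the primes `≤ 2k` -/
def Mk (H : Finset ℕ) : ℕ := ∏ p ∈ (range (2 * H.card + 1)).filter Nat.Prime, p

/-- the sieve density, `0` at the primes `≤ 2k` -/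
def gg (H : Finset ℕ) (p : ℕ) : ℝ := if p ≤ 2 * H.card then 0 else (nu H p : ℝ) / p

/-- `∏_{p < z} (1 - g(p))` -/
def GG (H : Finset ℕ) (z : ℝ) : ℝ := ∏ p ∈ PB z, (1 - gg H p)

/-- admissible data -/
def Adm (H : Finset ℕ) (b : ℕ) : Prop := 0 ∈ H ∧ 3 ≤ H.card ∧ b < Mk H ∧ Nat.Coprime (PiH H b) (Mk H)

/-- the `m ∈ (x, 2x]`, `m = b mod Q`, with a prime factor in `BP a x` -/
def MM (Q b : ℕ) (a : ℝ) (x : ℕ) : Finset ℕ :=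
  (Ioc x (2 * x)).filter (fun m => m % Q = b ∧ ∃ P ∈ BP a x, P ∣ m)

/-- those with `PiH H m` free of prime factors `< x^η` -/
def PP (H : Finset ℕ) (b : ℕ) (a η : ℝ) (x : ℕ) : Finset ℕ :=
  (MM (Mk H) b a x).filter (fun m => Rough ((x : ℝ) ^ η) (PiH H m))

/-- expected number of rough tuples in `(x, 2x]` in the class `b mod Mk` -/
def N0 (H : Finset ℕ) (η : ℝ) (x : ℕ) : ℝ := (x : ℝ) / Mk H * GG H ((x : ℝ) ^ η)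

/-- the primes that must be inverted -/
def cof (H : Finset ℕ) (m : ℕ) : Finset ℕ := H.biUnion fun h => cofP (m + h)

/-- the primes that must not be inverted -/
def top (H : Finset ℕ) (m : ℕ) : Finset ℕ := H.image fun h => gpf (m + h)

/-- the exponent `2/(k-1)` for sets of `k` shifts -/
def th (k : ℕ) : ℝ := 2 / ((k : ℝ) - 1)

/-- the correlation factor -/
def RR (H : Finset ℕ) (δ : ℝ) (m n : ℕ) : ℝ :=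
  if Disjoint (PiH H m).primeFactors (PiH H n).primeFactors then 1
  else (1 / δ) ^ H.card * ∏ q ∈ cof H m ∩ cof H n, ((q : ℝ) ^ th H.card / δ)

/-! ## Group N: counting -/

/-- CL (no hypotheses). As `T.SpecCL` with `Q` for `30`; `x^(3/4) ≥ Q`. -/
def SpecCL : Prop := ∀ Q : ℕ, 1 ≤ Q → ∀ a : ℝ, 0 < a → a ≤ 1 / 4 → ∃ X₀ : ℕ, ∀ x : ℕ, X₀ ≤ x → ∀ b : ℕ, b < Q →
  Nat.Coprime b Q → ∀ M : ℕ, 1 ≤ M → Nat.Coprime M Q → (M : ℝ) ≤ (x : ℝ) ^ (3 / 4 : ℝ) → ∀ R : Finset ℕ, R ⊆ range M →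
  |(((MM Q b a x).filter (fun m => m % M ∈ R)).card : ℝ) - (x : ℝ) / Q * sg a x * ((R.card : ℝ) / M)|
    ≤ 2 * R.card * (x : ℝ) ^ (1 - a / 2)

/-- LB (from `Odd.SpecFLK`, CL, GL, SG). As `T.SpecLB`, `κ = k` in FLK. -/
def SpecLB : Prop := ∀ (H : Finset ℕ) (b : ℕ), Adm H b → ∀ a κ : ℝ, 0 < a → a ≤ 1 / 4 → 0 < κ → ∃ η₀ : ℝ, 0 < η₀ ∧
  ∀ η : ℝ, 0 < η → η ≤ η₀ → ∃ X₀ : ℕ, ∀ x : ℕ, X₀ ≤ x →
    (1 - κ) * (sg a x * N0 H η x) ≤ ((PP H b a η x).card : ℝ)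

/-- A1 (from `Odd.SpecFLK`, CL, GL, SG). As `T.SpecA1`. -/
def SpecA1 : Prop := ∀ (H : Finset ℕ) (b : ℕ), Adm H b → ∀ a κ : ℝ, 0 < a → a ≤ 1 / 4 → 0 < κ → ∃ η₀ : ℝ, 0 < η₀ ∧
  ∀ η : ℝ, 0 < η → η ≤ η₀ → ∃ X₀ : ℕ, ∀ x : ℕ, X₀ ≤ x → ∀ u ∈ H.erase 0, ∀ q : ℕ, q.Prime →
    (x : ℝ) ^ η ≤ q → (q : ℝ) ≤ (x : ℝ) ^ (a / 8) →
    (((PP H b a η x).filter (fun m => q ∣ m + u)).card : ℝ) ≤ (1 + κ) * (sg a x * N0 H η x) / q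

/-- A2 (from `Odd.SpecFLK`, CL, GL, SG and `TB.SpecBIL`). As `T.SpecA2`. -/
def SpecA2 : Prop := ∀ (H : Finset ℕ) (b : ℕ), Adm H b → ∀ a ε κ : ℝ, 0 < a → a ≤ 1 / 4 → 0 < ε → ε ≤ 1 / 8 → 0 < κ →
  ∃ η₀ : ℝ, 0 < η₀ ∧ ∀ η : ℝ, 0 < η → η ≤ η₀ → ∃ X₀ : ℕ, ∀ x : ℕ, X₀ ≤ x → ∀ u ∈ H.erase 0, ∀ Q : Finset ℕ,
    (∀ q ∈ Q, q.Prime ∧ (x : ℝ) ^ (a / 8) ≤ q ∧ (q : ℝ) ≤ (x : ℝ) ^ (1 / 2 - ε)) →
    ∑ q ∈ Q, Real.log q * (((PP H b a η x).filter (fun m => q ∣ m + u)).card : ℝ)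
      ≤ (1 + κ) * (sg a x * N0 H η x) * (∑ q ∈ Q, Real.log q / q) + κ * (sg a x * N0 H η x) * Real.log x

/-- AV (from A1, A2, Mertens). As `T.SpecAV`. -/
def SpecAV : Prop := ∀ (H : Finset ℕ) (b : ℕ), Adm H b → ∀ a ε κ : ℝ, 0 < a → a ≤ 1 / 4 → 0 < ε → ε ≤ 1 / 8 → 0 < κ →
  ∃ η₀ : ℝ, 0 < η₀ ∧ ∀ η : ℝ, 0 < η → η ≤ η₀ → ∃ X₀ : ℕ, ∀ x : ℕ, X₀ ≤ x → ∀ u ∈ H.erase 0, ∀ v : ℝ,
    0 ≤ v → v ≤ 1 / 2 - ε →
    ∑ q ∈ (Icc 1 x).filter (fun q : ℕ => q.Prime ∧ (q : ℝ) ≤ (x : ℝ) ^ v),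
      Real.log q * (((PP H b a η x).filter (fun m => q ∣ m + u)).card : ℝ)
      ≤ (v + κ) * Real.log x * (sg a x * N0 H η x)

/-- B (from `Odd.SpecFLK`, GL, `QPA.specRSUM`, `QPA.specWMER`). As `T.SpecB`: for fixed `c` the numbers
`P = r + Mk q j` are sieved by the `k` classes `0, -h/c` for `p < z` and by `P = 0` for `z ≤ p < x^(1/400)` (if the level of FLK
with `κ = k`, `b = 1` needs it, take a smaller power `x^(1/(100(k+1)))`, the constant `K` may depend on `k`). -/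
def SpecB : Prop := ∀ (H : Finset ℕ) (b : ℕ), Adm H b → ∃ K : ℝ, 1 ≤ K ∧ ∀ a : ℝ, 0 < a → a ≤ 1 / 8 → ∃ η₀ : ℝ, 0 < η₀ ∧
  ∀ η : ℝ, 0 < η → η ≤ η₀ → ∃ X₀ : ℕ, ∀ x : ℕ, X₀ ≤ x → ∀ u ∈ H.erase 0, ∀ q : ℕ, q.Prime →
    (x : ℝ) ^ (1 / 4 : ℝ) ≤ q → (q : ℝ) ≤ (x : ℝ) ^ (5 / 8 : ℝ) →
    (((PP H b a η x).filter (fun m => q ∣ m + u)).card : ℝ) ≤ K * a * N0 H η x / q

/-- GL (no hypotheses; Mertens lower bound). As `T.SpecGL`. -/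
def SpecGL : Prop := ∀ H : Finset ℕ, ∃ c : ℝ, 0 < c ∧ ∀ z : ℝ, 2 ≤ z → c / Real.log z ^ H.card ≤ GG H z

/-- UG (no hypotheses or from `Odd.SpecFLK`). As `T.SpecUG`. -/
def SpecUG : Prop := ∀ (H : Finset ℕ) (b : ℕ), Adm H b → ∀ η c : ℝ, 0 < η → 0 < c → c < 1 → ∃ C : ℝ, 0 < C ∧
  ∃ X₀ : ℕ, ∀ x : ℕ, X₀ ≤ x → ∀ g : ℕ, Squarefree g → Rough ((x : ℝ) ^ η) g → (g : ℝ) ≤ (x : ℝ) ^ (1 - c) →
    (((Ioc x (2 * x)).filter (fun m => m % Mk H = b ∧ Rough ((x : ℝ) ^ η) (PiH H m) ∧ g ∣ PiH H m)).card : ℝ)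
      ≤ C * x / (g * Real.log x ^ H.card)

/-! ## Group D: the deterministic theorem -/

/-- good elements: `∏ cof ≤ x^((1-c)(k-1)/2)` -/
def Good (H : Finset ℕ) (b : ℕ) (η c : ℝ) (x m : ℕ) : Prop :=
  x < m ∧ m ≤ 2 * x ∧ m % Mk H = b ∧ Rough ((x : ℝ) ^ η) (PiH H m) ∧ Squarefree (PiH H m) ∧
    (∏ q ∈ cof H m, (q : ℝ)) ≤ (x : ℝ) ^ ((1 - c) * ((H.card : ℝ) - 1) / 2)

/-- OV (from AV, B, SG, LB). As `T.SpecOV` (a statement for a single shift `u`, the number of shifts plays no role). -/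
def SpecOV : Prop := ∀ (H : Finset ℕ) (b : ℕ), Adm H b → ∃ cs : ℝ, 0 < cs ∧ cs ≤ 1 / 8 ∧ ∀ a : ℝ, 0 < a → a ≤ 1 / 8 →
  ∃ η₀ : ℝ, 0 < η₀ ∧ ∀ η : ℝ, 0 < η → η ≤ η₀ → ∃ X₀ : ℕ, ∀ x : ℕ, X₀ ≤ x → ∀ u ∈ H.erase 0,
    ∑ m ∈ (PP H b a η x).filter (fun m => Squarefree (PiH H m)), ∑ q ∈ cofP (m + u), Real.log q
      ≤ (1 / 2 - cs) * Real.log x * ((PP H b a η x).card : ℝ)

/-- DET (from OV, LB, SG, GL). As `T.SpecDET`: `a = cs/4`; the mean of `log ∏ cof` over the squarefree elements of `PP` is at most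
`((k-1)(1/2 - cs) + a + o(1)) log x ≤ ((k-1)/2) (1 - cs) log x` (`k ≥ 3`), so with `c = cs/2` a positive proportion of `PP` is good. -/
def SpecDET : Prop := ∀ (H : Finset ℕ) (b : ℕ), Adm H b → ∃ η c c₁ : ℝ, 0 < η ∧ 0 < c ∧ c < 1 ∧ 0 < c₁ ∧ ∃ X₀ : ℕ,
  ∀ x : ℕ, X₀ ≤ x →
  c₁ * x / Real.log x ^ H.card ≤ (((Ioc x (2 * x)).filter (fun m => Good H b η c x m)).card : ℝ)

/-- PR (from UG). As `T.SpecPR`: `th ≤ 1`, so `∏_{cof ∩ cof} q^th ≤ min(g, (∏ cof)^th) ≤ min(g, x^(1-c))`. -/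
def SpecPR : Prop := ∀ (H : Finset ℕ) (b : ℕ), Adm H b → ∀ η c δ : ℝ, 0 < η → 0 < c → c < 1 → 0 < δ → δ ≤ 1 →
  ∃ C : ℝ, 0 < C ∧ ∃ X₀ : ℕ, ∀ x : ℕ, X₀ ≤ x →
    ∑ m ∈ (Ioc x (2 * x)).filter (fun m => Good H b η c x m),
      ∑ n ∈ (Ioc x (2 * x)).filter (fun m => Good H b η c x m), RR H δ m n
        ≤ C * (x : ℝ) ^ 2 / Real.log x ^ (2 * H.card)

/-- DF (from DET, PR). As `T.SpecDF`. -/
def SpecDF : Prop := ∀ (H : Finset ℕ) (b : ℕ), Adm H b → ∀ δ κ : ℝ, 0 < δ → δ ≤ 1 → 0 < κ → ∀ N : ℕ,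
  ∃ (S : Finset ℕ) (w : ℕ → ℝ), (∀ m, 0 ≤ w m) ∧ ∑ m ∈ S, w m = 1 ∧
    (∀ m ∈ S, N ≤ m ∧ Squarefree (PiH H m) ∧ ∀ p : ℕ, p.Prime → p ∣ PiH H m → N ≤ p) ∧
    ∑ m ∈ S, ∑ n ∈ S, w m * w n * RR H δ m n ≤ 1 + κ

/-! ## Group P: probability and algebra -/

/-- the event: all primes of `cof` are inverted, those of `top` are not -/
def EE {Ω : Type} (A : ℕ → Set Ω) (H : Finset ℕ) (m : ℕ) : Set Ω :=
  {ω | (∀ q ∈ cof H m, ω ∈ A q) ∧ ∀ q ∈ top H m, ω ∉ A q}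

/-- PROB (no hypotheses). As `T.SpecPROB`. -/
def SpecPROB : Prop := ∀ (Ω : Type) [MeasurableSpace Ω] (μ : MeasureTheory.Measure Ω) [MeasureTheory.IsProbabilityMeasure μ]
  (A : ℕ → Set Ω), (∀ p, MeasurableSet (A p)) → ProbabilityTheory.iIndepSet (fun p : Nat.Primes => A (p : ℕ)) μ →
  ∀ (δ κ : ℝ) (P₀ : ℕ) (H S : Finset ℕ) (w : ℕ → ℝ), 0 < δ → δ < 1 → 0 < κ → 1 ≤ P₀ →
  (∀ p : ℕ, p.Prime → P₀ ≤ p → δ * (p : ℝ) ^ (-th H.card) ≤ μ.real (A p) ∧ μ.real (A p) ≤ 1 - δ) →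
  (∀ m, 0 ≤ w m) → ∑ m ∈ S, w m = 1 →
  (∀ m ∈ S, 2 ≤ m ∧ Squarefree (PiH H m) ∧ ∀ p : ℕ, p.Prime → p ∣ PiH H m → P₀ ≤ p) →
  ∑ m ∈ S, ∑ n ∈ S, w m * w n * RR H δ m n ≤ 1 + κ →
  1 / (1 + κ) ≤ μ.real (⋃ m ∈ S, EE A H m)

/-- IO (from PROB, DF): for every `N` the union over `m ≥ N` has measure `≥ 1/(1+κ)` for all `κ`. -/
def SpecIO : Prop := ∀ (Ω : Type) [MeasurableSpace Ω] (μ : MeasureTheory.Measure Ω) [MeasureTheory.IsProbabilityMeasure μ]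
  (A : ℕ → Set Ω), (∀ p, MeasurableSet (A p)) → ProbabilityTheory.iIndepSet (fun p : Nat.Primes => A (p : ℕ)) μ →
  ∀ (δ : ℝ) (P₀ : ℕ) (H : Finset ℕ) (b : ℕ), 0 < δ → δ < 1 → Adm H b →
  (∀ p : ℕ, p.Prime → P₀ ≤ p → δ * (p : ℝ) ^ (-th H.card) ≤ μ.real (A p) ∧ μ.real (A p) ≤ 1 - δ) →
  ∀ᵐ ω ∂μ, ∀ N : ℕ, ∃ m : ℕ, N ≤ m ∧ Squarefree (PiH H m) ∧ ω ∈ EE A H m

/-- MAIN1 (from IO, `T.SpecRING`). Translate `H` to `0 ∈ H`; `b` from `Odd.SpecCRT`; sets with fewer than three elements are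
contained in admissible sets with three elements. -/
def SpecMAIN1 : Prop := ∀ (Ω : Type) [MeasurableSpace Ω] (μ : MeasureTheory.Measure Ω) [MeasureTheory.IsProbabilityMeasure μ]
  (A : ℕ → Set Ω), (∀ p, MeasurableSet (A p)) → ProbabilityTheory.iIndepSet (fun p : Nat.Primes => A (p : ℕ)) μ →
  ∀ (δ : ℝ) (P₀ k : ℕ), 0 < δ → 3 ≤ k →
  (∀ p : ℕ, p.Prime → P₀ ≤ p → δ * (p : ℝ) ^ (-th k) ≤ μ.real (A p) ∧ μ.real (A p) ≤ 1 - δ) →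
  ∀ᵐ ω ∂μ, ∀ H : Finset ℕ, H.card ≤ k → (∀ p : ℕ, p.Prime → ∃ r : ℕ, ∀ h ∈ H, ¬ p ∣ r + h) →
    {n : ℕ | ∀ h ∈ H, PrimeIn {p | p.Prime ∧ ω ∈ A p} (n + h)}.Infinite

end

end Pool.Agent.Lib.MP3efbeb.TK
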