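import Pool.Agent.Lib.MP_3efbeb_nt.T.A2
import Pool.Agent.Lib.MP_3efbeb_nt.TK.Spec

/-!
# MP_3efbeb_nt, line T(k): module A2 (the bilinear large sieve)
-/

set_option autoImplicit false

namespace Pool.Agent.Lib.MP3efbeb.TK

open Finset Filter
open scoped Classical
open Pool.Agent.Lib.MP391708.QPA (PB rInd Rough)
open Pool.Agent.Lib.MP3efbeb.T (BP sg gpf cofP RS PrimeIn)
open Pool.Agent.Lib.MP_d1f1b5_nt.TB (PR dsum dsum_eq SpecBIL)

namespace A2M

open Pool.Agent.Lib.MP3efbeb.T.A2M (WP mem_WP mem_BP BP_big WP_inj card_dvd card_WP_le orth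
  dsum_nonneg sum_Q sum_inv_le exists_exp ev_rpow ev_log)

noncomputable section

/-- the numbers of `MM` and the pairs -/
theorem card_MM {a : ℝ} (ha : a ≤ 1 / 4) {x : ℕ} (hx : 4 ≤ x) (Q b : ℕ) (κ : ℕ → Prop)
    [DecidablePred κ] :
    ((MM Q b a x).filter κ).card = (WP a x (fun m => m % Q = b ∧ κ m)).card := by
  symm
  refine card_bij (fun w _ => w.1 * w.2) ?_ ?_ ?_
  · intro w hw
    rw [mem_WP] at hw
    rw [mem_filter]
    unfold MM
    rw [mem_filter, mem_Ioc]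
    exact ⟨⟨⟨hw.2.2.1, hw.2.2.2.1⟩, hw.2.2.2.2.1, w.2, hw.2.1, Dvd.intro_left _ rfl⟩,
      hw.2.2.2.2.2⟩
  · intro w hw w' hw' h
    exact WP_inj ha hx hw hw' h
  · intro m hm
    rw [mem_filter] at hm
    unfold MM at hm
    rw [mem_filter, mem_Ioc] at hm
    obtain ⟨⟨⟨h1, h2⟩, h3, P, hP, c, rfl⟩, h4⟩ := hm
    refine ⟨(c, P), ?_, mul_comm _ _⟩
    rw [mem_WP]
    have hPpos : 0 < P := (mem_BP.mp hP).2.1.pos
    have hc0 : 1 ≤ c := by
      rcases Nat.eq_zero_or_pos c with h | h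
      · subst h
        omega
      · exact h
    refine ⟨⟨hc0, ?_⟩, hP, ?_, ?_, ?_, ?_⟩
    · exact le_trans (Nat.le_mul_of_pos_left c hPpos) h2
    · show x < c * P
      rw [mul_comm]; exact h1
    · show c * P ≤ 2 * x
      rw [mul_comm]; exact h2
    · show c * P % Q = b
      rw [mul_comm]; exact h3
    · show κ (c * P)
      rw [mul_comm]; exact h4

/-- the forms -/
def FH (H : Finset ℕ) : Finset (ℕ × ℕ) := H.image fun h => (1, h)

theorem vF_FH (H : Finset ℕ) (r : ℕ) : Odd.vF (FH H) r = PiH H r := by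
  unfold Odd.vF FH PiH
  rw [prod_image (fun a _ b _ hab => (Prod.mk.inj hab).2)]
  refine prod_congr rfl fun h _ => ?_
  simp only
  ring

theorem nu_eq (H : Finset ℕ) (n : ℕ) :
    Odd.nu (FH H) n = ((range n).filter (fun r => n ∣ PiH H r)).card := by
  unfold Odd.nu
  congr 1
  refine filter_congr fun r _ => ?_
  rw [vF_FH]

theorem nu_le (H : Finset ℕ) {p : ℕ} (hp : p.Prime) : nu H p ≤ H.card := by
  have h := Odd.specNU (FH H) p hp (fun f hf => by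
    unfold FH at hf
    rw [mem_image] at hf
    obtain ⟨h, -, rfl⟩ := hf
    exact fun h => hp.one_lt.ne' (Nat.dvd_one.mp h))
  rw [nu_eq] at h
  exact h.trans card_image_le

theorem gg_nonneg (H : Finset ℕ) (p : ℕ) : 0 ≤ gg H p := by
  unfold gg
  split_ifs
  · exact le_rfl
  · positivity

theorem gg_le (H : Finset ℕ) {p : ℕ} (hp : p.Prime) :
    gg H p ≤ (H.card : ℕ) / (p : ℝ) ∧ gg H p ≤ 1 / 2 := by
  have hp0 : (0 : ℝ) < p := by exact_mod_cast hp.pos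
  unfold gg
  split_ifs with h
  · exact ⟨by positivity, by norm_num⟩
  · have h1 : (nu H p : ℝ) ≤ H.card := by exact_mod_cast nu_le H hp
    constructor
    · exact div_le_div_of_nonneg_right h1 hp0.le
    · rw [div_le_iff₀ hp0]
      have h2 : ((2 * H.card : ℕ) : ℝ) ≤ p := by exact_mod_cast (by omega : 2 * H.card ≤ p)
      push_cast at h2
      linarith

theorem Mk_pos (H : Finset ℕ) : 0 < Mk H := by
  unfold Mk
  exact prod_pos fun p hp => (mem_filter.mp hp).2.pos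

theorem dvd_Mk {H : Finset ℕ} {p : ℕ} (hp : p.Prime) (h : p ≤ 2 * H.card) : p ∣ Mk H := by
  unfold Mk
  exact dvd_prod_of_mem _ (mem_filter.mpr ⟨mem_range.mpr (by omega), hp⟩)

theorem le_of_dvd_Mk {H : Finset ℕ} {p : ℕ} (hp : p.Prime) (h : p ∣ Mk H) : p ≤ 2 * H.card := by
  unfold Mk at h
  rw [Prime.dvd_finsetProd_iff hp.prime] at h
  obtain ⟨r, hr, hpr⟩ := h
  rw [mem_filter, mem_range] at hr
  have := (Nat.prime_dvd_prime_iff_eq hp hr.2).mp hpr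
  omega

/-- the roots modulo `δ` -/
theorem prod_gg (H : Finset ℕ) {δ : ℕ} (hsq : Squarefree δ) (hδ : Nat.Coprime δ (Mk H)) :
    ∏ p ∈ δ.primeFactors, gg H p =
      (((range δ).filter (fun r => δ ∣ PiH H r)).card : ℝ) / δ := by
  have h1 : ((range δ).filter (fun r => δ ∣ PiH H r)).card = ∏ p ∈ δ.primeFactors, nu H p := by
    rw [← nu_eq]
    conv_lhs => rw [← Nat.prod_primeFactors_of_squarefree hsq]
    rw [Odd.RTM.nu_prod _ _ (fun p hp => Nat.prime_of_mem_primeFactors hp)]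
    refine prod_congr rfl fun p _ => ?_
    rw [nu_eq]
    rfl
  have h2 : (δ : ℝ) = ∏ p ∈ δ.primeFactors, (p : ℝ) := by
    rw [← Nat.cast_prod, Nat.prod_primeFactors_of_squarefree hsq]
  rw [h1, h2]
  push_cast
  rw [← prod_div_distrib]
  refine prod_congr rfl fun p hp => ?_
  unfold gg
  rw [if_neg]
  intro h5
  have hpp := Nat.prime_of_mem_primeFactors hp
  have hpd := Nat.dvd_of_mem_primeFactors hp
  exact hpp.one_lt.ne' (Nat.eq_one_of_dvd_coprimes hδ hpd (dvd_Mk hpp h5))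

theorem piH_mod (H : Finset ℕ) {m m' δ : ℕ} (h : m % δ = m' % δ) :
    δ ∣ PiH H m ↔ δ ∣ PiH H m' := by
  have h1 : (m : ZMod δ) = m' := (ZMod.natCast_eq_natCast_iff' m m' δ).mpr h
  unfold PiH
  rw [← ZMod.natCast_eq_zero_iff, ← ZMod.natCast_eq_zero_iff]
  push_cast
  rw [h1]

/-- the condition of `δ` -/
def kd (H : Finset ℕ) (b δ : ℕ) (m : ℕ) : Prop := m % Mk H = b ∧ δ ∣ PiH H m

theorem kd_mod (H : Finset ℕ) (b δ : ℕ) (m m' : ℕ) (h : m % (Mk H * δ) = m' % (Mk H * δ)) :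
    kd H b δ m ↔ kd H b δ m' := by
  have h1 : m % Mk H = m' % Mk H := by
    rw [← Nat.mod_mul_right_mod m (Mk H) δ, h, Nat.mod_mul_right_mod]
  have h2 : m % δ = m' % δ := by
    rw [← Nat.mod_mul_left_mod m (Mk H) δ, h, Nat.mod_mul_left_mod]
  unfold kd
  rw [h1, piH_mod H h2]

/-- the numerical comparison -/
theorem ev_final {ρ c C : ℝ} (hρ : 0 < ρ) (hc : 0 < c) (n : ℕ) :
    ∀ᶠ x : ℕ in atTop, C * (1 + Real.log x) ^ n ≤ c * (x : ℝ) ^ ρ := by
  have hr : 0 < ρ / (n + 1) := by positivity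
  filter_upwards [ev_log hr, ev_rpow hr (C / c), eventually_ge_atTop 1] with x h1 h2 hx1
  have hx1' : (1 : ℝ) ≤ x := by exact_mod_cast hx1
  have hx0 : (0 : ℝ) < x := by linarith
  have hlog := Real.log_nonneg hx1'
  have h3 : C ≤ c * (x : ℝ) ^ (ρ / (n + 1)) := by
    rw [div_lt_iff₀ hc] at h2
    linarith
  have h4 : (1 + Real.log x) ^ n ≤ ((x : ℝ) ^ (ρ / (n + 1))) ^ n :=
    pow_le_pow_left₀ (by linarith) h1 n
  calc C * (1 + Real.log x) ^ n ≤ c * (x : ℝ) ^ (ρ / (n + 1)) * (1 + Real.log x) ^ n :=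
        mul_le_mul_of_nonneg_right h3 (by positivity)
    _ ≤ c * (x : ℝ) ^ (ρ / (n + 1)) * ((x : ℝ) ^ (ρ / (n + 1))) ^ n :=
        mul_le_mul_of_nonneg_left h4 (by positivity)
    _ = c * (x : ℝ) ^ ρ := by
        rw [mul_assoc, ← pow_succ', ← Real.rpow_natCast, ← Real.rpow_mul hx0.le]
        congr 2
        push_cast
        field_simp

/-- one `q`, one `δ` coprime to `Mk H` -/
theorem one_q {H : Finset ℕ} {b : ℕ} {a : ℝ} (ha : a ≤ 1 / 4) {x : ℕ} (hx : 4 ≤ x) (δ u q : ℕ)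
    (hq : q.Prime) (hu : ¬ q ∣ u) {V E : ℝ}
    (hE : |((WP a x (kd H b δ)).card : ℝ) - V| ≤ E) :
    |((((MM (Mk H) b a x).filter (fun m => q ∣ m + u)).filter (fun m => δ ∣ PiH H m)).card : ℝ) -
      V / q| ≤
      dsum q (fun χ => ‖∑ w ∈ WP a x (kd H b δ), χ (w.1 : ZMod q) * χ (w.2 : ZMod q)‖) /
        ((q : ℝ) - 1) + 8 * x / (q : ℝ) ^ 2 + E / q := by
  have hcnt : (((MM (Mk H) b a x).filter (fun m => q ∣ m + u)).filter (fun m => δ ∣ PiH H m)).card =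
      ((WP a x (kd H b δ)).filter (fun w => q ∣ w.1 * w.2 + u)).card := by
    rw [filter_filter, card_MM ha hx]
    congr 1
    ext w
    rw [mem_filter, mem_WP, mem_WP]
    unfold kd
    tauto
  rw [hcnt]
  have horth := orth q hq u hu (WP a x (kd H b δ))
  set B := dsum q (fun χ => ‖∑ w ∈ WP a x (kd H b δ), χ (w.1 : ZMod q) * χ (w.2 : ZMod q)‖)
    with hB
  set cnt : ℝ := (((WP a x (kd H b δ)).filter (fun w => q ∣ w.1 * w.2 + u)).card : ℝ) with hc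
  set N1 : ℝ := ((WP a x (kd H b δ)).card : ℝ) with hN1
  set N0' : ℝ := (((WP a x (kd H b δ)).filter (fun w => ¬ q ∣ w.1 * w.2)).card : ℝ) with hN0
  set e : ℝ := (((WP a x (kd H b δ)).filter (fun w => q ∣ w.1 * w.2)).card : ℝ) with he
  have hsum : e + N0' = N1 := by
    rw [he, hN0, hN1]
    exact_mod_cast card_filter_add_card_filter_not (s := WP a x (kd H b δ))
      (fun w => q ∣ w.1 * w.2)
  have he1 : e ≤ 2 * x / q := card_dvd ha hx _ q hq.pos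
  have hN1' : N1 ≤ 2 * x := card_WP_le ha hx _
  have he0 : 0 ≤ e := Nat.cast_nonneg _
  have hN10 : 0 ≤ N1 := Nat.cast_nonneg _
  have hq2 : (2 : ℝ) ≤ q := by exact_mod_cast hq.two_le
  have hq0 : (0 : ℝ) < q := by linarith
  have hq1 : (0 : ℝ) < (q : ℝ) - 1 := by linarith
  have hx0 : (0 : ℝ) ≤ x := Nat.cast_nonneg _
  have h1 : |cnt - N0' / ((q : ℝ) - 1)| ≤ B / ((q : ℝ) - 1) := by
    have : cnt - N0' / ((q : ℝ) - 1) = (cnt * ((q : ℝ) - 1) - N0') / ((q : ℝ) - 1) := by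
      field_simp
    rw [this, abs_div, abs_of_pos hq1]
    exact div_le_div_of_nonneg_right horth hq1.le
  have h2 : |N0' / ((q : ℝ) - 1) - N1 / q| ≤ 8 * x / (q : ℝ) ^ 2 := by
    have e1 : N0' / ((q : ℝ) - 1) - N1 / q = N1 / (q * ((q : ℝ) - 1)) - e / ((q : ℝ) - 1) := by
      have : N0' = N1 - e := by linarith
      rw [this]
      field_simp
      ring
    rw [e1]
    have e2 : |N1 / (q * ((q : ℝ) - 1)) - e / ((q : ℝ) - 1)| ≤
        N1 / (q * ((q : ℝ) - 1)) + e / ((q : ℝ) - 1) := by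
      have a1 : 0 ≤ N1 / (q * ((q : ℝ) - 1)) := by positivity
      have a2 : 0 ≤ e / ((q : ℝ) - 1) := by positivity
      rw [abs_le]
      constructor <;> linarith
    refine e2.trans ?_
    have e3 : N1 / (q * ((q : ℝ) - 1)) ≤ 4 * x / (q : ℝ) ^ 2 := by
      rw [div_le_div_iff₀ (by positivity) (by positivity)]
      have : (q : ℝ) ^ 2 ≤ 2 * (q * ((q : ℝ) - 1)) := by nlinarith
      calc N1 * (q : ℝ) ^ 2 ≤ 2 * x * (2 * (q * ((q : ℝ) - 1))) :=
            mul_le_mul hN1' this (by positivity) (by positivity)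
        _ = _ := by ring
    have e4 : e / ((q : ℝ) - 1) ≤ 4 * x / (q : ℝ) ^ 2 := by
      have : e / ((q : ℝ) - 1) ≤ (2 * x / q) / ((q : ℝ) - 1) :=
        div_le_div_of_nonneg_right he1 hq1.le
      refine this.trans ?_
      rw [div_div, div_le_div_iff₀ (by positivity) (by positivity)]
      have : (q : ℝ) ^ 2 ≤ 2 * (q * ((q : ℝ) - 1)) := by nlinarith
      calc 2 * (x : ℝ) * (q : ℝ) ^ 2 ≤ 2 * x * (2 * (q * ((q : ℝ) - 1))) :=
            mul_le_mul_of_nonneg_left this (by positivity)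
        _ = _ := by ring
    calc _ ≤ 4 * x / (q : ℝ) ^ 2 + 4 * x / (q : ℝ) ^ 2 := add_le_add e3 e4
      _ = _ := by ring
  have h3 : |N1 / q - V / q| ≤ E / q := by
    rw [← sub_div, abs_div, abs_of_pos hq0]
    exact div_le_div_of_nonneg_right hE hq0.le
  calc |cnt - V / q| = |(cnt - N0' / ((q : ℝ) - 1)) + (N0' / ((q : ℝ) - 1) - N1 / q) +
        (N1 / q - V / q)| := by congr 1; ring
    _ ≤ |cnt - N0' / ((q : ℝ) - 1)| + |N0' / ((q : ℝ) - 1) - N1 / q| + |N1 / q - V / q| :=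
        (abs_add_le _ _).trans (add_le_add (abs_add_le _ _) le_rfl)
    _ ≤ _ := add_le_add (add_le_add h1 h2) h3

/-- `∑ 1/q` -/
theorem sum_inv_le (x : ℕ) (Qs : Finset ℕ) (hQ : ∀ q ∈ Qs, 1 ≤ q ∧ q ≤ x) :
    ∑ q ∈ Qs, 1 / (q : ℝ) ≤ 1 + Real.log x := by
  have h1 : ∑ q ∈ Qs, 1 / (q : ℝ) ≤ ∑ q ∈ Icc 1 x, 1 / (q : ℝ) :=
    sum_le_sum_of_subset_of_nonneg (fun q hq => mem_Icc.mpr (hQ q hq))
      (fun _ _ _ => by positivity)
  refine h1.trans ?_
  have h2 := harmonic_le_one_add_log x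
  have h3 : ((harmonic x : ℚ) : ℝ) = ∑ q ∈ Icc 1 x, 1 / (q : ℝ) := by
    rw [harmonic_eq_sum_Icc]
    push_cast
    refine sum_congr rfl fun q _ => ?_
    rw [one_div]
  rw [← h3]
  exact h2

/-- one `δ`, all `q` -/
theorem one_delta {C : ℝ} (hC0 : 0 < C)
    (hSum : ∀ (a ε ρ : ℝ), 0 < a → a ≤ 1 / 4 →
      ρ ≤ a / 8 → ρ ≤ ε → 0 < ρ → ∀ (x : ℕ), 4 ≤ x → 2 < (x : ℝ) ^ (a / 8) →
      ∀ (κ : ℕ → Prop) (Q : ℕ), 0 < Q →
      (∀ m m' : ℕ, m % Q = m' % Q → (κ m ↔ κ m')) → ∀ Qs : Finset ℕ,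
      (∀ q ∈ Qs, q.Prime ∧ (x : ℝ) ^ (a / 8) ≤ q ∧ (q : ℝ) ≤ (x : ℝ) ^ (1 / 2 - ε)) →
      ∑ q ∈ Qs, Real.log q / ((q : ℝ) - 1) *
        dsum q (fun χ => ‖∑ w ∈ WP a x κ, χ (w.1 : ZMod q) * χ (w.2 : ZMod q)‖) ≤
        C * (1 + Real.log x) ^ 4 * (Q : ℝ) ^ 2 * (x : ℝ) ^ (1 - ρ))
    {H : Finset ℕ} {b : ℕ} (hadm : Adm H b) {a ε ρ : ℝ} (ha0 : 0 < a) (ha : a ≤ 1 / 4)
    (hρa : ρ ≤ a / 8) (hρε : ρ ≤ ε) (hρ0 : 0 < ρ) {x : ℕ} (hx : 4 ≤ x)
    (hx2 : 2 < (x : ℝ) ^ (a / 8)) (hxt : ((H.sup id : ℕ) : ℝ) < (x : ℝ) ^ (a / 8))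
    (hCL : ∀ M : ℕ, 1 ≤ M → Nat.Coprime M (Mk H) → (M : ℝ) ≤ (x : ℝ) ^ (3 / 4 : ℝ) →
      ∀ R : Finset ℕ, R ⊆ range M →
      |(((MM (Mk H) b a x).filter (fun m => m % M ∈ R)).card : ℝ) -
        (x : ℝ) / Mk H * sg a x * ((R.card : ℝ) / M)| ≤ 2 * R.card * (x : ℝ) ^ (1 - a / 2))
    {u : ℕ} (hu : u ∈ H.erase 0) {Qs : Finset ℕ}
    (hQs : ∀ q ∈ Qs, q.Prime ∧ (x : ℝ) ^ (a / 8) ≤ q ∧ (q : ℝ) ≤ (x : ℝ) ^ (1 / 2 - ε))
    {D : ℝ} (hD1 : 1 ≤ D) (hD : D ≤ (x : ℝ) ^ (ρ / 8)) {δ : ℕ} (hδ1 : 1 ≤ δ) (hδD : (δ : ℝ) ≤ D)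
    (hsq : Squarefree δ) :
    ∑ q ∈ Qs, Real.log q *
      |((((MM (Mk H) b a x).filter (fun m => q ∣ m + u)).filter (fun m => δ ∣ PiH H m)).card : ℝ) -
        (x : ℝ) / Mk H * sg a x / q * ∏ p ∈ δ.primeFactors, gg H p| ≤
      ((Mk H : ℝ) ^ 2 * C + 10) * (1 + Real.log x) ^ 4 * D ^ 2 * (x : ℝ) ^ (1 - ρ) := by
  obtain ⟨h0, hk3, hb, hcop⟩ := hadm
  have hx4 : (4 : ℝ) ≤ x := by exact_mod_cast hx
  have hx1 : (1 : ℝ) ≤ x := by linarith
  have hx0 : (0 : ℝ) < x := by linarith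
  have hlogx : 0 ≤ Real.log x := Real.log_nonneg hx1
  have hqx : ∀ q ∈ Qs, 1 ≤ q ∧ q ≤ x := by
    intro q hq
    refine ⟨(hQs q hq).1.one_lt.le, ?_⟩
    have h1 : (q : ℝ) ≤ x := by
      refine (hQs q hq).2.2.trans ?_
      calc (x : ℝ) ^ (1 / 2 - ε) ≤ (x : ℝ) ^ (1 : ℝ) :=
            Real.rpow_le_rpow_of_exponent_le hx1 (by linarith)
        _ = x := Real.rpow_one _
    exact_mod_cast h1
  by_cases hδ : Nat.Coprime δ (Mk H)
  · -- the main case
    set R := (range δ).filter (fun r => δ ∣ PiH H r) with hR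
    have hRc : (R.card : ℝ) ≤ D := by
      have : R.card ≤ δ := by
        have := card_filter_le (range δ) (fun r => δ ∣ PiH H r)
        rwa [card_range] at this
      exact (by exact_mod_cast this : (R.card : ℝ) ≤ δ).trans hδD
    have hδx : (δ : ℝ) ≤ (x : ℝ) ^ (3 / 4 : ℝ) := by
      refine (hδD.trans hD).trans (Real.rpow_le_rpow_of_exponent_le hx1 ?_)
      linarith
    set V : ℝ := (x : ℝ) / Mk H * sg a x * ((R.card : ℝ) / δ) with hV
    have hcl := hCL δ hδ1 hδ hδx R (filter_subset _ _)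
    have hMW : ((MM (Mk H) b a x).filter (fun m => m % δ ∈ R)).card = (WP a x (kd H b δ)).card := by
      rw [card_MM ha hx]
      congr 1
      ext w
      rw [mem_WP, mem_WP]
      unfold kd
      have h1 : ∀ m : ℕ, m % δ ∈ R ↔ δ ∣ PiH H m := by
        intro m
        rw [hR, mem_filter, mem_range]
        constructor
        · rintro ⟨-, h⟩
          exact (piH_mod H (Nat.mod_mod m δ)).mp h
        · intro h
          exact ⟨Nat.mod_lt _ hδ1, (piH_mod H (Nat.mod_mod m δ)).mpr h⟩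
      rw [h1]
    rw [hMW] at hcl
    have hE : |((WP a x (kd H b δ)).card : ℝ) - V| ≤ 2 * D * (x : ℝ) ^ (1 - a / 2) := by
      refine hcl.trans ?_
      apply mul_le_mul_of_nonneg_right _ (Real.rpow_nonneg hx0.le _)
      linarith
    have hmain : ∀ q ∈ Qs, Real.log q *
      |((((MM (Mk H) b a x).filter (fun m => q ∣ m + u)).filter (fun m => δ ∣ PiH H m)).card : ℝ) -
        (x : ℝ) / Mk H * sg a x / q * ∏ p ∈ δ.primeFactors, gg H p| ≤
        Real.log q / ((q : ℝ) - 1) *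
        dsum q (fun χ => ‖∑ w ∈ WP a x (kd H b δ), χ (w.1 : ZMod q) * χ (w.2 : ZMod q)‖) +
        (8 * (x : ℝ) ^ (1 - ρ) * (1 + Real.log x) + 2 * (x : ℝ) ^ (1 - ρ) * (1 + Real.log x)) *
          (1 / (q : ℝ)) := by
      intro q hq
      have hqp := (hQs q hq).1
      have hq1 := (hqx q hq).1
      have hq0 : (0 : ℝ) < q := by exact_mod_cast hqp.pos
      have hqu : ¬ q ∣ u := by
        intro hd
        have hu0 : 0 < u ∧ u ≤ H.sup id := by
          rw [mem_erase] at hu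
          exact ⟨Nat.pos_of_ne_zero hu.1, le_sup (f := id) hu.2⟩
        have h1 := Nat.le_of_dvd hu0.1 hd
        have h2 : (q : ℝ) ≤ (H.sup id : ℕ) := by exact_mod_cast h1.trans hu0.2
        have h3 := (hQs q hq).2.1
        linarith
      have h1 := one_q (H := H) (b := b) ha hx δ u q hqp hqu hE
      have h2 : (x : ℝ) / Mk H * sg a x / q * ∏ p ∈ δ.primeFactors, gg H p = V / q := by
        rw [prod_gg H hsq hδ, hV]
        ring
      rw [h2]
      have hlq0 : 0 ≤ Real.log q := Real.log_nonneg (by exact_mod_cast hq1)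
      have hlq : Real.log q ≤ 1 + Real.log x := by
        have : Real.log q ≤ Real.log x :=
          Real.log_le_log hq0 (by exact_mod_cast (hqx q hq).2)
        linarith
      have h3 := mul_le_mul_of_nonneg_left h1 hlq0
      refine h3.trans ?_
      rw [mul_add, mul_add]
      have e1 : Real.log q * (dsum q (fun χ => ‖∑ w ∈ WP a x (kd H b δ),
          χ (w.1 : ZMod q) * χ (w.2 : ZMod q)‖) / ((q : ℝ) - 1)) = Real.log q / ((q : ℝ) - 1) *
          dsum q (fun χ => ‖∑ w ∈ WP a x (kd H b δ),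
            χ (w.1 : ZMod q) * χ (w.2 : ZMod q)‖) := by ring
      rw [e1]
      have e2 : Real.log q * (8 * x / (q : ℝ) ^ 2) ≤
          8 * (x : ℝ) ^ (1 - ρ) * (1 + Real.log x) * (1 / (q : ℝ)) := by
        have g1 : (x : ℝ) ≤ (x : ℝ) ^ (1 - ρ) * q := by
          calc (x : ℝ) = (x : ℝ) ^ (1 - ρ) * (x : ℝ) ^ ρ := by
                rw [← Real.rpow_add hx0]
                norm_num
            _ ≤ (x : ℝ) ^ (1 - ρ) * q := by
                apply mul_le_mul_of_nonneg_left _ (Real.rpow_nonneg hx0.le _)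
                exact (Real.rpow_le_rpow_of_exponent_le hx1 hρa).trans (hQs q hq).2.1
        have g2 : 8 * x / (q : ℝ) ^ 2 ≤ 8 * (x : ℝ) ^ (1 - ρ) / q := by
          rw [div_le_div_iff₀ (by positivity) hq0]
          nlinarith
        calc Real.log q * (8 * x / (q : ℝ) ^ 2) ≤ (1 + Real.log x) * (8 * (x : ℝ) ^ (1 - ρ) / q) :=
              mul_le_mul hlq g2 (by positivity) (by linarith)
          _ = _ := by ring
      have e3 : Real.log q * (2 * D * (x : ℝ) ^ (1 - a / 2) / q) ≤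
          2 * (x : ℝ) ^ (1 - ρ) * (1 + Real.log x) * (1 / (q : ℝ)) := by
        have g1 : D * (x : ℝ) ^ (1 - a / 2) ≤ (x : ℝ) ^ (1 - ρ) := by
          calc D * (x : ℝ) ^ (1 - a / 2) ≤ (x : ℝ) ^ (ρ / 8) * (x : ℝ) ^ (1 - a / 2) :=
                mul_le_mul_of_nonneg_right hD (Real.rpow_nonneg hx0.le _)
            _ = (x : ℝ) ^ (ρ / 8 + (1 - a / 2)) := by rw [← Real.rpow_add hx0]
            _ ≤ _ := Real.rpow_le_rpow_of_exponent_le hx1 (by linarith)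
        calc Real.log q * (2 * D * (x : ℝ) ^ (1 - a / 2) / q) =
              Real.log q * (2 * (D * (x : ℝ) ^ (1 - a / 2)) / q) := by ring
          _ ≤ (1 + Real.log x) * (2 * (x : ℝ) ^ (1 - ρ) / q) := by
              apply mul_le_mul hlq _ (by positivity) (by linarith)
              exact div_le_div_of_nonneg_right (by linarith) hq0.le
          _ = _ := by ring
      linarith
    refine (sum_le_sum hmain).trans ?_
    rw [sum_add_distrib, ← mul_sum]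
    have h1 := hSum a ε ρ ha0 ha hρa hρε hρ0 x hx hx2 (kd H b δ) (Mk H * δ)
      (Nat.mul_pos (Mk_pos H) hδ1)
      (kd_mod H b δ) Qs hQs
    have h2 := sum_inv_le x Qs hqx
    have hδ2 : (((Mk H * δ : ℕ) : ℝ)) ^ 2 ≤ (Mk H : ℝ) ^ 2 * D ^ 2 := by
      push_cast
      have h3 : (δ : ℝ) ^ 2 ≤ D ^ 2 := pow_le_pow_left₀ (Nat.cast_nonneg _) hδD 2
      rw [mul_pow]
      exact mul_le_mul_of_nonneg_left h3 (by positivity)
    have hP0 : 0 ≤ (x : ℝ) ^ (1 - ρ) := Real.rpow_nonneg hx0.le _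
    have h4 : C * (1 + Real.log x) ^ 4 * (((Mk H * δ : ℕ) : ℝ)) ^ 2 * (x : ℝ) ^ (1 - ρ) ≤
        C * (1 + Real.log x) ^ 4 * ((Mk H : ℝ) ^ 2 * D ^ 2) * (x : ℝ) ^ (1 - ρ) :=
      mul_le_mul_of_nonneg_right (mul_le_mul_of_nonneg_left hδ2 (by positivity)) hP0
    have h5 : (8 * (x : ℝ) ^ (1 - ρ) * (1 + Real.log x) +
        2 * (x : ℝ) ^ (1 - ρ) * (1 + Real.log x)) * ∑ q ∈ Qs, 1 / (q : ℝ) ≤
        (8 * (x : ℝ) ^ (1 - ρ) * (1 + Real.log x) +
        2 * (x : ℝ) ^ (1 - ρ) * (1 + Real.log x)) * (1 + Real.log x) :=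
      mul_le_mul_of_nonneg_left h2 (by positivity)
    have h6 : (1 + Real.log x) ^ 2 ≤ (1 + Real.log x) ^ 4 * D ^ 2 := by
      have g1 : (1 : ℝ) ≤ (1 + Real.log x) ^ 2 := one_le_pow₀ (by linarith)
      have g2 : (1 : ℝ) ≤ D ^ 2 := one_le_pow₀ hD1
      calc (1 + Real.log x) ^ 2 = (1 + Real.log x) ^ 2 * 1 * 1 := by ring
        _ ≤ (1 + Real.log x) ^ 2 * (1 + Real.log x) ^ 2 * D ^ 2 := by
            apply mul_le_mul _ g2 (by norm_num) (by positivity)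
            exact mul_le_mul_of_nonneg_left g1 (by positivity)
        _ = _ := by ring
    have h7 : 10 * (x : ℝ) ^ (1 - ρ) * (1 + Real.log x) ^ 2 ≤
        10 * (x : ℝ) ^ (1 - ρ) * ((1 + Real.log x) ^ 4 * D ^ 2) :=
      mul_le_mul_of_nonneg_left h6 (by positivity)
    calc _ ≤ C * (1 + Real.log x) ^ 4 * ((Mk H : ℝ) ^ 2 * D ^ 2) * (x : ℝ) ^ (1 - ρ) +
          (8 * (x : ℝ) ^ (1 - ρ) * (1 + Real.log x) +
            2 * (x : ℝ) ^ (1 - ρ) * (1 + Real.log x)) * (1 + Real.log x) :=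
          add_le_add (h1.trans h4) h5
      _ = C * (1 + Real.log x) ^ 4 * ((Mk H : ℝ) ^ 2 * D ^ 2) * (x : ℝ) ^ (1 - ρ) +
          10 * (x : ℝ) ^ (1 - ρ) * (1 + Real.log x) ^ 2 := by ring
      _ ≤ C * (1 + Real.log x) ^ 4 * ((Mk H : ℝ) ^ 2 * D ^ 2) * (x : ℝ) ^ (1 - ρ) +
          10 * (x : ℝ) ^ (1 - ρ) * ((1 + Real.log x) ^ 4 * D ^ 2) := by linarith
      _ = _ := by ring
  · -- `δ` has a common factor with `Mk H`: everything is zero
    obtain ⟨p, hp, hpδ, hp30⟩ := Nat.Prime.not_coprime_iff_dvd.mp hδ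
    have hp5 : p ≤ 2 * H.card := le_of_dvd_Mk hp hp30
    have hg : ∏ p ∈ δ.primeFactors, gg H p = 0 := by
      refine prod_eq_zero (i := p) (Nat.mem_primeFactors.mpr ⟨hp, hpδ, by omega⟩) ?_
      unfold gg
      rw [if_pos hp5]
    have hzero : ∀ q, (((MM (Mk H) b a x).filter (fun m => q ∣ m + u)).filter
        (fun m => δ ∣ PiH H m)).card = 0 := by
      intro q
      rw [card_eq_zero, filter_eq_empty_iff]
      intro m hm hd
      rw [mem_filter] at hm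
      have hm30 : m % Mk H = b := by
        have := hm.1
        unfold MM at this
        rw [mem_filter] at this
        exact this.2.1
      have h1 : p ∣ PiH H b := by
        have h2 : m % p = b % p := by
          rw [← hm30]
          exact (Nat.mod_mod_of_dvd m hp30).symm
        exact (piH_mod H h2).mp (hpδ.trans hd)
      exact hp.one_lt.ne' (Nat.eq_one_of_dvd_coprimes hcop h1 hp30)
    have hP0 : 0 ≤ (x : ℝ) ^ (1 - ρ) := Real.rpow_nonneg hx0.le _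
    have h1 : ∑ q ∈ Qs, Real.log q *
      |((((MM (Mk H) b a x).filter (fun m => q ∣ m + u)).filter (fun m => δ ∣ PiH H m)).card : ℝ) -
        (x : ℝ) / Mk H * sg a x / q * ∏ p ∈ δ.primeFactors, gg H p| = 0 := by
      refine sum_eq_zero fun q _ => ?_
      rw [hzero q, hg]
      simp
    rw [h1]
    positivity

end

end A2M

open A2M in
open Pool.Agent.Lib.MP3efbeb.T.A2M (sum_Q exists_exp ev_rpow) in
/-- module A2 -/
theorem specA2 (hFLK : Odd.SpecFLK) (hCL : SpecCL) (hGL : SpecGL) (hSG : T.SpecSG)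
    (hBIL : SpecBIL) : SpecA2 := by
  intro H b hadm a ε κ ha0 ha hε0 hε8 hκ0
  obtain ⟨C1, hC1, hF⟩ := hFLK H.card
  obtain ⟨c0, hc0, hG⟩ := hGL H
  obtain ⟨C2, hC2, hS⟩ := sum_Q hBIL
  obtain ⟨b', hb'⟩ := exists_exp hC1 hκ0
  have hMk := Mk_pos H
  have hMk0 : (0 : ℝ) < Mk H := by exact_mod_cast hMk
  obtain ⟨XCL, hXCL⟩ := hCL (Mk H) hMk a ha0 ha
  obtain ⟨XSG, hXSG⟩ := hSG a ha0 ha
  set ρ : ℝ := min (a / 8) ε with hρ
  have hρa : ρ ≤ a / 8 := min_le_left _ _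
  have hρε : ρ ≤ ε := min_le_right _ _
  have hρ0 : 0 < ρ := lt_min (by positivity) hε0
  set e : ℕ := 8 * b' + 16 with he
  have he0 : (0 : ℝ) < e := by rw [he]; positivity
  refine ⟨ρ / (8 * e), by positivity, ?_⟩
  intro η hη0 hη
  set C3 : ℝ := C1 * ((Mk H : ℝ) ^ 2 * C2 + 10) with hC3
  have hC30 : 0 < C3 := by rw [hC3]; positivity
  have hev : ∀ᶠ x : ℕ in atTop, 4 ≤ x ∧ 2 < (x : ℝ) ^ (a / 8) ∧ ((H.sup id : ℕ) : ℝ) < (x : ℝ) ^ (a / 8) ∧
      2 < (x : ℝ) ^ η ∧ XCL ≤ x ∧ XSG ≤ x ∧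
      C3 * (1 + Real.log x) ^ (5 + H.card) ≤ κ * (a / 4) * (1 / (Mk H : ℝ)) * c0 * (x : ℝ) ^ (5 * ρ / 8) := by
    have h8 : 0 < a / 8 := by positivity
    filter_upwards [eventually_ge_atTop 4, ev_rpow h8 2, ev_rpow h8 ((H.sup id : ℕ) : ℝ), ev_rpow hη0 2,
      eventually_ge_atTop XCL, eventually_ge_atTop XSG,
      ev_final (ρ := 5 * ρ / 8) (c := κ * (a / 4) * (1 / (Mk H : ℝ)) * c0) (C := C3) (by positivity)
        (by positivity) (5 + H.card)] with x h1 h2 h3 h4 h5 h6 h7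
    exact ⟨h1, h2, h3, h4, h5, h6, h7⟩
  obtain ⟨X₀, hX₀⟩ := eventually_atTop.mp hev
  refine ⟨X₀, ?_⟩
  intro x hxX u hu Q hQ
  obtain ⟨hx, hx2, hxt, hz2, hxCL, hxSG, hnum⟩ := hX₀ x hxX
  have hx4 : (4 : ℝ) ≤ x := by exact_mod_cast hx
  have hx1 : (1 : ℝ) ≤ x := by linarith
  have hx0 : (0 : ℝ) < x := by linarith
  have hlogx : 1 ≤ Real.log x := by
    rw [Real.le_log_iff_exp_le hx0]
    have := Real.exp_one_lt_d9
    linarith
  have hadm' := hadm
  obtain ⟨h0, hk3, hb, hcop⟩ := hadm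
  have hbcop : Nat.Coprime b (Mk H) := by
    have h1 : b ∣ PiH H b := by
      unfold PiH
      have := dvd_prod_of_mem (fun h => b + h) h0
      simpa using this
    exact Nat.Coprime.coprime_dvd_left h1 hcop
  set z : ℝ := (x : ℝ) ^ η with hz
  have hz0 : 0 < z := by linarith
  obtain ⟨hsg1, hsg2⟩ := hXSG x hxSG
  have hsg0 : 0 < sg a x := lt_of_lt_of_le (by positivity) hsg1
  -- `D`
  set D : ℝ := z ^ e with hD
  have hD1 : 1 ≤ D := one_le_pow₀ (by linarith)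
  have hDx : D ≤ (x : ℝ) ^ (ρ / 8) := by
    rw [hD, hz, ← Real.rpow_natCast, ← Real.rpow_mul hx0.le]
    apply Real.rpow_le_rpow_of_exponent_le hx1
    rw [le_div_iff₀ (by positivity)] at hη
    linarith
  have hg : ∀ p : ℕ, p.Prime → 0 ≤ gg H p ∧ gg H p ≤ (H.card : ℕ) / (p : ℝ) ∧ gg H p ≤ 1 / 2 :=
    fun p hp => ⟨gg_nonneg H p, gg_le H hp⟩
  set Δ : Finset ℕ := (Icc 1 ⌊z ^ (8 * b' + 16)⌋₊).filter
    (fun δ => Squarefree δ ∧ ∀ p : ℕ, p.Prime → p ∣ δ → (p : ℝ) < z) with hΔ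
  set Er : ℕ → ℕ → ℝ := fun q δ =>
    |((((MM (Mk H) b a x).filter (fun m => q ∣ m + u)).filter (fun m => δ ∣ PiH H m)).card : ℝ) -
        (x : ℝ) / Mk H * sg a x / q * ∏ p ∈ δ.primeFactors, gg H p| with hEr
  have hGG0 : 0 ≤ GG H z := by
    unfold GG
    refine prod_nonneg fun p hp => ?_
    have hpp : p.Prime := by
      unfold PB at hp
      exact (mem_filter.mp hp).2
    have := (hg p hpp).2.2
    linarith
  have hN0 : N0 H η x = (x : ℝ) / Mk H * GG H z := rfl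
  -- one `q`
  have hone : ∀ q ∈ Q, (((PP H b a η x).filter (fun m => q ∣ m + u)).card : ℝ) ≤
      (1 + κ) * (sg a x * N0 H η x) / q + C1 * (1 + Real.log z) * ∑ δ ∈ Δ, Er q δ := by
    intro q hq
    have hq0 : (0 : ℝ) < q := by exact_mod_cast (hQ q hq).1.pos
    set Xq : ℝ := (x : ℝ) / Mk H * sg a x / q with hXq
    have hXq0 : 0 ≤ Xq := by positivity
    have h1 := hF b' z hz2.le ((MM (Mk H) b a x).filter (fun m => q ∣ m + u)) (PiH H) (fun _ => 1) Xq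
      (gg H) hXq0 (fun _ _ => by norm_num) hg
    have h2 : ∑ i ∈ (MM (Mk H) b a x).filter (fun m => q ∣ m + u), (1 : ℝ) * rInd z (PiH H i) =
        (((PP H b a η x).filter (fun m => q ∣ m + u)).card : ℝ) := by
      unfold PP rInd
      simp only [one_mul]
      rw [← sum_filter, sum_const, nsmul_eq_mul, mul_one, filter_filter, filter_filter]
      congr 2
      ext m
      rw [mem_filter, mem_filter, and_comm (a := q ∣ m + u)]
    have h3 : ∀ δ : ℕ, ∑ i ∈ ((MM (Mk H) b a x).filter (fun m => q ∣ m + u)).filter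
        (fun i => δ ∣ PiH H i), (1 : ℝ) =
        ((((MM (Mk H) b a x).filter (fun m => q ∣ m + u)).filter (fun m => δ ∣ PiH H m)).card : ℝ) := by
      intro δ
      rw [sum_const, nsmul_eq_mul, mul_one]
    rw [h2] at h1
    simp only [h3] at h1
    have h4 : ∏ p ∈ PB z, (1 - gg H p) = GG H z := rfl
    rw [h4] at h1
    have h5 := (abs_le.mp h1).2
    have h6 : C1 * Real.exp (-(b' : ℝ)) * Xq * GG H z ≤ κ * (Xq * GG H z) := by
      rw [mul_assoc]
      exact mul_le_mul_of_nonneg_right hb' (by positivity)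
    have h7 : (1 + κ) * (sg a x * N0 H η x) / q = (1 + κ) * (Xq * GG H z) := by
      rw [hN0, hXq]
      field_simp
    rw [h7]
    have h8 : C1 * (1 + Real.log z) * ∑ δ ∈ Δ, Er q δ =
        C1 * (1 + Real.log z) * ∑ δ ∈ (Icc 1 ⌊z ^ (8 * b' + 16)⌋₊).filter
          (fun δ => Squarefree δ ∧ ∀ p : ℕ, p.Prime → p ∣ δ → (p : ℝ) < z),
          |((((MM (Mk H) b a x).filter (fun m => q ∣ m + u)).filter
            (fun m => δ ∣ PiH H m)).card : ℝ) - Xq * ∏ p ∈ δ.primeFactors, gg H p| := rfl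
    rw [h8]
    linarith
  -- the sum over `q`
  have hlq0 : ∀ q ∈ Q, 0 ≤ Real.log q := fun q hq =>
    Real.log_nonneg (by exact_mod_cast (hQ q hq).1.one_lt.le)
  have h1 : ∑ q ∈ Q, Real.log q * (((PP H b a η x).filter (fun m => q ∣ m + u)).card : ℝ) ≤
      (1 + κ) * (sg a x * N0 H η x) * (∑ q ∈ Q, Real.log q / q) +
        C1 * (1 + Real.log z) * ∑ δ ∈ Δ, ∑ q ∈ Q, Real.log q * Er q δ := by
    calc _ ≤ ∑ q ∈ Q, Real.log q * ((1 + κ) * (sg a x * N0 H η x) / q +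
          C1 * (1 + Real.log z) * ∑ δ ∈ Δ, Er q δ) :=
          sum_le_sum fun q hq => mul_le_mul_of_nonneg_left (hone q hq) (hlq0 q hq)
      _ = _ := by
          rw [sum_comm (s := Δ)]
          rw [mul_sum, mul_sum, ← sum_add_distrib]
          refine sum_congr rfl fun q _ => ?_
          rw [← mul_sum]
          ring
  refine h1.trans ?_
  have hP0 : 0 ≤ (x : ℝ) ^ (1 - ρ) := Real.rpow_nonneg hx0.le _
  have h2 : ∀ δ ∈ Δ, ∑ q ∈ Q, Real.log q * Er q δ ≤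
      ((Mk H : ℝ) ^ 2 * C2 + 10) * (1 + Real.log x) ^ 4 * D ^ 2 * (x : ℝ) ^ (1 - ρ) := by
    intro δ hδ
    rw [hΔ, mem_filter, mem_Icc] at hδ
    have hδD : (δ : ℝ) ≤ D := by
      have h3 : ((⌊z ^ (8 * b' + 16)⌋₊ : ℕ) : ℝ) ≤ D := Nat.floor_le (by positivity)
      exact (by exact_mod_cast hδ.1.2 : (δ : ℝ) ≤ ((⌊z ^ (8 * b' + 16)⌋₊ : ℕ) : ℝ)).trans h3
    exact one_delta hC2 hS hadm' ha0 ha hρa hρε hρ0 hx hx2 hxt (hXCL x hxCL b hb hbcop) hu hQ
      hD1 hDx hδ.1.1 hδD hδ.2.1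
  have hΔc : (Δ.card : ℝ) ≤ D := by
    have h3 : Δ.card ≤ ⌊z ^ (8 * b' + 16)⌋₊ := by
      have := card_filter_le (Icc 1 ⌊z ^ (8 * b' + 16)⌋₊)
        (fun δ => Squarefree δ ∧ ∀ p : ℕ, p.Prime → p ∣ δ → (p : ℝ) < z)
      rw [Nat.card_Icc] at this
      simpa using this
    calc (Δ.card : ℝ) ≤ ((⌊z ^ (8 * b' + 16)⌋₊ : ℕ) : ℝ) := by exact_mod_cast h3
      _ ≤ D := Nat.floor_le (by positivity)
  have h3 : ∑ δ ∈ Δ, ∑ q ∈ Q, Real.log q * Er q δ ≤
      D * (((Mk H : ℝ) ^ 2 * C2 + 10) * (1 + Real.log x) ^ 4 * D ^ 2 * (x : ℝ) ^ (1 - ρ)) := by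
    refine (sum_le_sum h2).trans ?_
    rw [sum_const, nsmul_eq_mul]
    exact mul_le_mul_of_nonneg_right hΔc (by positivity)
  have hlz : Real.log z = η * Real.log x := by
    rw [hz, Real.log_rpow hx0]
  have hη1 : η ≤ 1 := by
    refine hη.trans ?_
    rw [div_le_one (by positivity)]
    have h4 : (1 : ℝ) ≤ e := by
      rw [he]
      push_cast
      have : (0 : ℝ) ≤ b' := Nat.cast_nonneg _
      linarith
    linarith
  have hlz1 : Real.log z ≤ Real.log x := by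
    rw [hlz]
    nlinarith
  have hlz0 : 0 < Real.log z := Real.log_pos (by linarith)
  have hD3 : D ^ 3 ≤ (x : ℝ) ^ (3 * ρ / 8) := by
    calc D ^ 3 ≤ ((x : ℝ) ^ (ρ / 8)) ^ 3 := pow_le_pow_left₀ (by linarith) hDx 3
      _ = _ := by
        rw [← Real.rpow_natCast, ← Real.rpow_mul hx0.le]
        congr 1
        push_cast
        ring
  -- the error
  have h4 : C1 * (1 + Real.log z) * ∑ δ ∈ Δ, ∑ q ∈ Q, Real.log q * Er q δ ≤
      C3 * (1 + Real.log x) ^ 5 * (x : ℝ) ^ (1 - 5 * ρ / 8) := by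
    calc C1 * (1 + Real.log z) * ∑ δ ∈ Δ, ∑ q ∈ Q, Real.log q * Er q δ
        ≤ C1 * (1 + Real.log x) *
          (D * (((Mk H : ℝ) ^ 2 * C2 + 10) * (1 + Real.log x) ^ 4 * D ^ 2 * (x : ℝ) ^ (1 - ρ))) := by
          apply mul_le_mul _ h3 _ (by positivity)
          · exact mul_le_mul_of_nonneg_left (by linarith) hC1.le
          · refine sum_nonneg fun δ _ => sum_nonneg fun q hq => ?_
            exact mul_nonneg (hlq0 q hq) (abs_nonneg _)
      _ = C3 * (1 + Real.log x) ^ 5 * (D ^ 3 * (x : ℝ) ^ (1 - ρ)) := by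
          rw [hC3]
          ring
      _ ≤ C3 * (1 + Real.log x) ^ 5 * ((x : ℝ) ^ (3 * ρ / 8) * (x : ℝ) ^ (1 - ρ)) := by
          apply mul_le_mul_of_nonneg_left _ (by positivity)
          exact mul_le_mul_of_nonneg_right hD3 hP0
      _ = _ := by
          rw [← Real.rpow_add hx0]
          congr 2
          ring
  have h5 : C3 * (1 + Real.log x) ^ 5 * (x : ℝ) ^ (1 - 5 * ρ / 8) ≤
      κ * (sg a x * N0 H η x) * Real.log x := by
    have g1 : c0 / (1 + Real.log x) ^ H.card ≤ GG H z := by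
      refine le_trans ?_ (hG z hz2.le)
      apply div_le_div_of_nonneg_left hc0.le (by positivity)
      exact pow_le_pow_left₀ hlz0.le (by linarith) H.card
    have g2 : κ * ((a / 4) * ((x : ℝ) / Mk H * (c0 / (1 + Real.log x) ^ H.card))) ≤
        κ * (sg a x * N0 H η x) * Real.log x := by
      rw [hN0]
      have g3 : (a / 4) * ((x : ℝ) / Mk H * (c0 / (1 + Real.log x) ^ H.card)) ≤
          sg a x * ((x : ℝ) / Mk H * GG H z) := by
        apply mul_le_mul hsg1 _ (by positivity) hsg0.le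
        exact mul_le_mul_of_nonneg_left g1 (by positivity)
      have g4 : 0 ≤ sg a x * ((x : ℝ) / Mk H * GG H z) := by positivity
      calc κ * ((a / 4) * ((x : ℝ) / Mk H * (c0 / (1 + Real.log x) ^ H.card)))
          ≤ κ * (sg a x * ((x : ℝ) / Mk H * GG H z)) := mul_le_mul_of_nonneg_left g3 hκ0.le
        _ = κ * (sg a x * ((x : ℝ) / Mk H * GG H z)) * 1 := by ring
        _ ≤ _ := mul_le_mul_of_nonneg_left hlogx (by positivity)
    refine le_trans ?_ g2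
    have g5 : (x : ℝ) ^ (1 - 5 * ρ / 8) * (x : ℝ) ^ (5 * ρ / 8) = x := by
      rw [← Real.rpow_add hx0]
      norm_num
    have g6 : κ * ((a / 4) * ((x : ℝ) / Mk H * (c0 / (1 + Real.log x) ^ H.card))) =
        (κ * (a / 4) * (1 / (Mk H : ℝ)) * c0 * (x : ℝ) ^ (5 * ρ / 8)) * (x : ℝ) ^ (1 - 5 * ρ / 8) /
          (1 + Real.log x) ^ H.card := by
      have g7 : (x : ℝ) / Mk H = ((x : ℝ) ^ (1 - 5 * ρ / 8) * (x : ℝ) ^ (5 * ρ / 8)) / Mk H := by
        rw [g5]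
      rw [g7]
      ring
    rw [g6, le_div_iff₀ (by positivity)]
    calc C3 * (1 + Real.log x) ^ 5 * (x : ℝ) ^ (1 - 5 * ρ / 8) * (1 + Real.log x) ^ H.card =
          (C3 * (1 + Real.log x) ^ (5 + H.card)) * (x : ℝ) ^ (1 - 5 * ρ / 8) := by
            rw [pow_add]
            ring
      _ ≤ _ := mul_le_mul_of_nonneg_right hnum (Real.rpow_nonneg hx0.le _)
  linarith

end Pool.Agent.Lib.MP3efbeb.TK
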