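import Pool.Agent.Lib.MP_3efbeb_nt.TK.Spec
import Pool.Agent.Lib.MP_1446ad_nt.SM.MRA

/-!
# TK: AV, the mean of the logarithms of the prime factors `≤ x^v`
-/

set_option autoImplicit false

namespace Pool.Agent.Lib.MP3efbeb.TK

open Finset
open scoped Classical
open Pool.Agent.Lib.MP391708.QPA (PB rInd Rough)
open Pool.Agent.Lib.MP3efbeb.T (BP sg gpf cofP)

namespace AVM

lemma GG_nonneg (H : Finset ℕ) (z : ℝ) : 0 ≤ GG H z := by
  unfold GG
  refine prod_nonneg fun p hp => ?_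
  have hpp : p.Prime := by
    unfold PB at hp
    exact (mem_filter.1 hp).2
  have hp0 : (0 : ℝ) < p := by exact_mod_cast hpp.pos
  have h1 : gg H p ≤ 1 := by
    unfold gg
    split_ifs
    · exact zero_le_one
    · rw [div_le_one hp0]
      unfold nu
      have h2 := card_filter_le (range p) (fun r => p ∣ PiH H r)
      rw [card_range] at h2
      exact_mod_cast h2
  linarith

lemma N0_nonneg (H : Finset ℕ) (η : ℝ) (x : ℕ) : 0 ≤ N0 H η x := by
  unfold N0
  exact mul_nonneg (by positivity) (GG_nonneg H _)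

lemma sg_nonneg (a : ℝ) (x : ℕ) : 0 ≤ sg a x := by
  unfold sg
  exact sum_nonneg fun P _ => by positivity

/-- small primes do not divide -/
lemma rough_zero {H : Finset ℕ} {b x q u : ℕ} {a η : ℝ} (hu : u ∈ H.erase 0) (hq : q.Prime)
    (hqx : (q : ℝ) < (x : ℝ) ^ η) : (PP H b a η x).filter (fun m => q ∣ m + u) = ∅ := by
  rw [filter_eq_empty_iff]
  intro m hm hd
  unfold PP at hm
  have h1 := (mem_filter.1 hm).2
  have h2 : m + u ∣ PiH H m := dvd_prod_of_mem (fun h => m + h) (mem_of_mem_erase hu)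
  have h3 := h1 q hq (hd.trans h2)
  linarith

end AVM

open AVM

theorem specAV (hA1 : SpecA1) (hA2 : SpecA2) : SpecAV := by
  intro H b hadm a ε κ ha ha4 hε hε8 hκ
  obtain ⟨C, hC, hM⟩ := Pool.Agent.Lib.MP_1446ad_nt.SM.specMRA
  set k : ℝ := min (κ / 4) 1 with hk
  have hk0 : 0 < k := lt_min (by positivity) one_pos
  have hk4 : k ≤ κ / 4 := min_le_left _ _
  have hk1 : k ≤ 1 := min_le_right _ _
  obtain ⟨η₁, hη₁, h1⟩ := hA1 H b hadm a k ha ha4 hk0
  obtain ⟨η₂, hη₂, h2⟩ := hA2 H b hadm a ε k ha ha4 hε hε8 hk0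
  refine ⟨min η₁ η₂, lt_min hη₁ hη₂, fun η hη hηm => ?_⟩
  obtain ⟨X₁, h1'⟩ := h1 η hη (hηm.trans (min_le_left _ _))
  obtain ⟨X₂, h2'⟩ := h2 η hη (hηm.trans (min_le_right _ _))
  -- large `x`: `8 C / κ ≤ log x`
  have hlim : Filter.Tendsto (fun x : ℕ => Real.log (x : ℝ)) Filter.atTop Filter.atTop :=
    Real.tendsto_log_atTop.comp tendsto_natCast_atTop_atTop
  obtain ⟨X₃, hX₃⟩ := Filter.eventually_atTop.1 (hlim.eventually_ge_atTop (8 * C / κ))
  refine ⟨max (max X₁ X₂) (max X₃ 3), fun x hx u hu v hv hvε => ?_⟩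
  have hx1 : X₁ ≤ x := ((le_max_left _ _).trans (le_max_left _ _)).trans hx
  have hx2 : X₂ ≤ x := ((le_max_right _ _).trans (le_max_left _ _)).trans hx
  have hx3 : X₃ ≤ x := ((le_max_left _ _).trans (le_max_right _ _)).trans hx
  have hx4 : 3 ≤ x := ((le_max_right _ _).trans (le_max_right _ _)).trans hx
  have hlogC := hX₃ x hx3
  have hx3' : (3 : ℝ) ≤ x := by exact_mod_cast hx4
  have hx0 : (0 : ℝ) < x := by linarith
  have hx1' : (1 : ℝ) ≤ x := by linarith
  have hlog : 0 < Real.log x := Real.log_pos (by linarith)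
  set Z : ℝ := sg a x * N0 H η x with hZ
  have hZ0 : 0 ≤ Z := mul_nonneg (sg_nonneg a x) (N0_nonneg H η x)
  set f : ℕ → ℝ := fun q => (((PP H b a η x).filter (fun m => q ∣ m + u)).card : ℝ) with hf
  set A : Finset ℕ := (Icc 1 x).filter (fun q : ℕ => q.Prime ∧ (q : ℝ) ≤ (x : ℝ) ^ v) with hA
  have hAp : ∀ q ∈ A, q.Prime := fun q hq => (mem_filter.1 hq).2.1
  set A₁ : Finset ℕ := A.filter (fun q : ℕ => (q : ℝ) ≤ (x : ℝ) ^ (a / 8)) with hA₁
  set A₂ : Finset ℕ := A.filter (fun q : ℕ => ¬ (q : ℝ) ≤ (x : ℝ) ^ (a / 8)) with hA₂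
  have hsplit : ∀ g : ℕ → ℝ, ∑ q ∈ A, g q = ∑ q ∈ A₁, g q + ∑ q ∈ A₂, g q := fun g =>
    (sum_filter_add_sum_filter_not A _ g).symm
  -- small and middle primes
  have e1 : ∑ q ∈ A₁, Real.log q * f q ≤ (1 + k) * Z * ∑ q ∈ A₁, Real.log q / q := by
    rw [mul_sum]
    refine sum_le_sum fun q hq => ?_
    have hqA := (mem_filter.1 hq).1
    have hq8 := (mem_filter.1 hq).2
    have hqp := hAp q hqA
    have hq0 : (0 : ℝ) < q := by exact_mod_cast hqp.pos
    have hlq : 0 ≤ Real.log q := Real.log_natCast_nonneg q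
    by_cases hqη : (x : ℝ) ^ η ≤ q
    · have h3 := h1' x hx1 u hu q hqp hqη hq8
      calc Real.log q * f q ≤ Real.log q * ((1 + k) * Z / q) := mul_le_mul_of_nonneg_left h3 hlq
        _ = (1 + k) * Z * (Real.log q / q) := by ring
    · have h3 : f q = 0 := by
        rw [hf]
        show (((PP H b a η x).filter (fun m => q ∣ m + u)).card : ℝ) = 0
        rw [rough_zero hu hqp (not_le.1 hqη), card_empty, Nat.cast_zero]
      rw [h3, mul_zero]
      have : 0 ≤ Real.log q / q := div_nonneg hlq hq0.le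
      positivity
  -- large primes
  have e2 : ∑ q ∈ A₂, Real.log q * f q ≤ (1 + k) * Z * (∑ q ∈ A₂, Real.log q / q) + k * Z * Real.log x := by
    refine h2' x hx2 u hu A₂ fun q hq => ?_
    have hqA := (mem_filter.1 hq).1
    have hq8 := (mem_filter.1 hq).2
    refine ⟨hAp q hqA, (not_le.1 hq8).le, ?_⟩
    refine (mem_filter.1 hqA).2.2.trans ?_
    exact Real.rpow_le_rpow_of_exponent_le hx1' hvε
  -- Mertens
  have e3 : ∑ q ∈ A, Real.log q / (q : ℝ) ≤ v * Real.log x + C := by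
    have hxv : 1 ≤ (x : ℝ) ^ v := Real.one_le_rpow hx1' hv
    set N : ℕ := ⌊(x : ℝ) ^ v⌋₊ with hN
    have hN1 : 1 ≤ N := Nat.le_floor (by exact_mod_cast hxv)
    have h3 := (abs_le.1 (hM N hN1)).2
    have h4 : ∑ q ∈ A, Real.log q / (q : ℝ) ≤ ∑ q ∈ (Ioc 0 N).filter Nat.Prime, Real.log q / (q : ℝ) := by
      refine sum_le_sum_of_subset_of_nonneg ?_ fun q _ _ => ?_
      · intro q hq
        have hqp := hAp q hq
        rw [mem_filter, mem_Ioc]
        exact ⟨⟨hqp.pos, Nat.le_floor (mem_filter.1 hq).2.2⟩, hqp⟩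
      · exact div_nonneg (Real.log_natCast_nonneg q) (Nat.cast_nonneg q)
    have h5 : Real.log N ≤ v * Real.log x := by
      rw [← Real.log_rpow hx0]
      refine Real.log_le_log (by exact_mod_cast hN1) ?_
      exact Nat.floor_le (by positivity)
    linarith
  have e4 : 0 ≤ (1 + k) * Z := by positivity
  have e5 : ∑ q ∈ A, Real.log q * f q ≤ (1 + k) * Z * (v * Real.log x + C) + k * Z * Real.log x := by
    rw [hsplit]
    have h3 := mul_le_mul_of_nonneg_left e3 e4
    rw [hsplit, mul_add] at h3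
    linarith
  refine e5.trans ?_
  -- final estimate
  have hC8 : 8 * C ≤ κ * Real.log x := by
    rw [div_le_iff₀ hκ] at hlogC
    linarith
  have hv2 : v ≤ 1 / 2 := by linarith
  have h6 : (1 + k) * (v * Real.log x + C) + k * Real.log x ≤ (v + κ) * Real.log x := by
    have g1 : k * (v * Real.log x) ≤ (κ / 4) * ((1 / 2) * Real.log x) :=
      mul_le_mul hk4 (mul_le_mul_of_nonneg_right hv2 hlog.le) (by positivity) (by positivity)
    have g2 : (1 + k) * C ≤ 2 * C := mul_le_mul_of_nonneg_right (by linarith) hC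
    have g3 : k * Real.log x ≤ κ / 4 * Real.log x := mul_le_mul_of_nonneg_right hk4 hlog.le
    nlinarith
  calc (1 + k) * Z * (v * Real.log x + C) + k * Z * Real.log x
      = ((1 + k) * (v * Real.log x + C) + k * Real.log x) * Z := by ring
    _ ≤ (v + κ) * Real.log x * Z := mul_le_mul_of_nonneg_right h6 hZ0

end Pool.Agent.Lib.MP3efbeb.TK
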