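import Pool.Agent.Lib.MP_3efbeb_nt.TK.BA

/-!
# Module B of line T(k): upper bound for the large prime factors of `m + u`
-/

set_option autoImplicit false

namespace Pool.Agent.Lib.MP3efbeb.TK

open Finset
open scoped Classical
open Pool.Agent.Lib.MP391708.QPA (PB rInd Rough Wp)
open Pool.Agent.Lib.MP3efbeb.T (BP sg gpf cofP RS PrimeIn)

noncomputable section

namespace BM

open Pool.Agent.Lib.MP3efbeb.T.BM (crt_count mem_PB sqf_dvd len_bd wp_lower PB_mono wp_split)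

theorem prod_split (H : Finset ℕ) {z z₁ : ℝ} (h : z ≤ z₁) :
    ∏ p ∈ PB z₁, (1 - g1 H z p) = GG H z * ∏ p ∈ PB z₁ \ PB z, (1 - 1 / (p : ℝ)) := by
  rw [← prod_sdiff (PB_mono h), mul_comm]
  congr 1
  · unfold GG
    apply prod_congr rfl
    intro p hp
    rw [mem_PB] at hp
    unfold g1
    rw [if_pos hp.1]
  · apply prod_congr rfl
    intro p hp
    rw [mem_sdiff, mem_PB, mem_PB] at hp
    unfold g1
    rw [if_neg]
    intro h2
    exact hp.2 ⟨h2, hp.1.2⟩

theorem gg_prod_nonneg (H : Finset ℕ) (z : ℝ) : 0 ≤ GG H z := by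
  unfold GG
  apply prod_nonneg
  intro p hp
  rw [mem_PB] at hp
  have := gg_le_half H hp.2
  linarith

/-- the product -/
theorem prod_le (hW : Pool.Agent.Lib.MP391708.QPA.SpecWMER) : ∃ K : ℝ, 0 < K ∧ ∀ (H : Finset ℕ) (z z₁ : ℝ), 2 ≤ z → z ≤ z₁ →
    ∏ p ∈ PB z₁, (1 - g1 H z p) ≤ K * GG H z * (Real.log z / Real.log z₁) := by
  obtain ⟨C, hC, hW⟩ := hW
  obtain ⟨c, hc, hL⟩ := wp_lower
  refine ⟨C / c, by positivity, fun H z z₁ hz hzz => ?_⟩
  have hlz : 0 < Real.log z := Real.log_pos (by linarith)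
  have hlz1 : 0 < Real.log z₁ := Real.log_pos (by linarith)
  have h1 := hW z₁ (by linarith)
  have h2 := hL z hz
  rw [wp_split hzz] at h1
  rw [prod_split H hzz]
  set Q : ℝ := ∏ p ∈ PB z₁ \ PB z, (1 - 1 / (p : ℝ)) with hQ
  have hQ0 : 0 ≤ Q := by
    rw [hQ]
    apply prod_nonneg
    intro p hp
    rw [mem_sdiff, mem_PB] at hp
    have h3 : (1 : ℝ) ≤ p := by exact_mod_cast hp.1.2.one_lt.le
    have h4 : 1 / (p : ℝ) ≤ 1 := by
      rw [div_le_one (by linarith)]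
      exact h3
    linarith
  have h3 : c / Real.log z * Q ≤ C / Real.log z₁ := (mul_le_mul_of_nonneg_right h2 hQ0).trans h1
  have h4 : Q ≤ C / c * (Real.log z / Real.log z₁) := by
    have h5 : Q = (c / Real.log z * Q) * (Real.log z / c) := by field_simp
    rw [h5]
    calc (c / Real.log z * Q) * (Real.log z / c) ≤ (C / Real.log z₁) * (Real.log z / c) :=
          mul_le_mul_of_nonneg_right h3 (by positivity)
      _ = C / c * (Real.log z / Real.log z₁) := by ring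
  calc GG H z * Q ≤ GG H z * (C / c * (Real.log z / Real.log z₁)) :=
        mul_le_mul_of_nonneg_left h4 (gg_prod_nonneg H z)
    _ = C / c * GG H z * (Real.log z / Real.log z₁) := by ring

/-- the sieve for one cofactor -/
theorem per_c (hF : Odd.SpecFLK) (H : Finset ℕ) : ∃ C : ℝ, 0 < C ∧ ∀ (b c q u x : ℕ) (z z₁ : ℝ), Adm H b → q.Prime →
    Mk H < q → (2 * H.card : ℝ) < z → 2 ≤ z₁ → z₁ ≤ q → 1 ≤ c → Nat.Coprime c (Mk H * q) → Rough z c →
    ∑ P ∈ SS (Mk H) b c q u x, rInd z₁ (vv H c z P)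
      ≤ C * ((x : ℝ) / (Mk H * c * q)) * ∏ p ∈ PB z₁, (1 - g1 H z p)
        + C * (1 + Real.log z₁) * (z₁ ^ 24) ^ 2 := by
  obtain ⟨C, hC, h⟩ := hF H.card
  refine ⟨1 + 2 * C, by positivity, fun b c q u x z z₁ hA hq hq30 hz hz1 hzq hc1 hc hcz => ?_⟩
  have h1 := h 1 z₁ hz1 (SS (Mk H) b c q u x) (vv H c z) (fun _ => 1) ((x : ℝ) / (Mk H * c * q)) (g1 H z)
    (by positivity) (fun _ _ => zero_le_one)
    (fun p hp => ⟨g1_nonneg H z p, g1_le H (by have := hA.2.1; omega) z hp, g1_le_half H z hp⟩)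
  simp only [one_mul] at h1
  have hlz1 : 0 ≤ Real.log z₁ := Real.log_nonneg (by linarith)
  set W : ℝ := ∏ p ∈ PB z₁, (1 - g1 H z p) with hW
  set X : ℝ := (x : ℝ) / (Mk H * c * q) with hX
  have hX0 : 0 ≤ X := by positivity
  have hW0 : 0 ≤ W := by
    apply prod_nonneg
    intro p hp
    rw [mem_PB] at hp
    have := g1_le_half H z hp.2
    linarith
  set D : ℝ := z₁ ^ 24 with hD
  have hD1 : 1 ≤ D := one_le_pow₀ (by linarith)
  have h2 : ∑ δ ∈ (Icc 1 ⌊z₁ ^ (8 * 1 + 16)⌋₊).filter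
          (fun δ => Squarefree δ ∧ ∀ p : ℕ, p.Prime → p ∣ δ → (p : ℝ) < z₁),
          |(∑ i ∈ (SS (Mk H) b c q u x).filter (fun i => δ ∣ vv H c z i), (1 : ℝ)) - X * ∏ p ∈ δ.primeFactors, g1 H z p|
      ≤ 2 * D ^ 2 := by
    have e : z₁ ^ (8 * 1 + 16) = D := by rw [hD]
    rw [e]
    have h3 : ∀ δ ∈ (Icc 1 ⌊D⌋₊).filter
          (fun δ => Squarefree δ ∧ ∀ p : ℕ, p.Prime → p ∣ δ → (p : ℝ) < z₁),
          |(∑ i ∈ (SS (Mk H) b c q u x).filter (fun i => δ ∣ vv H c z i), (1 : ℝ)) - X * ∏ p ∈ δ.primeFactors, g1 H z p|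
          ≤ 2 * D := by
      intro δ hδ
      rw [mem_filter, mem_Icc] at hδ
      obtain ⟨⟨hδ1, hδ2⟩, hδs, hδp⟩ := hδ
      have h4 := rem_le H b c q u x z hA hq hq30 hz hc1 hc hcz δ hδs (by
        intro hd
        have := hδp q hq hd
        linarith)
      rw [sum_const, nsmul_eq_mul, mul_one]
      refine h4.trans ?_
      have : (δ : ℝ) ≤ D := (Nat.le_floor_iff (by linarith)).1 hδ2
      linarith
    refine (sum_le_sum h3).trans ?_
    rw [sum_const, nsmul_eq_mul]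
    have h5 : (((Icc 1 ⌊D⌋₊).filter
          (fun δ => Squarefree δ ∧ ∀ p : ℕ, p.Prime → p ∣ δ → (p : ℝ) < z₁)).card : ℝ) ≤ D := by
      have h6 : ((Icc 1 ⌊D⌋₊).filter
          (fun δ => Squarefree δ ∧ ∀ p : ℕ, p.Prime → p ∣ δ → (p : ℝ) < z₁)).card ≤ ⌊D⌋₊ :=
        (card_filter_le _ _).trans (by simp)
      exact (Nat.cast_le.2 h6).trans (Nat.floor_le (by linarith))
    calc _ ≤ D * (2 * D) := mul_le_mul_of_nonneg_right h5 (by linarith)
      _ = 2 * D ^ 2 := by ring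
  have h3 : Real.exp (-((1 : ℕ) : ℝ)) ≤ 1 := Real.exp_le_one_iff.2 (by norm_num)
  have h4 := (abs_le.1 h1).2
  have h5 : C * Real.exp (-((1 : ℕ) : ℝ)) * X * W ≤ C * X * W := by
    have : C * Real.exp (-((1 : ℕ) : ℝ)) ≤ C * 1 := mul_le_mul_of_nonneg_left h3 hC.le
    calc C * Real.exp (-((1 : ℕ) : ℝ)) * X * W = (C * Real.exp (-((1 : ℕ) : ℝ))) * (X * W) := by ring
      _ ≤ (C * 1) * (X * W) := mul_le_mul_of_nonneg_right this (by positivity)
      _ = C * X * W := by ring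
  have h6 := mul_le_mul_of_nonneg_left h2 (by positivity : 0 ≤ C * (1 + Real.log z₁))
  have h7 : 0 ≤ C * X * W := by positivity
  have h8 : 0 ≤ (1 + Real.log z₁) * D ^ 2 := by positivity
  have h9 : (1 + 2 * C) * X * W + (1 + 2 * C) * (1 + Real.log z₁) * D ^ 2
      = X * W + C * X * W + C * (1 + Real.log z₁) * (2 * D ^ 2) + C * X * W + (1 + Real.log z₁) * D ^ 2 := by ring
  rw [h9]
  linarith

/-- the conditions on `x` -/
theorem ev_cond (a η E k₀ M₀ : ℝ) (n : ℕ) (ha : 0 < a) (hη : 0 < η) : ∃ X₀ : ℕ, ∀ x : ℕ, X₀ ≤ x →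
    (10 : ℝ) ^ 10 ≤ x ∧ k₀ ≤ (x : ℝ) ^ η ∧ Real.log 2 + 1 ≤ a / 2 * Real.log x ∧
      E * (Real.log x) ^ n ≤ (x : ℝ) ^ (13 / 100 : ℝ) ∧ M₀ ≤ (x : ℝ) ^ (1 / 4 : ℝ) := by
  have h1 : ∀ᶠ x : ℝ in Filter.atTop, (10 : ℝ) ^ 10 ≤ x := Filter.eventually_ge_atTop _
  have h2 : ∀ᶠ x : ℝ in Filter.atTop, k₀ ≤ x ^ η := (tendsto_rpow_atTop hη).eventually_ge_atTop k₀
  have h2' : ∀ᶠ x : ℝ in Filter.atTop, M₀ ≤ x ^ (1 / 4 : ℝ) :=
    (tendsto_rpow_atTop (by norm_num)).eventually_ge_atTop M₀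
  have h3 : ∀ᶠ x : ℝ in Filter.atTop, (Real.log 2 + 1) / (a / 2) ≤ Real.log x :=
    Real.tendsto_log_atTop.eventually_ge_atTop _
  have h4 : ∀ᶠ x : ℝ in Filter.atTop, E * (Real.log x) ^ n ≤ x ^ (13 / 100 : ℝ) := by
    have h5 := (isLittleO_log_rpow_rpow_atTop (s := 13 / 100) (n : ℝ) (by norm_num)).def
      (c := 1 / (|E| + 1)) (by positivity)
    filter_upwards [h5, Filter.eventually_ge_atTop (1 : ℝ)] with x hx hx1
    have hl : 0 ≤ Real.log x := Real.log_nonneg hx1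
    have e1 : Real.log x ^ (n : ℝ) = Real.log x ^ n := Real.rpow_natCast _ _
    rw [e1, Real.norm_of_nonneg (by positivity), Real.norm_of_nonneg (by positivity)] at hx
    have h6 : (|E| + 1) * Real.log x ^ n ≤ x ^ (13 / 100 : ℝ) := by
      have h7 := mul_le_mul_of_nonneg_left hx (by positivity : 0 ≤ |E| + 1)
      have h8 : (|E| + 1) * (1 / (|E| + 1) * x ^ (13 / 100 : ℝ)) = x ^ (13 / 100 : ℝ) := by
        field_simp
      rwa [h8] at h7
    refine le_trans (mul_le_mul_of_nonneg_right ?_ (by positivity)) h6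
    have := le_abs_self E
    linarith
  have h5 := ((h1.and h2).and (h3.and (h4.and h2')))
  have h6 := tendsto_natCast_atTop_atTop (R := ℝ) |>.eventually h5
  obtain ⟨X₀, hX⟩ := Filter.eventually_atTop.1 h6
  refine ⟨X₀, fun x hx => ?_⟩
  obtain ⟨⟨g1, g2⟩, g3, g4, g5⟩ := hX x hx
  refine ⟨g1, g2, ?_, g4, g5⟩
  rw [div_le_iff₀ (by positivity)] at g3
  linarith

end BM

open BM in
/-- B. -/
theorem specB (hF : Odd.SpecFLK) (hGL : SpecGL) (hR : Pool.Agent.Lib.MP391708.QPA.SpecRSUM)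
    (hW : Pool.Agent.Lib.MP391708.QPA.SpecWMER) : SpecB := by
  intro H b hA
  obtain ⟨C₁, hC₁, hper⟩ := per_c hF H
  obtain ⟨K₀, hK₀, hprod⟩ := prod_le hW
  obtain ⟨C₄, hC₄, hRS⟩ := hR
  obtain ⟨c₅, hc₅, hG⟩ := hGL H
  set K₁ : ℝ := C₁ * K₀ * 400 with hK₁
  have hK₁0 : 0 < K₁ := by positivity
  refine ⟨max 1 ((K₁ + 1) * C₄), le_max_left _ _, fun a ha ha8 => ?_⟩
  refine ⟨min (1 / 400) (a / 2), lt_min (by norm_num) (by linarith), fun η hη hη0 => ?_⟩
  have hη1 : η ≤ 1 / 400 := hη0.trans (min_le_left _ _)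
  have hη2 : η ≤ a / 2 := hη0.trans (min_le_right _ _)
  have hA' := hA
  obtain ⟨_, hk3, _, _⟩ := hA'
  have hk3' : (3 : ℝ) ≤ H.card := by exact_mod_cast hk3
  have hM1 : 1 ≤ Mk H := Mk_pos H
  have hM1' : (1 : ℝ) ≤ Mk H := by exact_mod_cast hM1
  have hM0' : (0 : ℝ) < Mk H := by linarith
  obtain ⟨X₀, hX₀⟩ := ev_cond a η (4 * Mk H * C₁ / (η * c₅)) (2 * H.card + 1) (Mk H + 1)
    (H.card + 1) ha hη
  refine ⟨X₀, fun x hx u hu q hq hq1 hq2 => ?_⟩
  obtain ⟨x10, xη, xlog, xerr, xM⟩ := hX₀ x hx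
  have hx1 : (1 : ℝ) ≤ x := le_trans (by norm_num) x10
  have hx0 : (0 : ℝ) < x := by linarith
  have hxe : Real.exp 1 ≤ x := le_trans Real.exp_one_lt_three.le (le_trans (by norm_num) x10)
  have hL1 : 1 ≤ Real.log x := by
    rw [Real.le_log_iff_exp_le hx0]
    exact hxe
  set L : ℝ := Real.log x with hL
  set z : ℝ := (x : ℝ) ^ η with hz
  set z₁ : ℝ := (x : ℝ) ^ (1 / 400 : ℝ) with hz₁
  have hzz : z ≤ z₁ := Real.rpow_le_rpow_of_exponent_le hx1 hη1
  have hz2k : (2 * H.card : ℝ) + 1 ≤ z := xη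
  have hz6 : 6 ≤ z := by linarith
  have hlogz : Real.log z = η * L := Real.log_rpow hx0 η
  have hlogz₁ : Real.log z₁ = 1 / 400 * L := Real.log_rpow hx0 _
  have hq30 : Mk H < q := by
    have : (Mk H : ℝ) < q := by linarith
    exact_mod_cast this
  have hz₁q : z₁ ≤ q := le_trans (Real.rpow_le_rpow_of_exponent_le hx1 (by norm_num)) hq1
  set Cs : Finset ℕ := (Icc ⌈(x : ℝ) ^ (a / 2)⌉₊ ⌊2 * (x : ℝ) ^ a⌋₊).filter (fun c => Rough z c) with hCs
  have hq0 : (0 : ℝ) < q := by exact_mod_cast hq.pos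
  -- facts on the cofactors
  have hcf : ∀ c ∈ Cs, 1 ≤ c ∧ Nat.Coprime c (Mk H * q) ∧ Rough z c ∧ (c : ℝ) ≤ 2 * (x : ℝ) ^ a := by
    intro c hc
    rw [hCs, mem_filter, mem_Icc] at hc
    obtain ⟨⟨hc1, hc2⟩, hc3⟩ := hc
    have h1 : (1 : ℝ) ≤ (x : ℝ) ^ (a / 2) := Real.one_le_rpow hx1 (by linarith)
    have h2 : 1 ≤ c := by
      have : (x : ℝ) ^ (a / 2) ≤ c := Nat.ceil_le.1 hc1
      have : (1 : ℝ) ≤ c := by linarith
      exact_mod_cast this
    have h3 : (c : ℝ) ≤ 2 * (x : ℝ) ^ a := (Nat.le_floor_iff (by positivity)).1 hc2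
    have hnd : ∀ p : ℕ, p.Prime → p ≤ 2 * H.card → ¬ p ∣ c := by
      intro p hp hp5 hd
      have h4 := hc3 p hp hd
      have h5 : (p : ℝ) ≤ 2 * H.card := by exact_mod_cast hp5
      linarith
    have hcq : c < q := by
      have h4 : 2 * (x : ℝ) ^ a < (x : ℝ) ^ (1 / 4 : ℝ) := by
        have h5 : (x : ℝ) ^ a ≤ (x : ℝ) ^ (1 / 8 : ℝ) := Real.rpow_le_rpow_of_exponent_le hx1 ha8
        have h6 : (x : ℝ) ^ (1 / 4 : ℝ) = (x : ℝ) ^ (1 / 8 : ℝ) * (x : ℝ) ^ (1 / 8 : ℝ) := by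
          rw [← Real.rpow_add hx0]
          norm_num
        have h7 : (10 : ℝ) ≤ (x : ℝ) ^ (1 / 8 : ℝ) := by
          have h2 : (10 : ℝ) = ((10 : ℝ) ^ (8 : ℝ)) ^ (1 / 8 : ℝ) := by
            rw [← Real.rpow_mul (by norm_num)]
            norm_num
          rw [h2]
          apply Real.rpow_le_rpow (by positivity) _ (by norm_num)
          refine le_trans ?_ x10
          norm_num
        nlinarith
      have : (c : ℝ) < q := by linarith
      exact_mod_cast this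
    have h30 : Nat.Coprime c (Mk H) := by
      refine Nat.Coprime.symm (Nat.Coprime.prod_left fun p hp => ?_)
      rw [mem_filter, mem_range] at hp
      rw [hp.2.coprime_iff_not_dvd]
      exact hnd p hp.2 (by omega)
    refine ⟨h2, Nat.Coprime.mul_right h30 ?_, hc3, h3⟩
    apply Nat.Coprime.symm
    rw [hq.coprime_iff_not_dvd]
    intro hd
    exact absurd (Nat.le_of_dvd (by omega) hd) (by omega)
  -- covering
  have hcov : (PP H b a η x).filter (fun m => q ∣ m + u) ⊆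
      Cs.biUnion (fun c => ((SS (Mk H) b c q u x).filter (fun P => Rough z₁ (vv H c z P))).image (fun P => c * P)) := by
    intro m hm
    unfold PP MM BP at hm
    rw [mem_filter, mem_filter, mem_filter, mem_Ioc] at hm
    obtain ⟨⟨⟨⟨hm1, hm2⟩, hmb, P, hP, hPm⟩, hmr⟩, hqm⟩ := hm
    rw [mem_filter, mem_Icc] at hP
    obtain ⟨_, hPp, hP1, hP2⟩ := hP
    obtain ⟨c, rfl⟩ := hPm
    have hP0 : (0 : ℝ) < P := by exact_mod_cast hPp.pos
    have hm1' : (x : ℝ) < P * c := by exact_mod_cast hm1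
    have hm2' : (P : ℝ) * c ≤ 2 * x := by exact_mod_cast hm2
    have hc0 : (0 : ℝ) < c := by
      by_contra h
      push Not at h
      nlinarith
    have hc0' : 0 < c := by exact_mod_cast hc0
    have hrc : ∀ p : ℕ, p.Prime → p ∣ c → z ≤ (p : ℝ) := by
      intro p hp hd
      apply hmr p hp
      rw [piH_split H hA.1]
      exact (hd.mul_left P).mul_right _
    have hca : (x : ℝ) ^ (a / 2) ≤ c := by
      by_contra h
      push Not at h
      have h1 : (P : ℝ) * c < (x : ℝ) ^ (1 - a / 2) * (x : ℝ) ^ (a / 2) := by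
        calc (P : ℝ) * c < P * (x : ℝ) ^ (a / 2) := by
              exact mul_lt_mul_of_pos_left h hP0
          _ ≤ (x : ℝ) ^ (1 - a / 2) * (x : ℝ) ^ (a / 2) := mul_le_mul_of_nonneg_right hP2 (by positivity)
      rw [← Real.rpow_add hx0] at h1
      norm_num at h1
      linarith
    have hcb : (c : ℝ) ≤ 2 * (x : ℝ) ^ a := by
      by_contra h
      push Not at h
      have h1 : (x : ℝ) ^ (1 - a) * (2 * (x : ℝ) ^ a) < P * c := by
        calc (x : ℝ) ^ (1 - a) * (2 * (x : ℝ) ^ a) ≤ P * (2 * (x : ℝ) ^ a) :=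
              mul_le_mul_of_nonneg_right hP1.le (by positivity)
          _ < P * c := mul_lt_mul_of_pos_left h hP0
      have h2 : (x : ℝ) ^ (1 - a) * (2 * (x : ℝ) ^ a) = 2 * x := by
        have : (x : ℝ) ^ (1 - a) * (x : ℝ) ^ a = x := by
          rw [← Real.rpow_add hx0]
          norm_num
        calc (x : ℝ) ^ (1 - a) * (2 * (x : ℝ) ^ a) = 2 * ((x : ℝ) ^ (1 - a) * (x : ℝ) ^ a) := by ring
          _ = 2 * x := by rw [this]
      linarith
    rw [mem_biUnion]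
    refine ⟨c, ?_, ?_⟩
    · rw [hCs, mem_filter, mem_Icc]
      exact ⟨⟨Nat.ceil_le.2 hca, Nat.le_floor hcb⟩, hrc⟩
    · rw [mem_image]
      refine ⟨P, ?_, mul_comm _ _⟩
      rw [mem_filter]
      constructor
      · unfold SS
        rw [mem_filter, mem_Ioc]
        refine ⟨⟨?_, ?_⟩, ?_, ?_⟩
        · rw [Nat.div_lt_iff_lt_mul hc0']
          exact hm1
        · rw [Nat.le_div_iff_mul_le hc0']
          exact hm2
        · rw [mul_comm]; exact hmb
        · rw [mul_comm]; exact hqm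
      · intro p hp hd
        rcases (dvd_vv H c z hp P).1 hd with h | h
        · have : p = P := (Nat.prime_dvd_prime_iff_eq hp hPp).1 h
          subst this
          refine le_trans (Real.rpow_le_rpow_of_exponent_le hx1 ?_) hP1.le
          linarith
        · exfalso
          have h2 : z ≤ (p : ℝ) := by
            apply hmr p hp
            rw [piH_split H hA.1, mul_comm P c]
            exact h.2.mul_left _
          linarith [h.1]
  have hGG0 := gg_prod_nonneg H z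
  -- the bound for one cofactor
  have hone : ∀ c ∈ Cs, (((SS (Mk H) b c q u x).filter (fun P => Rough z₁ (vv H c z P))).card : ℝ)
      ≤ (K₁ + 1) * η * GG H z * ((x : ℝ) / (Mk H * q)) * (1 / c) := by
    intro c hc
    obtain ⟨hc1, hcc, hcz, hcx⟩ := hcf c hc
    have hc0 : (0 : ℝ) < c := by exact_mod_cast hc1
    have h1 := hper b c q u x z z₁ hA hq hq30 (by linarith) (by linarith) hz₁q hc1 hcc hcz
    have h2 : (((SS (Mk H) b c q u x).filter (fun P => Rough z₁ (vv H c z P))).card : ℝ)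
        = ∑ P ∈ SS (Mk H) b c q u x, rInd z₁ (vv H c z P) := by
      unfold rInd
      rw [sum_ite, sum_const_zero, add_zero, sum_const, nsmul_eq_mul, mul_one]
    rw [h2]
    refine h1.trans ?_
    have h3 := hprod H z z₁ (by linarith) hzz
    rw [hlogz, hlogz₁] at h3
    have h4 : η * L / (1 / 400 * L) = 400 * η := by field_simp
    rw [h4] at h3
    set X : ℝ := (x : ℝ) / (Mk H * c * q) with hX
    have hX0 : 0 < X := by positivity
    have h5 : C₁ * X * ∏ p ∈ PB z₁, (1 - g1 H z p) ≤ K₁ * η * GG H z * X := by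
      calc C₁ * X * ∏ p ∈ PB z₁, (1 - g1 H z p) ≤ C₁ * X * (K₀ * GG H z * (400 * η)) :=
            mul_le_mul_of_nonneg_left h3 (by positivity)
        _ = K₁ * η * GG H z * X := by rw [hK₁]; ring
    -- the error term
    have h6 : C₁ * (1 + Real.log z₁) * (z₁ ^ 24) ^ 2 ≤ η * GG H z * X := by
      have e1 : (z₁ ^ 24) ^ 2 = (x : ℝ) ^ (12 / 100 : ℝ) := by
        rw [← pow_mul, hz₁, ← Real.rpow_natCast, ← Real.rpow_mul hx0.le]
        norm_num
      have e2 : 1 + Real.log z₁ ≤ 2 * L := by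
        rw [hlogz₁]; linarith
      have e3 : c₅ / L ^ H.card ≤ GG H z := by
        refine le_trans ?_ (hG z (by linarith))
        rw [hlogz]
        apply div_le_div_of_nonneg_left hc₅.le (by positivity)
        apply pow_le_pow_left₀ (by positivity)
        nlinarith
      have e4 : (x : ℝ) ^ (1 / 4 : ℝ) / (2 * Mk H) ≤ X := by
        rw [hX, div_le_div_iff₀ (by positivity) (by positivity)]
        have f1 : (c : ℝ) * q ≤ 2 * (x : ℝ) ^ (1 / 8 : ℝ) * (x : ℝ) ^ (5 / 8 : ℝ) := by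
          refine mul_le_mul ?_ hq2 (by positivity) (by positivity)
          refine hcx.trans ?_
          have := Real.rpow_le_rpow_of_exponent_le hx1 ha8
          linarith
        have f2 : (x : ℝ) ^ (1 / 4 : ℝ) * ((x : ℝ) ^ (1 / 8 : ℝ) * (x : ℝ) ^ (5 / 8 : ℝ)) = x := by
          rw [← Real.rpow_add hx0, ← Real.rpow_add hx0]
          norm_num
        have f3 : 0 ≤ (x : ℝ) ^ (1 / 4 : ℝ) := by positivity
        calc (x : ℝ) ^ (1 / 4 : ℝ) * (Mk H * c * q) = Mk H * (x : ℝ) ^ (1 / 4 : ℝ) * (c * q) := by ring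
          _ ≤ Mk H * (x : ℝ) ^ (1 / 4 : ℝ) * (2 * (x : ℝ) ^ (1 / 8 : ℝ) * (x : ℝ) ^ (5 / 8 : ℝ)) :=
            mul_le_mul_of_nonneg_left f1 (by positivity)
          _ = (2 * Mk H) * ((x : ℝ) ^ (1 / 4 : ℝ) * ((x : ℝ) ^ (1 / 8 : ℝ) * (x : ℝ) ^ (5 / 8 : ℝ))) := by ring
          _ = (x : ℝ) * (2 * Mk H) := by rw [f2]; ring
      have e5 : (x : ℝ) ^ (1 / 4 : ℝ) = (x : ℝ) ^ (12 / 100 : ℝ) * (x : ℝ) ^ (13 / 100 : ℝ) := by
        rw [← Real.rpow_add hx0]
        norm_num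
      have hx12 : 0 < (x : ℝ) ^ (12 / 100 : ℝ) := by positivity
      rw [e1]
      calc C₁ * (1 + Real.log z₁) * (x : ℝ) ^ (12 / 100 : ℝ)
          ≤ C₁ * (2 * L) * (x : ℝ) ^ (12 / 100 : ℝ) := by
            apply mul_le_mul_of_nonneg_right _ hx12.le
            exact mul_le_mul_of_nonneg_left e2 hC₁.le
        _ = η * (c₅ / L ^ H.card) * ((x : ℝ) ^ (12 / 100 : ℝ) * (4 * Mk H * C₁ / (η * c₅) * L ^ (H.card + 1)) / (2 * Mk H)) := by
            field_simp
            ring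
        _ ≤ η * (c₅ / L ^ H.card) * ((x : ℝ) ^ (12 / 100 : ℝ) * (x : ℝ) ^ (13 / 100 : ℝ) / (2 * Mk H)) := by
            apply mul_le_mul_of_nonneg_left _ (by positivity)
            apply div_le_div_of_nonneg_right _ (by positivity)
            exact mul_le_mul_of_nonneg_left xerr hx12.le
        _ = η * (c₅ / L ^ H.card) * ((x : ℝ) ^ (1 / 4 : ℝ) / (2 * Mk H)) := by rw [e5]
        _ ≤ η * GG H z * X := by
            apply mul_le_mul _ e4 (by positivity) (by positivity)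
            exact mul_le_mul_of_nonneg_left e3 hη.le
    have h7 : (x : ℝ) / (Mk H * q) * (1 / c) = X := by
      rw [hX]
      field_simp
    calc C₁ * X * ∏ p ∈ PB z₁, (1 - g1 H z p) + C₁ * (1 + Real.log z₁) * (z₁ ^ 24) ^ 2
        ≤ K₁ * η * GG H z * X + η * GG H z * X := add_le_add h5 h6
      _ = (K₁ + 1) * η * GG H z * ((x : ℝ) / (Mk H * q) * (1 / c)) := by rw [h7]; ring
      _ = (K₁ + 1) * η * GG H z * ((x : ℝ) / (Mk H * q)) * (1 / c) := by ring
  -- the sum over the cofactors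
  have hsum : ∑ c ∈ Cs, 1 / (c : ℝ) ≤ C₄ * a / η := by
    have h1 := hRS z ((x : ℝ) ^ (a / 2)) (2 * (x : ℝ) ^ a) (by linarith)
      (Real.rpow_le_rpow_of_exponent_le hx1 hη2) (by
        have : (x : ℝ) ^ (a / 2) ≤ (x : ℝ) ^ a := Real.rpow_le_rpow_of_exponent_le hx1 (by linarith)
        have h0 : 0 ≤ (x : ℝ) ^ a := by positivity
        linarith)
    have h2 : ∑ c ∈ Cs, 1 / (c : ℝ) = ∑ k ∈ Icc ⌈(x : ℝ) ^ (a / 2)⌉₊ ⌊2 * (x : ℝ) ^ a⌋₊, rInd z k / (k : ℝ) := by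
      rw [hCs, sum_filter]
      apply sum_congr rfl
      intro k _
      unfold rInd
      split_ifs <;> simp
    rw [h2]
    refine h1.trans ?_
    have h3 : Real.log (2 * (x : ℝ) ^ a / (x : ℝ) ^ (a / 2)) = Real.log 2 + a / 2 * L := by
      have h4 : 2 * (x : ℝ) ^ a / (x : ℝ) ^ (a / 2) = 2 * (x : ℝ) ^ (a / 2) := by
        rw [div_eq_iff (by positivity), mul_assoc, ← Real.rpow_add hx0]
        congr 2
        ring
      rw [h4, Real.log_mul (by norm_num) (by positivity), Real.log_rpow hx0]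
    rw [h3, hlogz]
    have h5 : Real.log 2 + a / 2 * L + 1 ≤ a * L := by linarith
    have hL0 : 0 < L := by linarith
    calc C₄ * (Real.log 2 + a / 2 * L + 1) / (η * L) ≤ C₄ * (a * L) / (η * L) := by
          apply div_le_div_of_nonneg_right _ (by positivity)
          exact mul_le_mul_of_nonneg_left h5 hC₄.le
      _ = C₄ * a / η := by field_simp
  -- conclusion
  have hfin : (((PP H b a η x).filter (fun m => q ∣ m + u)).card : ℝ)
      ≤ ∑ c ∈ Cs, (K₁ + 1) * η * GG H z * ((x : ℝ) / (Mk H * q)) * (1 / c) := by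
    have h1 := card_le_card hcov
    have h2 : (Cs.biUnion (fun c => ((SS (Mk H) b c q u x).filter (fun P => Rough z₁ (vv H c z P))).image
        (fun P => c * P))).card ≤ ∑ c ∈ Cs, ((SS (Mk H) b c q u x).filter (fun P => Rough z₁ (vv H c z P))).card :=
      card_biUnion_le.trans (sum_le_sum fun c _ => card_image_le)
    have h3 := h1.trans h2
    have h4 : (((PP H b a η x).filter (fun m => q ∣ m + u)).card : ℝ)
        ≤ ∑ c ∈ Cs, (((SS (Mk H) b c q u x).filter (fun P => Rough z₁ (vv H c z P))).card : ℝ) := by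
      exact_mod_cast h3
    exact h4.trans (sum_le_sum hone)
  rw [← mul_sum] at hfin
  refine hfin.trans ?_
  have h1 : (K₁ + 1) * η * GG H z * ((x : ℝ) / (Mk H * q)) * ∑ c ∈ Cs, 1 / (c : ℝ)
      ≤ (K₁ + 1) * η * GG H z * ((x : ℝ) / (Mk H * q)) * (C₄ * a / η) :=
    mul_le_mul_of_nonneg_left hsum (by positivity)
  refine h1.trans ?_
  unfold N0
  have h2 : (K₁ + 1) * η * GG H z * ((x : ℝ) / (Mk H * q)) * (C₄ * a / η)
      = ((K₁ + 1) * C₄) * a * ((x : ℝ) / Mk H * GG H z) / q := by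
    field_simp
  rw [h2]
  apply div_le_div_of_nonneg_right _ hq0.le
  apply mul_le_mul_of_nonneg_right _ (by positivity)
  exact mul_le_mul_of_nonneg_right (le_max_right _ _) ha.le

end

end Pool.Agent.Lib.MP3efbeb.TK
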