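import Pool.Agent.Lib.MP_3efbeb_nt.TK.Spec
import Pool.Agent.Lib.MP_3efbeb_nt.T.GL

/-!
# Module GL: lower bound for the product
-/

set_option autoImplicit false

namespace Pool.Agent.Lib.MP3efbeb.TK

open Finset
open scoped Classical
open Pool.Agent.Lib.MP391708.QPA (PB rInd Rough)

namespace GLM

open Pool.Agent.Lib.MP3efbeb.T.GLM (mrb exp_le sum_sq_le)

/-- at most one class modulo `p` with `p ∣ r + c` -/
theorem card_shift_le {p : ℕ} (c : ℕ) : ((range p).filter (fun r => p ∣ r + c)).card ≤ 1 := by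
  rw [card_le_one]
  intro a ha b hb
  rw [mem_filter, mem_range] at ha hb
  have h3 : a + c ≡ b + c [MOD p] :=
    (Nat.modEq_zero_iff_dvd.2 ha.2).trans (Nat.modEq_zero_iff_dvd.2 hb.2).symm
  have h4 : a % p = b % p := Nat.ModEq.add_right_cancel' _ h3
  rwa [Nat.mod_eq_of_lt ha.1, Nat.mod_eq_of_lt hb.1] at h4

/-- `nu ≤ k` -/
theorem nu_le (H : Finset ℕ) {p : ℕ} (hp : p.Prime) : nu H p ≤ H.card := by
  unfold nu
  have h1 : (range p).filter (fun r => p ∣ PiH H r) ⊆
      H.biUnion fun h => (range p).filter fun r => p ∣ r + h := by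
    intro r hr
    rw [mem_filter] at hr
    unfold PiH at hr
    obtain ⟨h, hh, hd⟩ := (Prime.dvd_finsetProd_iff hp.prime _).1 hr.2
    exact mem_biUnion.2 ⟨h, hh, mem_filter.2 ⟨hr.1, hd⟩⟩
  refine (card_le_card h1).trans (card_biUnion_le.trans ?_)
  refine (sum_le_card_nsmul _ _ 1 fun h _ => card_shift_le h).trans ?_
  simp

theorem gg_nonneg (H : Finset ℕ) (p : ℕ) : 0 ≤ gg H p := by
  unfold gg
  split_ifs <;> positivity

theorem gg_le (H : Finset ℕ) {p : ℕ} (hp : p.Prime) : gg H p ≤ (H.card : ℝ) / p := by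
  unfold gg
  split_ifs
  · positivity
  · have h1 : (nu H p : ℝ) ≤ H.card := by exact_mod_cast nu_le H hp
    exact div_le_div_of_nonneg_right h1 (by positivity)

theorem div_le_half {k p : ℕ} (h : ¬ p ≤ 2 * k) : (k : ℝ) / p ≤ 1 / 2 := by
  have h1 : 0 < p := by omega
  rw [div_le_div_iff₀ (by exact_mod_cast h1) (by norm_num)]
  exact_mod_cast (by omega : k * 2 ≤ 1 * p)

/-- the sharp bound -/
theorem gg_le_k (H : Finset ℕ) {p : ℕ} (hp : p.Prime) :
    gg H p ≤ (H.card : ℝ) / (2 * H.card + 1) := by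
  by_cases h : p ≤ 2 * H.card
  · unfold gg
    rw [if_pos h]
    positivity
  · refine (gg_le H hp).trans (div_le_div_of_nonneg_left (by positivity) (by positivity) ?_)
    exact_mod_cast (by omega : 2 * H.card + 1 ≤ p)

theorem gg_le_half (H : Finset ℕ) {p : ℕ} (hp : p.Prime) : gg H p ≤ 1 / 2 := by
  by_cases h : p ≤ 2 * H.card
  · unfold gg
    rw [if_pos h]
    norm_num
  · exact (gg_le H hp).trans (div_le_half h)

theorem gg_lt_half (H : Finset ℕ) {p : ℕ} (hp : p.Prime) : gg H p < 1 / 2 := by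
  refine (gg_le_k H hp).trans_lt ?_
  rw [div_lt_div_iff₀ (by positivity) (by norm_num)]
  linarith

theorem gg_two (H : Finset ℕ) : gg H 2 = 0 := by
  unfold gg
  split_ifs with h
  · rfl
  · have h1 := nu_le H Nat.prime_two
    have h2 : nu H 2 = 0 := by omega
    rw [h2]
    simp

/-- `1 - g(p) ≥ exp(-k/p - k²/p²)` -/
theorem one_sub_ge (H : Finset ℕ) {p : ℕ} (hp : p.Prime) :
    Real.exp (-((H.card : ℝ) / (p : ℝ) + (H.card : ℝ) ^ 2 / (p : ℝ) ^ 2)) ≤ 1 - gg H p := by
  by_cases h : p ≤ 2 * H.card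
  · unfold gg
    rw [if_pos h, sub_zero]
    exact Real.exp_le_one_iff.2 (neg_nonpos.2 (by positivity))
  · have h5 := exp_le (x := (H.card : ℝ) / (p : ℝ)) (by positivity) (div_le_half h)
    rw [div_pow] at h5
    refine h5.trans ?_
    have := gg_le H hp
    linarith

theorem GG_nonneg (H : Finset ℕ) (z : ℝ) : 0 ≤ GG H z := by
  unfold GG
  refine prod_nonneg fun p hp => ?_
  unfold PB at hp
  have := gg_le_half H (mem_filter.1 hp).2
  linarith

end GLM

open GLM Pool.Agent.Lib.MP3efbeb.T.GLM in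
/-- GL. -/
theorem specGL : SpecGL := by
  intro H
  obtain ⟨C, hC, hM⟩ := mrb
  set k := H.card with hk
  have hl2 : 0 < Real.log 2 := Real.log_pos (by norm_num)
  set c : ℝ := Real.log 2 ^ k * Real.exp (-(k * C / Real.log 2 + k ^ 2)) with hc
  have hc1 : c ≤ Real.log 2 ^ k := by
    rw [hc]
    refine mul_le_of_le_one_right (by positivity) (Real.exp_le_one_iff.2 (neg_nonpos.2 ?_))
    positivity
  refine ⟨c, by positivity, fun z hz => ?_⟩
  have hlz : Real.log 2 ≤ Real.log z := Real.log_le_log (by norm_num) hz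
  have hz0 : 0 < Real.log z := hl2.trans_le hlz
  obtain ⟨N, hN⟩ : ∃ N : ℕ, ⌈z⌉₊ = N + 1 :=
    ⟨⌈z⌉₊ - 1, by have := Nat.ceil_pos.2 (by linarith : 0 < z); omega⟩
  have hNz : (N : ℝ) < z := by
    have : N < ⌈z⌉₊ := by omega
    exact Nat.lt_ceil.1 this
  have hPB : PB z ⊆ insert 2 ((Ioc 2 N).filter Nat.Prime) := by
    intro p hp
    unfold PB at hp
    rw [mem_filter, mem_range, hN] at hp
    rw [mem_insert, mem_filter, mem_Ioc]
    have := hp.2.two_le
    by_cases h : p = 2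
    · exact Or.inl h
    · exact Or.inr ⟨⟨by omega, by omega⟩, hp.2⟩
  have h01 : ∀ p ∈ insert 2 ((Ioc 2 N).filter Nat.Prime), 0 ≤ 1 - gg H p ∧ 1 - gg H p ≤ 1 := by
    intro p hp
    have hpp : p.Prime := by
      rw [mem_insert, mem_filter] at hp
      rcases hp with rfl | h
      · exact Nat.prime_two
      · exact h.2
    have h1 := gg_le_half H hpp
    have h2 := gg_nonneg H p
    constructor <;> linarith
  have hG : ∏ p ∈ insert 2 ((Ioc 2 N).filter Nat.Prime), (1 - gg H p) ≤ GG H z := by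
    unfold GG
    exact Finset.prod_le_prod_of_subset_of_le_one hPB
      (fun p hp => (h01 p hp).1) (fun p hp _ => (h01 p hp).2)
  refine le_trans ?_ hG
  rw [prod_insert (by simp)]
  have h2 : (1 : ℝ) - gg H 2 = 1 := by rw [gg_two, sub_zero]
  rw [h2, one_mul]
  have h3 : Real.exp (-((k : ℝ) * (∑ p ∈ (Ioc 2 N).filter Nat.Prime, 1 / (p : ℝ)) +
      (k : ℝ) ^ 2 * ∑ p ∈ (Ioc 2 N).filter Nat.Prime, 1 / (p : ℝ) ^ 2)) ≤
      ∏ p ∈ (Ioc 2 N).filter Nat.Prime, (1 - gg H p) := by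
    rw [mul_sum, mul_sum, ← sum_add_distrib, ← sum_neg_distrib, Real.exp_sum]
    refine prod_le_prod (fun _ _ => (Real.exp_pos _).le) fun p hp => ?_
    rw [mem_filter, mem_Ioc] at hp
    have h4 := one_sub_ge H hp.2
    rw [show (k : ℝ) * (1 / (p : ℝ)) + (k : ℝ) ^ 2 * (1 / (p : ℝ) ^ 2) =
      (k : ℝ) / (p : ℝ) + (k : ℝ) ^ 2 / (p : ℝ) ^ 2 by ring]
    exact h4
  refine le_trans ?_ h3
  have h5 := sum_sq_le N
  by_cases hN2 : 2 ≤ N
  · have h6 := hM 2 N le_rfl hN2
    have hN' : (2 : ℝ) ≤ N := by exact_mod_cast hN2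
    have hlN : Real.log 2 ≤ Real.log N := Real.log_le_log (by norm_num) hN'
    have hlN0 : 0 < Real.log N := hl2.trans_le hlN
    have hlNz : Real.log N ≤ Real.log z := Real.log_le_log (by linarith) hNz.le
    push_cast at h6
    have h7 : Real.exp (-((k : ℝ) * (Real.log (Real.log N / Real.log 2) + C / Real.log 2) + k ^ 2)) ≤
        Real.exp (-((k : ℝ) * (∑ p ∈ (Ioc 2 N).filter Nat.Prime, 1 / (p : ℝ)) +
          (k : ℝ) ^ 2 * ∑ p ∈ (Ioc 2 N).filter Nat.Prime, 1 / (p : ℝ) ^ 2)) := by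
      rw [Real.exp_le_exp, neg_le_neg_iff]
      have h8 : ∑ p ∈ (Ioc 2 N).filter Nat.Prime, 1 / (p : ℝ) ≤
          Real.log (Real.log N / Real.log 2) + C / Real.log 2 := by linarith
      have h9 : (k : ℝ) ^ 2 * ∑ p ∈ (Ioc 2 N).filter Nat.Prime, 1 / (p : ℝ) ^ 2 ≤
          (k : ℝ) ^ 2 * 1 := by gcongr
      have h10 : (k : ℝ) * (∑ p ∈ (Ioc 2 N).filter Nat.Prime, 1 / (p : ℝ)) ≤
          (k : ℝ) * (Real.log (Real.log N / Real.log 2) + C / Real.log 2) := by gcongr
      linarith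
    refine le_trans ?_ h7
    have h8 : Real.exp (-((k : ℝ) * (Real.log (Real.log N / Real.log 2) + C / Real.log 2) + k ^ 2)) =
        (Real.log 2 / Real.log N) ^ k * Real.exp (-(k * C / Real.log 2 + k ^ 2)) := by
      rw [show -((k : ℝ) * (Real.log (Real.log N / Real.log 2) + C / Real.log 2) + k ^ 2) =
        k * (-Real.log (Real.log N / Real.log 2)) + -(k * C / Real.log 2 + k ^ 2) by ring,
        Real.exp_add]
      congr 1
      rw [Real.exp_nat_mul, Real.exp_neg, Real.exp_log (by positivity), inv_div]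
    rw [h8, hc, div_pow]
    rw [show Real.log 2 ^ k * Real.exp (-(k * C / Real.log 2 + k ^ 2)) / Real.log z ^ k =
      Real.log 2 ^ k / Real.log z ^ k * Real.exp (-(k * C / Real.log 2 + k ^ 2)) by ring]
    refine mul_le_mul_of_nonneg_right ?_ (Real.exp_pos _).le
    exact div_le_div_of_nonneg_left (by positivity) (by positivity)
      (pow_le_pow_left₀ hlN0.le hlNz k)
  · rw [Ioc_eq_empty (by omega)]
    simp only [filter_empty, sum_empty, mul_zero, add_zero, neg_zero, Real.exp_zero]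
    rw [div_le_one (by positivity)]
    exact hc1.trans (pow_le_pow_left₀ hl2.le hlz k)

end Pool.Agent.Lib.MP3efbeb.TK
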