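import Pool.Agent.Lib.MP_3efbeb_nt.TK.GL
import Pool.Agent.Lib.MP_3efbeb_nt.T.UG

/-!
# Module UG: upper bound sieve in a class
-/

set_option autoImplicit false

namespace Pool.Agent.Lib.MP3efbeb.TK

open Finset
open scoped Classical
open Pool.Agent.Lib.MP391708.QPA (PB rInd Rough Wp)

namespace UGM

open GLM

/-! ### The product -/

theorem nu_ge {H : Finset ℕ} {p : ℕ} (hp : H.sup id < p) : H.card ≤ nu H p := by
  have hlt : ∀ h ∈ H, h < p := fun h hh => (le_sup (f := id) hh).trans_lt hp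
  unfold nu
  refine card_le_card_of_injOn (fun h => (p - h) % p) (fun h hh => ?_) fun a ha b hb hab => ?_
  · simp only [coe_filter, mem_range, Set.mem_ofPred_eq, mem_coe] at hh ⊢
    have h1 := hlt h hh
    refine ⟨Nat.mod_lt _ (by omega), ?_⟩
    unfold PiH
    refine Dvd.dvd.trans ?_ (dvd_prod_of_mem _ hh)
    refine Nat.dvd_of_mod_eq_zero ?_
    rw [Nat.mod_add_mod, Nat.sub_add_cancel h1.le, Nat.mod_self]
  · rw [mem_coe] at ha hb
    have h1 := hlt a ha
    have h2 := hlt b hb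
    simp only at hab
    have h3 : p - a + (a + b) ≡ p - b + (a + b) [MOD p] := Nat.ModEq.add_right _ hab
    rw [show p - a + (a + b) = p + b by omega, show p - b + (a + b) = p + a by omega] at h3
    have h4 : b ≡ a [MOD p] := Nat.ModEq.add_left_cancel' p h3
    have h5 : b % p = a % p := h4
    rw [Nat.mod_eq_of_lt h1, Nat.mod_eq_of_lt h2] at h5
    exact h5.symm

/-- the bound for the exceptional primes -/
def P1 (H : Finset ℕ) : ℕ := max (2 * H.card) (H.sup id)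

theorem one_sub_le (H : Finset ℕ) {p : ℕ} (hp : p.Prime) :
    1 - gg H p ≤ (if p ≤ P1 H then 2 ^ H.card else 1) * (1 - 1 / (p : ℝ)) ^ H.card := by
  have hp2 : (2 : ℝ) ≤ p := by exact_mod_cast hp.two_le
  have h1 : 1 / (p : ℝ) ≤ 1 / 2 := one_div_le_one_div_of_le (by norm_num) hp2
  split_ifs with h
  · have h2 := gg_nonneg H p
    have h3 : (1 / 2 : ℝ) ^ H.card ≤ (1 - 1 / (p : ℝ)) ^ H.card :=
      pow_le_pow_left₀ (by norm_num) (by linarith) _
    have h4 : (1 : ℝ) = 2 ^ H.card * (1 / 2) ^ H.card := by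
      rw [← mul_pow]
      norm_num
    have h5 : (2 : ℝ) ^ H.card * (1 / 2) ^ H.card ≤ 2 ^ H.card * (1 - 1 / (p : ℝ)) ^ H.card := by
      gcongr
    linarith
  · have h5 : ¬ p ≤ 2 * H.card := fun h' => h (h'.trans (le_max_left _ _))
    have ht : H.sup id < p := by
      by_contra h'
      exact h ((not_lt.1 h').trans (le_max_right _ _))
    have h6 : (H.card : ℝ) ≤ nu H p := by exact_mod_cast nu_ge ht
    unfold gg
    rw [if_neg h5, one_mul]
    have h7 : (H.card : ℝ) / p ≤ (nu H p : ℝ) / p := div_le_div_of_nonneg_right h6 (by positivity)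
    have h8 : 1 + (H.card : ℝ) * (-(1 / (p : ℝ))) ≤ (1 + -(1 / (p : ℝ))) ^ H.card :=
      one_add_mul_le_pow (by linarith) _
    have h9 : (H.card : ℝ) / p = H.card * (1 / (p : ℝ)) := by ring
    rw [← sub_eq_add_neg] at h8
    linarith

/-- the upper bound for the product -/
theorem GG_le (H : Finset ℕ) : ∃ C : ℝ, 0 < C ∧ ∀ z : ℝ, 2 ≤ z →
    GG H z ≤ C / Real.log z ^ H.card := by
  obtain ⟨C, hC, hW⟩ := Pool.Agent.Lib.MP391708.QPA.specWMER
  refine ⟨(2 ^ H.card) ^ (P1 H + 1) * C ^ H.card, by positivity, fun z hz => ?_⟩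
  have hl : 0 < Real.log z := Real.log_pos (by linarith)
  have hP : ∀ p ∈ PB z, p.Prime := fun p hp => by
    unfold PB at hp
    exact (mem_filter.1 hp).2
  have h1 : GG H z ≤ ∏ p ∈ PB z,
      ((if p ≤ P1 H then (2 : ℝ) ^ H.card else 1) * (1 - 1 / (p : ℝ)) ^ H.card) := by
    unfold GG
    refine prod_le_prod (fun p hp => ?_) fun p hp => one_sub_le H (hP p hp)
    have := gg_le_half H (hP p hp)
    linarith
  have h2 : ∏ p ∈ PB z, ((if p ≤ P1 H then (2 : ℝ) ^ H.card else 1) *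
      (1 - 1 / (p : ℝ)) ^ H.card) =
      (∏ p ∈ PB z, (if p ≤ P1 H then (2 : ℝ) ^ H.card else 1)) * Wp z ^ H.card := by
    rw [prod_mul_distrib, prod_pow]
    rfl
  have h3 : ∏ p ∈ PB z, (if p ≤ P1 H then (2 : ℝ) ^ H.card else 1) ≤
      (2 ^ H.card) ^ (P1 H + 1) := by
    rw [prod_ite, prod_const, prod_const_one, mul_one]
    refine pow_le_pow_right₀ (one_le_pow₀ (by norm_num)) ?_
    refine (card_le_card (t := range (P1 H + 1)) fun p hp => ?_).trans (card_range _).le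
    rw [mem_range]
    have := (mem_filter.1 hp).2
    omega
  have h4 : 0 ≤ Wp z := by
    unfold Wp
    refine prod_nonneg fun p hp => ?_
    have : 1 / (p : ℝ) ≤ 1 := by
      rw [div_le_one (by exact_mod_cast (hP p hp).pos)]
      exact_mod_cast (hP p hp).one_le
    linarith
  have h5 : Wp z ^ H.card ≤ (C / Real.log z) ^ H.card := pow_le_pow_left₀ h4 (hW z hz) _
  calc GG H z ≤ (∏ p ∈ PB z, (if p ≤ P1 H then (2 : ℝ) ^ H.card else 1)) * Wp z ^ H.card := by
        rw [← h2]; exact h1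
    _ ≤ (2 ^ H.card) ^ (P1 H + 1) * (C / Real.log z) ^ H.card := by gcongr
    _ = (2 ^ H.card) ^ (P1 H + 1) * C ^ H.card / Real.log z ^ H.card := by rw [div_pow]; ring

/-! ### Roots -/

/-- the forms -/
def FF (M m₀ : ℕ) (H : Finset ℕ) : Finset (ℕ × ℕ) := H.image fun h => (M, m₀ + h)

theorem vF_FF {M m₀ : ℕ} {H : Finset ℕ} (j : ℕ) :
    Odd.vF (FF M m₀ H) j = PiH H (M * j + m₀) := by
  unfold Odd.vF FF PiH
  rw [prod_image]
  · exact prod_congr rfl fun h _ => by ring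
  · intro a _ b _ hab
    simpa using hab

theorem PiH_modEq {H : Finset ℕ} {n r r' : ℕ} (h : r ≡ r' [MOD n]) :
    PiH H r ≡ PiH H r' [MOD n] := by
  unfold PiH
  induction H using Finset.induction_on with
  | empty => simp only [prod_empty]; exact Nat.ModEq.refl _
  | insert a s ha ih =>
    rw [prod_insert ha, prod_insert ha]
    exact (h.add_right a).mul ih

theorem PiH_dvd {H : Finset ℕ} {n r r' : ℕ} (h : r ≡ r' [MOD n]) : n ∣ PiH H r ↔ n ∣ PiH H r' :=
  (PiH_modEq h).dvd_iff dvd_rfl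

theorem nu_FF {p M m₀ : ℕ} {H : Finset ℕ} (hp : p.Prime) (hM : ¬ p ∣ M) :
    Odd.nu (FF M m₀ H) p = nu H p := by
  have : Fact p.Prime := ⟨hp⟩
  have hM' : (M : ZMod p) ≠ 0 := by
    rw [Ne, ZMod.natCast_eq_zero_iff]
    exact hM
  unfold Odd.nu nu
  refine card_nbij' (fun j => (M * j + m₀) % p)
    (fun r => (((r : ZMod p) - m₀) * (M : ZMod p)⁻¹).val) ?_ ?_ ?_ ?_
  · intro j hj
    simp only [coe_filter, mem_range, Set.mem_ofPred_eq] at hj ⊢
    refine ⟨Nat.mod_lt _ hp.pos, ?_⟩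
    rw [vF_FF] at hj
    exact (PiH_dvd (Nat.mod_modEq _ _)).2 hj.2
  · intro r hr
    simp only [coe_filter, mem_range, Set.mem_ofPred_eq] at hr ⊢
    refine ⟨ZMod.val_lt _, ?_⟩
    rw [vF_FF]
    refine (PiH_dvd (H := H) ?_).2 hr.2
    rw [← ZMod.natCast_eq_natCast_iff]
    push_cast
    rw [ZMod.natCast_val, ZMod.cast_id', id_eq]
    field_simp
    ring
  · intro j hj
    simp only [coe_filter, mem_range, Set.mem_ofPred_eq] at hj ⊢
    have h1 : (((M * j + m₀) % p : ℕ) : ZMod p) = M * j + m₀ := by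
      rw [ZMod.natCast_mod]
      push_cast
      ring
    rw [h1]
    have h2 : ((M : ZMod p) * j + m₀ - m₀) * (M : ZMod p)⁻¹ = j := by
      field_simp
      ring
    rw [h2, ZMod.val_natCast, Nat.mod_eq_of_lt hj.1]
  · intro r hr
    simp only [coe_filter, mem_range, Set.mem_ofPred_eq] at hr ⊢
    have h1 : M * (((r : ZMod p) - m₀) * (M : ZMod p)⁻¹).val + m₀ ≡ r [MOD p] := by
      rw [← ZMod.natCast_eq_natCast_iff]
      push_cast
      rw [ZMod.natCast_val, ZMod.cast_id', id_eq]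
      field_simp
      ring
    have h2 : (M * (((r : ZMod p) - m₀) * (M : ZMod p)⁻¹).val + m₀) % p = r % p := h1
    rw [h2, Nat.mod_eq_of_lt hr.1]

/-- the number of classes -/
theorem card_classes (H : Finset ℕ) {g : ℕ} (hg : Squarefree g) :
    ((range g).filter (fun r => g ∣ PiH H r)).card ≤ H.card ^ g.primeFactors.card := by
  have h1 : (range g).filter (fun r => g ∣ PiH H r) =
      (range g).filter (fun r => g ∣ Odd.vF (FF 1 0 H) r) := by
    refine filter_congr fun r _ => ?_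
    rw [vF_FF]
    simp
  rw [h1]
  change Odd.nu (FF 1 0 H) g ≤ _
  conv_lhs => rw [← Nat.prod_primeFactors_of_squarefree hg]
  rw [Odd.RTM.nu_prod _ _ fun p hp => Nat.prime_of_mem_primeFactors hp, ← prod_const]
  refine prod_le_prod' fun p hp => ?_
  have hpp := Nat.prime_of_mem_primeFactors hp
  rw [nu_FF hpp (by simpa using hpp.one_lt.ne')]
  exact nu_le H hpp

/-! ### The modulus -/

theorem Mk_pos (H : Finset ℕ) : 0 < Mk H := by
  unfold Mk
  exact prod_pos fun p hp => (mem_filter.1 hp).2.pos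

theorem dvd_Mk {H : Finset ℕ} {p : ℕ} (hp : p.Prime) : p ∣ Mk H ↔ p ≤ 2 * H.card := by
  unfold Mk
  constructor
  · intro h
    obtain ⟨q, hq, hd⟩ := (Prime.dvd_finsetProd_iff hp.prime _).1 h
    rw [mem_filter, mem_range] at hq
    have := (Nat.prime_dvd_prime_iff_eq hp hq.2).1 hd
    omega
  · intro h
    exact dvd_prod_of_mem _ (mem_filter.2 ⟨mem_range.2 (by omega), hp⟩)

/-! ### The sieve in a class -/

/-- the sieve -/
theorem class_sieve {C : ℝ} (hC : 0 < C) {H : Finset ℕ} (hFLK : ∀ (b : ℕ) (z : ℝ), 2 ≤ z →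
    ∀ (S : Finset ℕ) (v : ℕ → ℕ) (om : ℕ → ℝ) (X : ℝ) (g : ℕ → ℝ), 0 ≤ X → (∀ i ∈ S, 0 ≤ om i) →
    (∀ p : ℕ, p.Prime → 0 ≤ g p ∧ g p ≤ (H.card : ℕ) / (p : ℝ) ∧ g p ≤ 1 / 2) →
    |(∑ i ∈ S, om i * rInd z (v i)) - X * ∏ p ∈ PB z, (1 - g p)|
      ≤ C * Real.exp (-(b : ℝ)) * X * (∏ p ∈ PB z, (1 - g p))
        + C * (1 + Real.log z) *
          ∑ δ ∈ (Icc 1 ⌊z ^ (8 * b + 16)⌋₊).filter
            (fun δ => Squarefree δ ∧ ∀ p : ℕ, p.Prime → p ∣ δ → (p : ℝ) < z),
            |(∑ i ∈ S.filter (fun i => δ ∣ v i), om i) - X * ∏ p ∈ δ.primeFactors, g p|)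
    {b : ℕ} (hb : b < Mk H) (hcop : Nat.Coprime (PiH H b) (Mk H)) {z : ℝ} (hz : 2 ≤ z)
    {g m₀ T : ℕ} (hg : Rough z g) (hm : m₀ % Mk H = b) :
    (((Ico T (2 * T)).filter (fun j => Rough z (PiH H (Mk H * g * j + m₀)))).card : ℝ) ≤
      (1 + C) * T * GG H z + C * (1 + Real.log z) * z ^ 48 := by
  have hlz : 0 < Real.log z := Real.log_pos (by linarith)
  have key := hFLK 1 z hz (Ico T (2 * T)) (fun j => PiH H (Mk H * g * j + m₀)) (fun _ => 1) T
    (gg H) (Nat.cast_nonneg _) (fun _ _ => zero_le_one) (fun p hp => ⟨gg_nonneg H p, gg_le H hp,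
      gg_le_half H hp⟩)
  have e1 : ∑ j ∈ Ico T (2 * T), (1 : ℝ) * rInd z (PiH H (Mk H * g * j + m₀)) =
      (((Ico T (2 * T)).filter (fun j => Rough z (PiH H (Mk H * g * j + m₀)))).card : ℝ) := by
    simp only [one_mul, rInd]
    rw [sum_boole]
  have hmod : ∀ j, Mk H * g * j + m₀ ≡ b [MOD Mk H] := by
    intro j
    have h1 : Mk H * g * j + m₀ ≡ 0 + m₀ [MOD Mk H] := by
      refine Nat.ModEq.add_right _ ?_
      rw [Nat.modEq_zero_iff_dvd, mul_assoc]
      exact Dvd.intro _ rfl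
    rw [zero_add] at h1
    refine h1.trans ?_
    change m₀ % Mk H = b % Mk H
    rw [hm, Nat.mod_eq_of_lt hb]
  have hrem : ∀ δ ∈ (Icc 1 ⌊z ^ (8 * 1 + 16)⌋₊).filter
      (fun δ => Squarefree δ ∧ ∀ p : ℕ, p.Prime → p ∣ δ → (p : ℝ) < z),
      |(∑ j ∈ (Ico T (2 * T)).filter (fun j => δ ∣ PiH H (Mk H * g * j + m₀)), (1 : ℝ)) -
        T * ∏ p ∈ δ.primeFactors, gg H p| ≤ z ^ 24 := by
    intro δ hδ
    rw [mem_filter, mem_Icc] at hδ
    obtain ⟨⟨hδ1, hδ2⟩, hsq, hpr⟩ := hδ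
    have hδz : (δ : ℝ) ≤ z ^ 24 := (Nat.le_floor_iff (by positivity)).1 hδ2
    rw [sum_const, nsmul_eq_mul, mul_one]
    by_cases h30 : ∃ p : ℕ, p.Prime ∧ p ∣ δ ∧ p ≤ 2 * H.card
    · obtain ⟨p, hp, hpδ, hp5⟩ := h30
      have hp30 : p ∣ Mk H := (dvd_Mk hp).2 hp5
      have h1 : (Ico T (2 * T)).filter (fun j => δ ∣ PiH H (Mk H * g * j + m₀)) = ∅ := by
        refine filter_eq_empty_iff.2 fun j _ hj => ?_
        have h2 : p ∣ PiH H b :=
          (PiH_dvd (H := H) ((hmod j).of_dvd hp30)).1 (hpδ.trans hj)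
        exact Nat.Prime.not_coprime_iff_dvd.2 ⟨p, hp, h2, hp30⟩ hcop
      have h2 : ∏ p ∈ δ.primeFactors, gg H p = 0 :=
        prod_eq_zero (Nat.mem_primeFactors.2 ⟨hp, hpδ, by omega⟩) (by simp [gg, hp5])
      rw [h1, h2]
      simp only [card_empty, Nat.cast_zero, mul_zero, sub_zero, abs_zero]
      positivity
    · push Not at h30
      have hnM : ∀ p : ℕ, p.Prime → p ∣ δ → ¬ p ∣ Mk H * g := by
        intro p hp hpδ hpM
        rcases hp.dvd_mul.1 hpM with h | h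
        · have h5 := h30 p hp hpδ
          have h6 := (dvd_Mk hp).1 h
          omega
        · have h8 := hg p hp h
          have h9 := hpr p hp hpδ
          linarith
      have h1 := Odd.specRT (FF (Mk H * g) m₀ H) δ T hsq
      have h2 : (Ico T (2 * T)).filter (fun j => δ ∣ Odd.vF (FF (Mk H * g) m₀ H) j) =
          (Ico T (2 * T)).filter (fun j => δ ∣ PiH H (Mk H * g * j + m₀)) :=
        filter_congr fun j _ => by rw [vF_FF]
      have h3 : ∏ p ∈ δ.primeFactors, ((Odd.nu (FF (Mk H * g) m₀ H) p : ℝ) / p) =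
          ∏ p ∈ δ.primeFactors, gg H p := by
        refine prod_congr rfl fun p hp => ?_
        have hpp := Nat.prime_of_mem_primeFactors hp
        have hpδ := Nat.dvd_of_mem_primeFactors hp
        rw [nu_FF hpp (hnM p hpp hpδ)]
        unfold gg
        rw [if_neg (by have := h30 p hpp hpδ; omega)]
      rw [h2, h3] at h1
      exact h1.trans hδz
  have hsum : ∑ δ ∈ (Icc 1 ⌊z ^ (8 * 1 + 16)⌋₊).filter
      (fun δ => Squarefree δ ∧ ∀ p : ℕ, p.Prime → p ∣ δ → (p : ℝ) < z),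
      |(∑ j ∈ (Ico T (2 * T)).filter (fun j => δ ∣ PiH H (Mk H * g * j + m₀)), (1 : ℝ)) -
        T * ∏ p ∈ δ.primeFactors, gg H p| ≤ z ^ 48 := by
    refine (sum_le_card_nsmul _ _ _ hrem).trans ?_
    rw [nsmul_eq_mul]
    have h1 : ((((Icc 1 ⌊z ^ (8 * 1 + 16)⌋₊).filter
      (fun δ => Squarefree δ ∧ ∀ p : ℕ, p.Prime → p ∣ δ → (p : ℝ) < z)).card : ℕ) : ℝ) ≤ z ^ 24 := by
      refine le_trans ?_ (Nat.floor_le (by positivity : (0 : ℝ) ≤ z ^ (8 * 1 + 16)))
      have h2 := card_filter_le (Icc 1 ⌊z ^ (8 * 1 + 16)⌋₊)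
        (fun δ => Squarefree δ ∧ ∀ p : ℕ, p.Prime → p ∣ δ → (p : ℝ) < z)
      rw [Nat.card_Icc, Nat.add_sub_cancel] at h2
      exact_mod_cast h2
    calc _ ≤ z ^ 24 * z ^ 24 := by gcongr
      _ = z ^ 48 := by ring
  have hG : 0 ≤ GG H z := GG_nonneg H z
  have he : Real.exp (-((1 : ℕ) : ℝ)) ≤ 1 := Real.exp_le_one_iff.2 (by norm_num)
  rw [e1] at key
  have h1 := (abs_le.1 key).2
  have h2 : C * Real.exp (-((1 : ℕ) : ℝ)) * T * ∏ p ∈ PB z, (1 - gg H p) ≤ C * T * GG H z := by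
    change C * Real.exp (-((1 : ℕ) : ℝ)) * T * GG H z ≤ _
    have h3 : C * Real.exp (-((1 : ℕ) : ℝ)) ≤ C * 1 := by gcongr
    rw [mul_one] at h3
    gcongr
  have h3 : C * (1 + Real.log z) * ∑ δ ∈ (Icc 1 ⌊z ^ (8 * 1 + 16)⌋₊).filter
      (fun δ => Squarefree δ ∧ ∀ p : ℕ, p.Prime → p ∣ δ → (p : ℝ) < z),
      |(∑ j ∈ (Ico T (2 * T)).filter (fun j => δ ∣ PiH H (Mk H * g * j + m₀)), (1 : ℝ)) -
        T * ∏ p ∈ δ.primeFactors, gg H p| ≤ C * (1 + Real.log z) * z ^ 48 := by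
    gcongr
  change _ - (T : ℝ) * GG H z ≤ _ at h1
  linarith

/-- the elements of a class -/
theorem class_card_le {H : Finset ℕ} {b x g r m₀ : ℕ} {z η : ℝ} (hz : z ≤ (x : ℝ) ^ η)
    (hg : 0 < g) (hcop : Nat.Coprime (Mk H) g) (hb : b < Mk H) (h1 : m₀ ≡ b [MOD Mk H])
    (h2 : m₀ ≡ r [MOD g]) (h3 : m₀ < Mk H * g) :
    (((Ioc x (2 * x)).filter (fun m => m % Mk H = b ∧ Rough ((x : ℝ) ^ η) (PiH H m) ∧
      g ∣ PiH H m)).filter (fun m => m % g = r)).card ≤
      ((Ico (x / (Mk H * g)) (2 * (x / (Mk H * g)))).filter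
        (fun j => Rough z (PiH H (Mk H * g * j + m₀)))).card + 2 := by
  have hM : 0 < Mk H * g := Nat.mul_pos (Mk_pos H) hg
  generalize Mk H = Q at *
  set T := x / (Q * g) with hT
  have hsub : ((Ioc x (2 * x)).filter (fun m => m % Q = b ∧ Rough ((x : ℝ) ^ η) (PiH H m) ∧
      g ∣ PiH H m)).filter (fun m => m % g = r) ⊆
      (((Ico T (2 * T)).filter (fun j => Rough z (PiH H (Q * g * j + m₀)))) ∪
        {2 * T, 2 * T + 1}).image (fun j => Q * g * j + m₀) := by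
    intro m hm
    simp only [mem_filter, mem_Ioc] at hm
    obtain ⟨⟨⟨hm1, hm2⟩, hm3, hm4, -⟩, hm5⟩ := hm
    have e1 : m ≡ m₀ [MOD Q] := by
      refine Nat.ModEq.trans ?_ h1.symm
      change m % Q = b % Q
      rw [hm3, Nat.mod_eq_of_lt hb]
    have e2 : m ≡ m₀ [MOD g] := by
      refine Nat.ModEq.trans ?_ h2.symm
      change m % g = r % g
      rw [← hm5, Nat.mod_mod]
    have e3 : m % (Q * g) = m₀ := by
      have e4 : m ≡ m₀ [MOD Q * g] := (Nat.modEq_and_modEq_iff_modEq_mul hcop).1 ⟨e1, e2⟩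
      have e5 : m % (Q * g) = m₀ % (Q * g) := e4
      rw [e5, Nat.mod_eq_of_lt h3]
    have e6 : Q * g * (m / (Q * g)) + m₀ = m := by
      conv_rhs => rw [← Nat.div_add_mod m (Q * g), e3]
    have e7 : T ≤ m / (Q * g) := Nat.div_le_div_right hm1.le
    have e8 : m / (Q * g) ≤ 2 * T + 1 := by
      have e9 : x < Q * g * (T + 1) := by
        have := Nat.lt_mul_div_succ x hM
        simpa using this
      have e10 : m < Q * g * (2 * T + 2) := by
        have : Q * g * (2 * T + 2) = 2 * (Q * g * (T + 1)) := by ring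
        omega
      have := (Nat.div_lt_iff_lt_mul hM).2 (by rw [Nat.mul_comm]; exact e10)
      omega
    refine mem_image.2 ⟨m / (Q * g), ?_, e6⟩
    rw [mem_union, mem_filter, mem_Ico, mem_insert, mem_singleton, e6]
    by_cases h : m / (Q * g) < 2 * T
    · exact Or.inl ⟨⟨e7, h⟩, fun p hp hpd => hz.trans (hm4 p hp hpd)⟩
    · right
      omega
  refine (card_le_card hsub).trans (card_image_le.trans ((card_union_le _ _).trans ?_))
  exact Nat.add_le_add_left (card_le_two) _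

end UGM

open UGM GLM Pool.Agent.Lib.MP3efbeb.T.UGM in
/-- UG. -/
theorem specUG : SpecUG := by
  intro H b hA η c hη hc hc1
  obtain ⟨C, hC, hFLK⟩ := Odd.specFLK H.card
  obtain ⟨-, hk3, hb, hcopb⟩ := hA
  obtain ⟨C₁, hC₁, hGG⟩ := UGM.GG_le H
  set k := H.card with hk
  set η' := min η (c / 100) with hη'
  have hη'0 : 0 < η' := lt_min hη (by positivity)
  have hev : ∀ᶠ x : ℝ in Filter.atTop, (2 * k + 1 : ℝ) ≤ x ^ η' ∧
      Real.log x ^ (k : ℝ) ≤ x ^ (c / 2) ∧ 2 ≤ x := by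
    refine ((tendsto_rpow_atTop hη'0).eventually_ge_atTop _).and (Filter.Eventually.and ?_
      (Filter.eventually_ge_atTop 2))
    have h1 := (isLittleO_log_rpow_rpow_atTop (k : ℝ) (show 0 < c / 2 by positivity)).bound
      (show (0 : ℝ) < 1 by norm_num)
    filter_upwards [h1, Filter.eventually_ge_atTop (1 : ℝ)] with x hx hx1
    have h2 : 0 ≤ Real.log x := Real.log_nonneg hx1
    rw [Real.norm_of_nonneg (by positivity), Real.norm_of_nonneg (by positivity), one_mul] at hx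
    exact hx
  obtain ⟨X₁, hX₁⟩ := Filter.eventually_atTop.1 hev
  refine ⟨k ^ ⌈1 / η⌉₊ * ((1 + C) * C₁ / η' ^ k + C + 2), by positivity, ⌈X₁⌉₊ + 2,
    fun x hx g hsq hR hgx => ?_⟩
  have hxX : X₁ ≤ (x : ℝ) := (Nat.le_ceil _).trans (by exact_mod_cast (by omega : ⌈X₁⌉₊ ≤ x))
  obtain ⟨hz6, hlog3, hx2⟩ := hX₁ x hxX
  have hx2' : 2 ≤ x := by exact_mod_cast hx2
  have hx0 : (0 : ℝ) < x := by linarith
  have hx1 : (1 : ℝ) ≤ x := by linarith
  have hg0 : 0 < g := Nat.pos_of_ne_zero hsq.ne_zero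
  have hg0' : (0 : ℝ) < g := by exact_mod_cast hg0
  have hk3' : (3 : ℝ) ≤ k := by exact_mod_cast hk3
  set z := (x : ℝ) ^ η' with hz
  have hzη : z ≤ (x : ℝ) ^ η := Real.rpow_le_rpow_of_exponent_le hx1 (min_le_left _ _)
  have hL : 0 < Real.log x := Real.log_pos (by linarith)
  have hlz : Real.log z = η' * Real.log x := Real.log_rpow hx0 _
  have hlog3' : Real.log x ^ k ≤ (x : ℝ) ^ (c / 2) := by
    rw [← Real.rpow_natCast]
    exact hlog3
  have hcop : Nat.Coprime (Mk H) g := by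
    refine Nat.Coprime.symm (Nat.coprime_of_dvd fun p hp hpg hp30 => ?_)
    have h1 := hR p hp hpg
    have h2 : (2 * k + 1 : ℝ) ≤ p := hz6.trans (hzη.trans h1)
    have h3 : 2 * k + 1 ≤ p := by exact_mod_cast h2
    have h6 := (dvd_Mk hp).1 hp30
    omega
  -- the main comparison
  have hxg : (x : ℝ) ^ (c / 2) ≤ x / (g * Real.log x ^ k) := by
    rw [le_div_iff₀ (by positivity)]
    calc (x : ℝ) ^ (c / 2) * (g * Real.log x ^ k)
        ≤ (x : ℝ) ^ (c / 2) * ((x : ℝ) ^ (1 - c) * (x : ℝ) ^ (c / 2)) := by gcongr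
      _ = x := by
          rw [← Real.rpow_add hx0, ← Real.rpow_add hx0]
          ring_nf
          exact Real.rpow_one _
  have hclass : ∀ r ∈ (range g).filter (fun r => g ∣ PiH H r),
      ((((Ioc x (2 * x)).filter (fun m => m % Mk H = b ∧ Rough ((x : ℝ) ^ η) (PiH H m) ∧
        g ∣ PiH H m)).filter (fun m => m % g = r)).card : ℝ) ≤
      ((1 + C) * C₁ / η' ^ k + C + 2) * (x / (g * Real.log x ^ k)) := by
    intro r hr
    rw [mem_filter, mem_range] at hr
    obtain ⟨m₀, hm₀1, hm₀2⟩ := Nat.chineseRemainder hcop b r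
    have hm : m₀ % (Mk H * g) < Mk H * g := Nat.mod_lt _ (Nat.mul_pos (Mk_pos H) hg0)
    have h1 : m₀ % (Mk H * g) ≡ b [MOD Mk H] :=
      ((Nat.mod_modEq m₀ (Mk H * g)).of_mul_right g).trans hm₀1
    have h2 : m₀ % (Mk H * g) ≡ r [MOD g] :=
      ((Nat.mod_modEq m₀ (Mk H * g)).of_mul_left (Mk H)).trans hm₀2
    have h3 := UGM.class_card_le (H := H) (x := x) hzη hg0 hcop hb h1 h2 hm
    have h4 : m₀ % (Mk H * g) % Mk H = b := by
      have h5 : m₀ % (Mk H * g) % Mk H = b % Mk H := h1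
      rw [h5, Nat.mod_eq_of_lt hb]
    have h5 := UGM.class_sieve hC (H := H) (fun b z => hFLK b z) hb hcopb
      (z := z) (by linarith) (g := g) (m₀ := m₀ % (Mk H * g)) (T := x / (Mk H * g))
      (fun p hp hpg => hzη.trans (hR p hp hpg)) h4
    have h6 : ((x / (Mk H * g) : ℕ) : ℝ) ≤ x / g := by
      have h7 : x / (Mk H * g) ≤ x / g :=
        Nat.div_le_div_left (Nat.le_mul_of_pos_left g (Mk_pos H)) hg0
      exact (Nat.cast_le.2 h7).trans Nat.cast_div_le
    have h7 : GG H z ≤ C₁ / (η' ^ k * Real.log x ^ k) := by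
      have := hGG z (by linarith)
      rwa [hlz, mul_pow] at this
    have hG0 : 0 ≤ GG H z := GG_nonneg H z
    have h8 : (1 + C) * ((x / (Mk H * g) : ℕ) : ℝ) * GG H z ≤
        (1 + C) * C₁ / η' ^ k * (x / (g * Real.log x ^ k)) := by
      calc (1 + C) * ((x / (Mk H * g) : ℕ) : ℝ) * GG H z
          ≤ (1 + C) * (x / g) * (C₁ / (η' ^ k * Real.log x ^ k)) := by gcongr
        _ = _ := by field_simp
    have h9 : C * (1 + Real.log z) * z ^ 48 ≤ C * (x : ℝ) ^ (c / 2) := by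
      have h10 : 1 + Real.log z ≤ z := by
        have := Real.log_le_sub_one_of_pos (by linarith : 0 < z)
        linarith
      have h11 : z ^ 49 ≤ (x : ℝ) ^ (c / 2) := by
        rw [hz, ← Real.rpow_natCast, ← Real.rpow_mul hx0.le]
        refine Real.rpow_le_rpow_of_exponent_le hx1 ?_
        have : η' ≤ c / 100 := min_le_right _ _
        push_cast
        linarith
      calc C * (1 + Real.log z) * z ^ 48 ≤ C * z * z ^ 48 := by gcongr
        _ = C * z ^ 49 := by ring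
        _ ≤ C * (x : ℝ) ^ (c / 2) := by gcongr
    have h10 : (1 : ℝ) ≤ (x : ℝ) ^ (c / 2) := Real.one_le_rpow hx1 (by positivity)
    have h11 : C * (x : ℝ) ^ (c / 2) ≤ C * (x / (g * Real.log x ^ k)) := by gcongr
    have h12 : (2 : ℝ) ≤ 2 * (x / (g * Real.log x ^ k)) := by linarith
    have h13 : ((((Ioc x (2 * x)).filter (fun m => m % Mk H = b ∧
        Rough ((x : ℝ) ^ η) (PiH H m) ∧ g ∣ PiH H m)).filter (fun m => m % g = r)).card : ℝ) ≤
        (((Ico (x / (Mk H * g)) (2 * (x / (Mk H * g)))).filter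
        (fun j => Rough z (PiH H (Mk H * g * j + m₀ % (Mk H * g))))).card : ℝ) + 2 := by
      exact_mod_cast h3
    calc _ ≤ _ := h13
      _ ≤ (1 + C) * ((x / (Mk H * g) : ℕ) : ℝ) * GG H z + C * (1 + Real.log z) * z ^ 48 + 2 := by
          linarith
      _ ≤ (1 + C) * C₁ / η' ^ k * (x / (g * Real.log x ^ k)) + C * (x / (g * Real.log x ^ k)) +
          2 * (x / (g * Real.log x ^ k)) := by linarith
      _ = _ := by ring
  -- summation over the classes
  have hsum : (((Ioc x (2 * x)).filter (fun m => m % Mk H = b ∧ Rough ((x : ℝ) ^ η) (PiH H m) ∧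
      g ∣ PiH H m)).card : ℝ) = ∑ r ∈ (range g).filter (fun r => g ∣ PiH H r),
      ((((Ioc x (2 * x)).filter (fun m => m % Mk H = b ∧ Rough ((x : ℝ) ^ η) (PiH H m) ∧
        g ∣ PiH H m)).filter (fun m => m % g = r)).card : ℝ) := by
    rw [← Nat.cast_sum]
    congr 1
    refine card_eq_sum_card_fiberwise fun m hm => ?_
    simp only [coe_filter, Set.mem_ofPred_eq, mem_range] at hm ⊢
    exact ⟨Nat.mod_lt _ hg0, (UGM.PiH_dvd (Nat.mod_modEq m g)).2 hm.2.2.2⟩
  have hxc : (g : ℝ) ≤ x := by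
    refine hgx.trans ?_
    calc (x : ℝ) ^ (1 - c) ≤ (x : ℝ) ^ (1 : ℝ) :=
          Real.rpow_le_rpow_of_exponent_le hx1 (by linarith)
      _ = x := Real.rpow_one _
  have hK : ((((range g).filter (fun r => g ∣ PiH H r)).card : ℕ) : ℝ) ≤ k ^ ⌈1 / η⌉₊ := by
    have h1 := (UGM.card_classes H hsq).trans
      (Nat.pow_le_pow_right (by omega) (card_pf hη hx2' hsq hR hxc))
    exact_mod_cast h1
  rw [hsum]
  refine (sum_le_card_nsmul _ _ _ hclass).trans ?_
  rw [nsmul_eq_mul]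
  calc _ ≤ k ^ ⌈1 / η⌉₊ * (((1 + C) * C₁ / η' ^ k + C + 2) * (x / (g * Real.log x ^ k))) := by
        gcongr
    _ = _ := by ring

end Pool.Agent.Lib.MP3efbeb.TK
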