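import Pool.Agent.Lib.MP_3efbeb_nt.TK.AllC
import Pool.Agent.Lib.MP_3efbeb_nt.TK.B
import Pool.Agent.Lib.MP_3efbeb_nt.TK.GL
import Pool.Agent.Lib.MP_3efbeb_nt.TK.UG
import Pool.Agent.Lib.MP_391708_nt.QPA.Selb
import Pool.Agent.Lib.MP_391708_nt.QPA.Bt
import Pool.Agent.Lib.MP_391708_nt.QPA.Rsum
import Pool.Agent.Lib.MP_391708_nt.QPA.Wmer

/-!
# TK: assembly
-/

set_option autoImplicit false

namespace Pool.Agent.Lib.MP3efbeb.TK

open Pool.Agent.Lib.MP391708.QPA in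
/-- the theorem on random rings -/
theorem main1 : SpecMAIN1 := by
  have hFLK : Odd.SpecFLK := Odd.specFLK
  have hRSUM : SpecRSUM := specRSUM (specBT specSELB)
  exact main1_of (specB hFLK specGL hRSUM specWMER) specGL specUG

end Pool.Agent.Lib.MP3efbeb.TK
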