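import Pool.Agent.Lib.MP_3efbeb_nt.TK.Spec

/-!
# MP_3efbeb_nt, line T(k): CL (classes)
-/

set_option autoImplicit false

namespace Pool.Agent.Lib.MP3efbeb.TK

open Finset
open scoped Classical
open Pool.Agent.Lib.MP391708.QPA (PB rInd Rough)
open Pool.Agent.Lib.MP3efbeb.T (BP sg gpf cofP RS PrimeIn)

namespace CLM

theorem class_ap (x N v : ℕ) (hN : 0 < N) :
    |(((Ioc x (2 * x)).filter (fun m => m ≡ v [MOD N])).card : ℝ) - (x : ℝ) / N| ≤ 1 := by
  have h := Nat.Ioc_filter_modEq_card x (2 * x) hN v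
  have hN' : (0 : ℚ) < N := by exact_mod_cast hN
  have h2 : (((2 * x : ℕ) : ℚ) - v) / (N : ℚ) = ((x : ℚ) - v) / N + (x : ℚ) / N := by
    push_cast; ring
  have hx0 : (0 : ℚ) ≤ (x : ℚ) / N := by positivity
  have h1 : (⌊((x : ℚ) - v) / (N : ℚ)⌋ : ℤ) ≤ ⌊(((2 * x : ℕ) : ℚ) - v) / (N : ℚ)⌋ := by
    apply Int.floor_le_floor
    rw [h2]; linarith
  rw [max_eq_left (by omega)] at h
  have e : ((((Ioc x (2 * x)).filter (fun m => m ≡ v [MOD N])).card : ℕ) : ℚ)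
      = (⌊(((2 * x : ℕ) : ℚ) - v) / (N : ℚ)⌋ : ℚ) - (⌊((x : ℚ) - v) / (N : ℚ)⌋ : ℚ) := by
    have := congrArg (fun z : ℤ => (z : ℚ)) h
    simpa using this
  have f1 := Int.floor_le ((((2 * x : ℕ) : ℚ) - v) / (N : ℚ))
  have f2 := Int.lt_floor_add_one ((((2 * x : ℕ) : ℚ) - v) / (N : ℚ))
  have f3 := Int.floor_le (((x : ℚ) - v) / (N : ℚ))
  have f4 := Int.lt_floor_add_one (((x : ℚ) - v) / (N : ℚ))
  have g : |((((Ioc x (2 * x)).filter (fun m => m ≡ v [MOD N])).card : ℕ) : ℚ) - (x : ℚ) / N| ≤ 1 := by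
    rw [e, abs_le]
    constructor
    · linarith
    · linarith
  have g2 : (((|((((Ioc x (2 * x)).filter (fun m => m ≡ v [MOD N])).card : ℕ) : ℚ) - (x : ℚ) / N|) : ℚ) : ℝ)
      ≤ ((1 : ℚ) : ℝ) := Rat.cast_le.2 g
  push_cast at g2
  exact g2

theorem cntP (Q : ℕ) (hQ : 1 ≤ Q) (x b M P : ℕ) (hb : b < Q) (hM : 1 ≤ M) (hM30 : Nat.Coprime M Q) (hP0 : 1 ≤ P)
    (hP30 : Nat.Coprime P Q) (hPM : Nat.Coprime P M) (r : ℕ) (hr : r < M) :
    |(((Ioc x (2 * x)).filter (fun m => (m % Q = b ∧ P ∣ m) ∧ m % M = r)).card : ℝ)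
      - (x : ℝ) / (Q * M * P : ℕ)| ≤ 1 := by
  have c1 : Nat.Coprime Q M := hM30.symm
  have c2 : Nat.Coprime (Q * M) P := Nat.Coprime.symm (Nat.Coprime.mul_right hP30 hPM)
  obtain ⟨k, hk1, hk2⟩ := Nat.chineseRemainder c1 b r
  obtain ⟨l, hl1, hl2⟩ := Nat.chineseRemainder c2 k 0
  have hN : 0 < Q * M * P := by positivity
  have h := class_ap x (Q * M * P) l hN
  have e : (Ioc x (2 * x)).filter (fun m => (m % Q = b ∧ P ∣ m) ∧ m % M = r)
      = (Ioc x (2 * x)).filter (fun m => m ≡ l [MOD (Q * M * P)]) := by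
    apply filter_congr
    intro m _
    rw [← Nat.modEq_and_modEq_iff_modEq_mul c2]
    constructor
    · rintro ⟨⟨h1, h2⟩, h3⟩
      refine ⟨?_, ?_⟩
      · have : m ≡ k [MOD (Q * M)] := by
          rw [← Nat.modEq_and_modEq_iff_modEq_mul c1]
          refine ⟨?_, ?_⟩
          · refine Nat.ModEq.trans ?_ hk1.symm
            unfold Nat.ModEq
            rw [h1, Nat.mod_eq_of_lt hb]
          · refine Nat.ModEq.trans ?_ hk2.symm
            unfold Nat.ModEq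
            rw [h3, Nat.mod_eq_of_lt hr]
        exact this.trans hl1.symm
      · exact ((Nat.modEq_zero_iff_dvd).2 h2).trans hl2.symm
    · rintro ⟨h1, h2⟩
      have h3 : m ≡ k [MOD (Q * M)] := h1.trans hl1
      rw [← Nat.modEq_and_modEq_iff_modEq_mul c1] at h3
      refine ⟨⟨?_, ?_⟩, ?_⟩
      · have := h3.1.trans hk1
        unfold Nat.ModEq at this
        rw [this, Nat.mod_eq_of_lt hb]
      · exact (Nat.modEq_zero_iff_dvd).1 (h2.trans hl2)
      · have := h3.2.trans hk2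
        unfold Nat.ModEq at this
        rw [this, Nat.mod_eq_of_lt hr]
  rw [e]
  exact h

theorem cntPR (Q : ℕ) (hQ : 1 ≤ Q) (x b M P : ℕ) (hb : b < Q) (hM : 1 ≤ M) (hM30 : Nat.Coprime M Q) (hP0 : 1 ≤ P)
    (hP30 : Nat.Coprime P Q) (hPM : Nat.Coprime P M) (R : Finset ℕ) (hR : R ⊆ range M) :
    |(((Ioc x (2 * x)).filter (fun m => (m % Q = b ∧ P ∣ m) ∧ m % M ∈ R)).card : ℝ)
      - R.card * ((x : ℝ) / (Q * M * P : ℕ))| ≤ R.card := by
  have e : ((Ioc x (2 * x)).filter (fun m => (m % Q = b ∧ P ∣ m) ∧ m % M ∈ R)).card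
      = ∑ r ∈ R, ((Ioc x (2 * x)).filter (fun m => (m % Q = b ∧ P ∣ m) ∧ m % M = r)).card := by
    rw [← Finset.card_biUnion]
    · congr 1
      ext m
      simp only [mem_filter, mem_biUnion]
      constructor
      · rintro ⟨h1, h2, h3⟩
        exact ⟨_, h3, h1, h2, rfl⟩
      · rintro ⟨r, hr, h1, h2, h3⟩
        exact ⟨h1, h2, h3 ▸ hr⟩
    · intro r _ r' _ hne
      rw [Function.onFun, Finset.disjoint_left]
      intro m h1 h2
      rw [mem_filter] at h1 h2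
      exact hne (h1.2.2.symm.trans h2.2.2)
  rw [e]
  push_cast
  have : (R.card : ℝ) * ((x : ℝ) / (Q * M * P)) = ∑ r ∈ R, ((x : ℝ) / (Q * M * P)) := by
    rw [sum_const, nsmul_eq_mul]
  rw [this, ← sum_sub_distrib]
  refine (abs_sum_le_sum_abs _ _).trans ?_
  refine (sum_le_sum (g := fun _ => (1 : ℝ)) ?_).trans ?_
  · intro r hr
    have := cntP Q hQ x b M P hb hM hM30 hP0 hP30 hPM r (mem_range.1 (hR hr))
    push_cast at this
    exact this
  · simp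

theorem bp_facts {a : ℝ} (ha : 0 < a) (ha' : a ≤ 1 / 4) {x : ℕ} (hx : 10000 ≤ x) {P : ℕ} (hP : P ∈ BP a x) :
    P.Prime ∧ (x : ℝ) ^ (3 / 4 : ℝ) < P ∧ 30 < P ∧ 2 * x < P * P := by
  unfold BP at hP
  rw [mem_filter] at hP
  obtain ⟨_, hp, h1, h2⟩ := hP
  have hx1 : (1 : ℝ) ≤ x := by
    have : (10000 : ℝ) ≤ x := by exact_mod_cast hx
    linarith
  have hx2 : (10000 : ℝ) ≤ x := by exact_mod_cast hx
  have h3 : (x : ℝ) ^ (3 / 4 : ℝ) ≤ (x : ℝ) ^ (1 - a) :=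
    Real.rpow_le_rpow_of_exponent_le hx1 (by linarith)
  have h4 : (x : ℝ) ^ (3 / 4 : ℝ) < P := lt_of_le_of_lt h3 h1
  have h5 : (1000 : ℝ) ≤ (x : ℝ) ^ (3 / 4 : ℝ) := by
    have : (1000 : ℝ) = (10000 : ℝ) ^ (3 / 4 : ℝ) := by
      rw [show (10000 : ℝ) = (10 : ℝ) ^ (4 : ℝ) by norm_num, ← Real.rpow_mul (by norm_num)]
      norm_num
    rw [this]
    exact Real.rpow_le_rpow (by norm_num) hx2 (by norm_num)
  refine ⟨hp, h4, ?_, ?_⟩
  · have : (30 : ℝ) < P := by linarith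
    exact_mod_cast this
  · have h6 : (x : ℝ) ^ (3 / 4 : ℝ) * (x : ℝ) ^ (3 / 4 : ℝ) = x * (x : ℝ) ^ (1 / 2 : ℝ) := by
      rw [← Real.rpow_add (by linarith)]
      nth_rewrite 2 [← Real.rpow_one (x : ℝ)]
      rw [← Real.rpow_add (by linarith)]
      norm_num
    have h7 : (100 : ℝ) ≤ (x : ℝ) ^ (1 / 2 : ℝ) := by
      have : (100 : ℝ) = (10000 : ℝ) ^ (1 / 2 : ℝ) := by
        rw [show (10000 : ℝ) = (10 : ℝ) ^ (4 : ℝ) by norm_num, ← Real.rpow_mul (by norm_num)]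
        norm_num
      rw [this]
      exact Real.rpow_le_rpow (by norm_num) hx2 (by norm_num)
    have h8 : (2 : ℝ) * x < P * P := by
      have : (x : ℝ) ^ (3 / 4 : ℝ) * (x : ℝ) ^ (3 / 4 : ℝ) ≤ P * P :=
        mul_le_mul h4.le h4.le (by linarith) (by positivity)
      nlinarith
    exact_mod_cast h8

theorem bp_card {a : ℝ} {x : ℕ} : ((BP a x).card : ℝ) ≤ (x : ℝ) ^ (1 - a / 2) := by
  have h0 : (0 : ℝ) ≤ (x : ℝ) ^ (1 - a / 2) := Real.rpow_nonneg (by positivity) _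
  have h1 : BP a x ⊆ Icc 1 ⌊(x : ℝ) ^ (1 - a / 2)⌋₊ := by
    intro P hP
    unfold BP at hP
    rw [mem_filter, mem_Icc] at hP
    rw [mem_Icc]
    exact ⟨hP.1.1, Nat.le_floor hP.2.2.2⟩
  have h2 := card_le_card h1
  rw [Nat.card_Icc, Nat.add_sub_cancel] at h2
  have h3 : ((BP a x).card : ℝ) ≤ (⌊(x : ℝ) ^ (1 - a / 2)⌋₊ : ℝ) := by exact_mod_cast h2
  exact h3.trans (Nat.floor_le h0)

end CLM

open CLM in
theorem specCL : SpecCL := by
  intro Q hQ a ha ha'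
  refine ⟨max 10000 (Q ^ 2), ?_⟩
  intro x hx b hb hb30 M hM hM30 hMx R hR
  have hxQ : Q ^ 2 ≤ x := (le_max_right _ _).trans hx
  replace hx : 10000 ≤ x := (le_max_left _ _).trans hx
  have hQx : (Q : ℝ) ≤ (x : ℝ) ^ (3 / 4 : ℝ) := by
    have hx1 : (1 : ℝ) ≤ x := by
      have : 1 ≤ x := by omega
      exact_mod_cast this
    have h1 : (x : ℝ) ^ (1 / 2 : ℝ) ≤ (x : ℝ) ^ (3 / 4 : ℝ) :=
      Real.rpow_le_rpow_of_exponent_le hx1 (by norm_num)
    refine le_trans ?_ h1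
    rw [← Real.sqrt_eq_rpow]
    apply Real.le_sqrt_of_sq_le
    exact_mod_cast hxQ
  have hx0 : (0 : ℝ) < x := by
    have : 0 < x := by omega
    exact_mod_cast this
  -- decomposition
  have e1 : (MM Q b a x).filter (fun m => m % M ∈ R)
      = (BP a x).biUnion (fun P => (Ioc x (2 * x)).filter (fun m => (m % Q = b ∧ P ∣ m) ∧ m % M ∈ R)) := by
    ext m
    unfold MM
    simp only [mem_filter, mem_biUnion]
    constructor
    · rintro ⟨⟨h1, h2, P, hP, h3⟩, h4⟩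
      exact ⟨P, hP, h1, ⟨h2, h3⟩, h4⟩
    · rintro ⟨P, hP, h1, ⟨h2, h3⟩, h4⟩
      exact ⟨⟨h1, h2, P, hP, h3⟩, h4⟩
  have e2 : ((MM Q b a x).filter (fun m => m % M ∈ R)).card
      = ∑ P ∈ BP a x, ((Ioc x (2 * x)).filter (fun m => (m % Q = b ∧ P ∣ m) ∧ m % M ∈ R)).card := by
    rw [e1]
    apply card_biUnion
    intro P hP P' hP' hne
    rw [Function.onFun, Finset.disjoint_left]
    intro m h1 h2
    rw [mem_filter, mem_Ioc] at h1 h2
    obtain ⟨hp, _, _, hpp⟩ := bp_facts ha ha' hx hP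
    obtain ⟨hp', _, _, hpp'⟩ := bp_facts ha ha' hx hP'
    have hc : Nat.Coprime P P' := (Nat.coprime_primes hp hp').2 hne
    have hd : P * P' ∣ m := hc.mul_dvd_of_dvd_of_dvd h1.2.1.2 h2.2.1.2
    have hle := Nat.le_of_dvd (by omega) hd
    have h3 : P * P' ≤ 2 * x := hle.trans h1.1.2
    rcases le_total P P' with h | h
    · have : P * P ≤ P * P' := Nat.mul_le_mul_left _ h
      omega
    · have : P' * P' ≤ P * P' := Nat.mul_le_mul_right _ h
      omega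
  rw [e2]
  push_cast
  have hM0 : (0 : ℝ) < M := by exact_mod_cast hM
  have e3 : (x : ℝ) / Q * sg a x * ((R.card : ℝ) / M)
      = ∑ P ∈ BP a x, (R.card : ℝ) * ((x : ℝ) / (Q * M * P : ℕ)) := by
    unfold sg
    rw [mul_sum, sum_mul]
    apply sum_congr rfl
    intro P hP
    have hP0 : (0 : ℝ) < P := by
      have := (bp_facts ha ha' hx hP).1.pos
      exact_mod_cast this
    have hQ0 : (0 : ℝ) < Q := by exact_mod_cast hQ
    push_cast
    field_simp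
  rw [e3, ← sum_sub_distrib]
  refine (abs_sum_le_sum_abs _ _).trans ?_
  refine (sum_le_sum (g := fun _ => (R.card : ℝ)) ?_).trans ?_
  · intro P hP
    obtain ⟨hp, h1, h2, _⟩ := bp_facts ha ha' hx hP
    have hMP : M < P := by
      have : (M : ℝ) < P := lt_of_le_of_lt hMx h1
      exact_mod_cast this
    have hQP : Q < P := by
      have : (Q : ℝ) < P := lt_of_le_of_lt hQx h1
      exact_mod_cast this
    have hP30 : Nat.Coprime P Q := by
      rw [Nat.Prime.coprime_iff_not_dvd hp]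
      intro h
      exact absurd (Nat.le_of_dvd (by omega) h) (by omega)
    have hPM : Nat.Coprime P M := by
      rw [Nat.Prime.coprime_iff_not_dvd hp]
      intro h
      exact absurd (Nat.le_of_dvd (by omega) h) (by omega)
    exact cntPR Q hQ x b M P hb hM hM30 hp.one_lt.le hP30 hPM R hR
  · rw [sum_const, nsmul_eq_mul]
    have h1 := bp_card (a := a) (x := x)
    have h2 : (0 : ℝ) ≤ (x : ℝ) ^ (1 - a / 2) := Real.rpow_nonneg (by positivity) _
    have h3 : (0 : ℝ) ≤ R.card := by positivity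
    nlinarith [mul_le_mul_of_nonneg_right h1 h3, mul_nonneg h3 h2]

end Pool.Agent.Lib.MP3efbeb.TK
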