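import Pool.Agent.Lib.MP_3efbeb_nt.T.CONV

/-!
# TK: CONV, the case of a convergent sum of probabilities, for every set of shifts
-/

set_option autoImplicit false

namespace Pool.Agent.Lib.MP3efbeb.TK

open Finset MeasureTheory ProbabilityTheory
open scoped Classical
open Pool.Agent.Lib.MP3efbeb.T (PrimeIn)
open Pool.Agent.Lib.MP3efbeb.T.RINGM
open Pool.Agent.Lib.MP_3efbeb_nt.T.ProbM

theorem convH (Ω : Type) [MeasurableSpace Ω] (μ : Measure Ω) [IsProbabilityMeasure μ]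
    (A : ℕ → Set Ω) (hA : ∀ p, MeasurableSet (A p)) (hind : iIndepSet (fun p : Nat.Primes => A (p : ℕ)) μ)
    (hsum : Summable (fun p : Nat.Primes => μ.real (A (p : ℕ)))) (hlt : ∀ p : ℕ, p.Prime → μ.real (A p) < 1)
    (H : Finset ℕ) :
    (∀ᵐ ω ∂μ, {n : ℕ | ∀ h ∈ H, PrimeIn {p | p.Prime ∧ ω ∈ A p} (n + h)}.Infinite) ↔
      {n : ℕ | ∀ h ∈ H, (n + h).Prime}.Infinite := by
  constructor
  · intro hae
    have hpos := no_S (μ := μ) A (fun p _ => hA p) hind hsum hlt
    obtain ⟨ω, h1, h2⟩ : ∃ ω, (∀ p : ℕ, p.Prime → ω ∉ A p) ∧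
        {n : ℕ | ∀ h ∈ H, PrimeIn {p | p.Prime ∧ ω ∈ A p} (n + h)}.Infinite := by
      by_contra hcon
      push Not at hcon
      have h3 : {ω | ∀ p : ℕ, p.Prime → ω ∉ A p} ⊆
          {ω | ¬ {n : ℕ | ∀ h ∈ H, PrimeIn {p | p.Prime ∧ ω ∈ A p} (n + h)}.Infinite} :=
        fun ω hω => by
          rw [Set.mem_ofPred_eq, Set.not_infinite]
          exact hcon ω hω
      have h4 := measure_mono_null h3 (ae_iff.1 hae)
      exact hpos.ne' h4
    have h3 : {p : ℕ | p.Prime ∧ ω ∈ A p} = ∅ := by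
      ext p
      simp only [Set.mem_ofPred_eq, Set.mem_empty_iff_false, iff_false, not_and]
      exact h1 p
    rw [h3] at h2
    refine h2.mono ?_
    intro n hn h hh
    exact primeIn_empty (hn h hh)
  · intro hinf
    filter_upwards [finite_S (μ := μ) A hsum] with ω hω
    set S : Set ℕ := {p | p.Prime ∧ ω ∈ A p} with hS
    obtain ⟨B, hB⟩ := hω.bddAbove
    have hSp : ∀ p ∈ S, p.Prime := fun p hp => hp.1
    have h1 : ({n : ℕ | ∀ h ∈ H, (n + h).Prime} \ Set.Iic B).Infinite :=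
      hinf.sdiff (Set.finite_Iic B)
    refine h1.mono ?_
    rintro n ⟨hn, h2⟩ h hh
    rw [Set.mem_Iic, not_le] at h2
    refine prime_of_prime hSp (hn h hh) ?_
    intro h3
    have := hB h3
    omega

end Pool.Agent.Lib.MP3efbeb.TK
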