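import Pool.Agent.Lib.MP_3efbeb_nt.TK.Spec
import Pool.Agent.Lib.MP_3efbeb_nt.T.DET

/-!
# Line T(k), module DET: the deterministic theorem
-/

set_option autoImplicit false

namespace Pool.Agent.Lib.MP3efbeb.TK.DETM

open Finset Filter Topology
open scoped Classical
open Pool.Agent.Lib.MP391708.QPA (PB rInd Rough)
open Pool.Agent.Lib.MP3efbeb.T (BP sg gpf cofP RS PrimeIn SpecSG)
open Pool.Agent.Lib.MP3efbeb.T.OVM (gpf_mem le_gpf gpf_prime sum_log_sq V_eq log_nonneg_nat)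
open Pool.Agent.Lib.MP3efbeb.T.DETM (mult_count cofP_prime)

noncomputable section

/-- the non-squarefree elements -/
theorem sq_dvd {H : Finset ℕ} {m q : ℕ} (hq : q.Prime) (htq : ∀ h ∈ H, h < q)
    (h : q * q ∣ PiH H m) : ∃ v ∈ H, q * q ∣ m + v := by
  -- `q` divides at most one of the factors
  have hex : ∃ v ∈ H, q ∣ m + v := by
    have h1 : q ∣ PiH H m := (dvd_mul_right q q).trans h
    unfold PiH at h1
    exact (Prime.dvd_finset_prod_iff hq.prime _).1 h1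
  obtain ⟨v, hv, hqv⟩ := hex
  refine ⟨v, hv, ?_⟩
  unfold PiH at h
  rw [← Finset.mul_prod_erase H (fun h => m + h) hv] at h
  have hcop : Nat.Coprime (q * q) (∏ w ∈ H.erase v, (m + w)) := by
    refine Nat.Coprime.prod_right fun w hw => ?_
    rw [Finset.mem_erase] at hw
    have hn : ¬ q ∣ m + w := by
      intro hqw
      rcases lt_or_gt_of_ne hw.1 with hlt | hgt
      · have h4 : q ∣ (m + v) - (m + w) := Nat.dvd_sub hqv hqw
        have h5 : m + v - (m + w) = v - w := by omega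
        rw [h5] at h4
        have := Nat.le_of_dvd (by omega) h4
        have := htq v hv
        omega
      · have h4 : q ∣ (m + w) - (m + v) := Nat.dvd_sub hqw hqv
        have h5 : m + w - (m + v) = w - v := by omega
        rw [h5] at h4
        have := Nat.le_of_dvd (by omega) h4
        have := htq w hw.2
        omega
    exact Nat.Coprime.mul_left ((Nat.Prime.coprime_iff_not_dvd hq).2 hn) ((Nat.Prime.coprime_iff_not_dvd hq).2 hn)
  exact hcop.dvd_of_dvd_mul_right h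

theorem nonsq {H : Finset ℕ} {z : ℝ} {x : ℕ} (hz : ∀ h ∈ H, (h : ℝ) < z) (hz1 : 1 ≤ z) (htx : ∀ h ∈ H, h ≤ x)
    (hx : 1 ≤ x) :
    (((Ioc x (2 * x)).filter (fun m => Rough z (PiH H m) ∧ ¬ Squarefree (PiH H m))).card : ℝ)
      ≤ H.card * (2 * x / z + Real.sqrt (3 * x) + 1) := by
  set Q : Finset ℕ := Ioo (⌈z⌉₊ - 1) (Nat.sqrt (3 * x) + 1) with hQ
  have hcz : 1 ≤ ⌈z⌉₊ := Nat.one_le_ceil_iff.2 (by linarith)
  have hsub : (Ioc x (2 * x)).filter (fun m => Rough z (PiH H m) ∧ ¬ Squarefree (PiH H m)) ⊆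
      H.biUnion fun v => Q.biUnion fun q => (Ioc x (2 * x)).filter (fun m => q * q ∣ m + v) := by
    intro m hm
    rw [Finset.mem_filter, Finset.mem_Ioc] at hm
    obtain ⟨⟨hm1, hm2⟩, hr, hns⟩ := hm
    rw [Nat.squarefree_iff_prime_squarefree] at hns
    push Not at hns
    obtain ⟨q, hq, hqq⟩ := hns
    have hzq : z ≤ q := hr q hq ((dvd_mul_right q q).trans hqq)
    have htq : ∀ h ∈ H, h < q := fun h hh => by exact_mod_cast (hz h hh).trans_le hzq
    obtain ⟨v, hv, hd⟩ := sq_dvd hq htq hqq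
    refine Finset.mem_biUnion.2 ⟨v, hv, Finset.mem_biUnion.2 ⟨q, ?_,
      Finset.mem_filter.2 ⟨Finset.mem_Ioc.2 ⟨hm1, hm2⟩, hd⟩⟩⟩
    rw [hQ, Finset.mem_Ioo]
    have h1 : ⌈z⌉₊ ≤ q := Nat.ceil_le.2 hzq
    have hv3 : v ≤ x := htx v hv
    have h2 : q * q ≤ m + v := Nat.le_of_dvd (by omega) hd
    have h3 : q ≤ Nat.sqrt (3 * x) := Nat.le_sqrt.2 (by omega)
    omega
  have h1 : (((Ioc x (2 * x)).filter (fun m => Rough z (PiH H m) ∧ ¬ Squarefree (PiH H m))).card : ℝ)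
      ≤ ∑ v ∈ H, ∑ q ∈ Q, (((Ioc x (2 * x)).filter (fun m => q * q ∣ m + v)).card : ℝ) := by
    have h2 := (Finset.card_le_card hsub).trans (Finset.card_biUnion_le.trans
      (Finset.sum_le_sum fun v _ => Finset.card_biUnion_le))
    exact_mod_cast h2
  have hqs : ∀ q ∈ Q, 1 ≤ q := fun q hq => by
    rw [hQ, Finset.mem_Ioo] at hq
    omega
  have h2 : ∑ q ∈ Q, ((x : ℝ) / ((q * q : ℕ) : ℝ) + 1) ≤ 2 * x / z + Real.sqrt (3 * x) + 1 := by
    rw [Finset.sum_add_distrib]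
    have h3 : ∑ q ∈ Q, (x : ℝ) / ((q * q : ℕ) : ℝ) ≤ 2 * x / z := by
      have h4 := sum_Ioo_inv_sq_le (α := ℝ) (⌈z⌉₊ - 1) (Nat.sqrt (3 * x) + 1)
      have h5 : ((⌈z⌉₊ - 1 : ℕ) : ℝ) + 1 = ⌈z⌉₊ := by
        rw [Nat.cast_sub hcz]; push_cast; ring
      rw [h5] at h4
      have h6 : ∑ q ∈ Q, (x : ℝ) / ((q * q : ℕ) : ℝ) = x * ∑ q ∈ Q, ((q : ℝ) ^ 2)⁻¹ := by
        rw [Finset.mul_sum]
        refine Finset.sum_congr rfl fun q _ => ?_
        push_cast
        rw [div_eq_mul_inv, sq]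
      rw [h6]
      have h7 : (2 : ℝ) / ⌈z⌉₊ ≤ 2 / z := div_le_div_of_nonneg_left (by norm_num) (by linarith) (Nat.le_ceil z)
      calc (x : ℝ) * ∑ q ∈ Q, ((q : ℝ) ^ 2)⁻¹ ≤ x * (2 / z) :=
            mul_le_mul_of_nonneg_left (h4.trans h7) (by positivity)
        _ = 2 * x / z := by ring
    have h8 : ∑ _q ∈ Q, (1 : ℝ) ≤ Real.sqrt (3 * x) + 1 := by
      rw [Finset.sum_const, nsmul_eq_mul, mul_one, hQ, Nat.card_Ioo]
      have h9 : ((Nat.sqrt (3 * x) + 1 - (⌈z⌉₊ - 1) - 1 : ℕ) : ℝ) ≤ (Nat.sqrt (3 * x) : ℝ) := by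
        exact_mod_cast (by omega : Nat.sqrt (3 * x) + 1 - (⌈z⌉₊ - 1) - 1 ≤ Nat.sqrt (3 * x))
      have h10 : (Nat.sqrt (3 * x) : ℝ) ≤ Real.sqrt (3 * x) := by
        have := Real.nat_sqrt_le_real_sqrt (a := 3 * x)
        push_cast at this
        exact this
      linarith
    linarith
  refine h1.trans ?_
  have h3 : ∀ v ∈ H, ∑ q ∈ Q, (((Ioc x (2 * x)).filter (fun m => q * q ∣ m + v)).card : ℝ)
      ≤ 2 * x / z + Real.sqrt (3 * x) + 1 := by
    intro v _
    refine le_trans (Finset.sum_le_sum fun q hq => mult_count x v (q * q) ?_) h2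
    have := hqs q hq
    nlinarith
  refine (Finset.sum_le_sum h3).trans ?_
  rw [Finset.sum_const, nsmul_eq_mul]

theorem sum_cof_le (H : Finset ℕ) (m : ℕ) : ∑ q ∈ cof H m, Real.log (q : ℝ)
    ≤ ∑ h ∈ H, ∑ q ∈ cofP (m + h), Real.log (q : ℝ) := by
  have hu : ∀ A B : Finset ℕ, ∑ q ∈ A ∪ B, Real.log (q : ℝ) ≤ ∑ q ∈ A, Real.log (q : ℝ) + ∑ q ∈ B, Real.log (q : ℝ) := by
    intro A B
    have h1 := Finset.sum_union_inter (s₁ := A) (s₂ := B) (f := fun q : ℕ => Real.log (q : ℝ))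
    have h2 : 0 ≤ ∑ q ∈ A ∩ B, Real.log (q : ℝ) := Finset.sum_nonneg fun q _ => log_nonneg_nat q
    linarith
  unfold cof
  induction H using Finset.induction_on with
  | empty => simp
  | insert a s ha ih =>
    rw [Finset.biUnion_insert, Finset.sum_insert ha]
    exact (hu _ _).trans (add_le_add le_rfl ih)

theorem cof_prime {H : Finset ℕ} {m q : ℕ} (h : q ∈ cof H m) : q.Prime := by
  unfold cof at h
  obtain ⟨v, _, hq⟩ := Finset.mem_biUnion.1 h
  exact cofP_prime hq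

/-- the product bound from the sum of the logarithms -/
theorem prod_le {H : Finset ℕ} {m : ℕ} {x : ℕ} {c : ℝ} (hx : 1 ≤ x)
    (h : ∑ q ∈ cof H m, Real.log (q : ℝ) ≤ c * Real.log x) :
    ∏ q ∈ cof H m, (q : ℝ) ≤ (x : ℝ) ^ c := by
  have hx0 : (0 : ℝ) < x := by exact_mod_cast hx
  have hp : ∀ q ∈ cof H m, (0 : ℝ) < q := fun q hq => by exact_mod_cast (cof_prime hq).pos
  have h1 : Real.log (∏ q ∈ cof H m, (q : ℝ)) ≤ Real.log ((x : ℝ) ^ c) := by
    rw [Real.log_prod (fun q hq => (hp q hq).ne'), Real.log_rpow hx0]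
    exact h
  exact (Real.log_le_log_iff (Finset.prod_pos hp) (by positivity)).1 h1

/-- the count for one `x` -/
theorem fixed {H : Finset ℕ} {b : ℕ} {a η cs : ℝ} {x : ℕ} (h0 : 0 ∈ H) (hk : 3 ≤ H.card) (hx : 10 ≤ x)
    (htx : ∀ h ∈ H, h ≤ x) (ha : a = cs / 4) (hcs0 : 0 < cs) (hcs1 : cs ≤ 1 / 8) (hη1 : η ≤ 1 / 2)
    (htz : ∀ h ∈ H, (h : ℝ) < (x : ℝ) ^ η) (hz1 : 1 ≤ (x : ℝ) ^ η) (hlog2 : Real.log 2 ≤ cs / 8 * Real.log x)
    (hOV : ∀ u ∈ H.erase 0,
      ∑ m ∈ (PP H b a η x).filter (fun m => Squarefree (PiH H m)), ∑ q ∈ cofP (m + u), Real.log q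
        ≤ (1 / 2 - cs) * Real.log x * ((PP H b a η x).card : ℝ)) :
    cs / 2 * ((PP H b a η x).card : ℝ) - 5 * H.card * (x : ℝ) ^ (1 - η) ≤
      (((Ioc x (2 * x)).filter (fun m => Good H b η cs x m)).card : ℝ) := by
  have hxr : (10 : ℝ) ≤ x := by exact_mod_cast hx
  have hx0 : (0 : ℝ) < x := by linarith
  have hx1 : (1 : ℝ) ≤ x := by linarith
  have hkr : (3 : ℝ) ≤ H.card := by exact_mod_cast hk
  have hL : 0 < Real.log x := Real.log_pos (by linarith)
  set L := Real.log (x : ℝ) with hLdef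
  set P := PP H b a η x with hP
  obtain ⟨S, hS⟩ : ∃ S : Finset ℕ, S = P.filter (fun m => Squarefree (PiH H m)) := ⟨_, rfl⟩
  have hPm : ∀ m ∈ P, x < m ∧ m ≤ 2 * x ∧ m % Mk H = b ∧ (∃ p ∈ BP a x, p ∣ m) ∧
      Rough ((x : ℝ) ^ η) (PiH H m) := by
    intro m hm
    rw [hP] at hm
    unfold PP MM at hm
    rw [Finset.mem_filter, Finset.mem_filter, Finset.mem_Ioc] at hm
    exact ⟨hm.1.1.1, hm.1.1.2, hm.1.2.1, hm.1.2.2, hm.2⟩
  have hSP : ∀ m ∈ S, m ∈ P ∧ Squarefree (PiH H m) := fun m hm => by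
    rw [hS, Finset.mem_filter] at hm
    exact hm
  -- the number of elements which are not squarefree
  have hns : (P.card : ℝ) - 5 * H.card * (x : ℝ) ^ (1 - η) ≤ (S.card : ℝ) := by
    have h1 : (P.card : ℝ) = S.card + (P.filter (fun m => ¬ Squarefree (PiH H m))).card := by
      rw [hS]
      exact_mod_cast (Finset.card_filter_add_card_filter_not (s := P) (fun m => Squarefree (PiH H m))).symm
    have h2 : ((P.filter (fun m => ¬ Squarefree (PiH H m))).card : ℝ) ≤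
        (((Ioc x (2 * x)).filter (fun m => Rough ((x : ℝ) ^ η) (PiH H m) ∧ ¬ Squarefree (PiH H m))).card : ℝ) := by
      have : (P.filter (fun m => ¬ Squarefree (PiH H m))).card ≤
          ((Ioc x (2 * x)).filter (fun m => Rough ((x : ℝ) ^ η) (PiH H m) ∧ ¬ Squarefree (PiH H m))).card := by
        refine Finset.card_le_card fun m hm => ?_
        rw [Finset.mem_filter] at hm ⊢
        have := hPm m hm.1
        exact ⟨Finset.mem_Ioc.2 ⟨this.1, this.2.1⟩, this.2.2.2.2, hm.2⟩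
      exact_mod_cast this
    have h3 := nonsq htz hz1 htx (by omega)
    have h4 : 2 * (x : ℝ) / (x : ℝ) ^ η = 2 * (x : ℝ) ^ (1 - η) := by
      rw [Real.rpow_sub hx0, Real.rpow_one]; ring
    have h5 : (x : ℝ) ^ (1 / 2 : ℝ) ≤ (x : ℝ) ^ (1 - η) := Real.rpow_le_rpow_of_exponent_le hx1 (by linarith)
    have h6 : Real.sqrt (3 * x) ≤ 2 * (x : ℝ) ^ (1 / 2 : ℝ) := by
      rw [← Real.sqrt_eq_rpow]
      have : Real.sqrt (3 * x) ≤ Real.sqrt (2 ^ 2 * x) := Real.sqrt_le_sqrt (by nlinarith)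
      have h8 : Real.sqrt (2 ^ 2 * (x : ℝ)) = 2 * Real.sqrt x := by
        rw [Real.sqrt_mul (by norm_num : (0 : ℝ) ≤ 2 ^ 2), Real.sqrt_sq (by norm_num)]
      rwa [h8] at this
    have h7 : (1 : ℝ) ≤ (x : ℝ) ^ (1 / 2 : ℝ) := Real.one_le_rpow hx1 (by norm_num)
    rw [h4] at h3
    have h9 : (H.card : ℝ) * (2 * (x : ℝ) ^ (1 - η) + Real.sqrt (3 * x) + 1)
        ≤ H.card * (5 * (x : ℝ) ^ (1 - η)) := mul_le_mul_of_nonneg_left (by linarith) (by positivity)
    have h10 : (H.card : ℝ) * (5 * (x : ℝ) ^ (1 - η)) = 5 * H.card * (x : ℝ) ^ (1 - η) := by ring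
    linarith
  -- the sum of the logarithms
  have hsum : ∑ m ∈ S, ∑ q ∈ cof H m, Real.log (q : ℝ)
      ≤ (((H.card : ℝ) - 1) * (1 / 2 - cs) + a + cs / 8) * L * P.card := by
    have h1 : ∑ m ∈ S, ∑ q ∈ cof H m, Real.log (q : ℝ) ≤ ∑ m ∈ S, ∑ h ∈ H, ∑ q ∈ cofP (m + h), Real.log (q : ℝ) :=
      Finset.sum_le_sum fun m _ => sum_cof_le H m
    rw [Finset.sum_comm, ← Finset.add_sum_erase H _ h0] at h1
    have h2 : ∑ h ∈ H.erase 0, ∑ m ∈ S, ∑ q ∈ cofP (m + h), Real.log (q : ℝ)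
        ≤ ∑ _h ∈ H.erase 0, (1 / 2 - cs) * L * (P.card : ℝ) := Finset.sum_le_sum fun u hu => by
      have h3 := hOV u hu
      rwa [← hS] at h3
    rw [Finset.sum_const, nsmul_eq_mul, Finset.card_erase_of_mem h0] at h2
    have h2' : ((H.card - 1 : ℕ) : ℝ) = (H.card : ℝ) - 1 := by
      rw [Nat.cast_sub (by omega)]
      simp
    rw [h2'] at h2
    have h4 : ∑ m ∈ S, ∑ q ∈ cofP (m + 0), Real.log (q : ℝ) ≤ (a + cs / 8) * L * P.card := by
      have h5 : ∀ m ∈ S, ∑ q ∈ cofP (m + 0), Real.log (q : ℝ) ≤ (a + cs / 8) * L := by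
        intro m hm
        obtain ⟨hmP, hsq⟩ := hSP m hm
        obtain ⟨h6, h7, h8, ⟨p, hp, hpm⟩, h9⟩ := hPm m hmP
        have hm2 : 2 ≤ m + 0 := by omega
        have hsqm : Squarefree (m + 0) := by
          refine Squarefree.squarefree_of_dvd ?_ hsq
          unfold PiH
          exact Finset.dvd_prod_of_mem (fun h => m + h) h0
        rw [V_eq hm2 hsqm]
        unfold BP at hp
        rw [Finset.mem_filter] at hp
        have hpp := hp.2.1
        have hle : p ≤ gpf (m + 0) := le_gpf (Nat.mem_primeFactors.2 ⟨hpp, hpm, by omega⟩)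
        have h10 : (1 - a) * L ≤ Real.log (gpf (m + 0)) := by
          rw [hLdef, ← Real.log_rpow hx0]
          refine Real.log_le_log (by positivity) ?_
          exact hp.2.2.1.le.trans (by exact_mod_cast hle)
        have h11 : Real.log ((m + 0 : ℕ) : ℝ) ≤ Real.log 2 + L := by
          rw [hLdef, ← Real.log_mul (by norm_num) hx0.ne']
          refine Real.log_le_log (by exact_mod_cast (by omega : 0 < m + 0)) ?_
          exact_mod_cast h7
        linarith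
      refine (Finset.sum_le_sum h5).trans ?_
      rw [Finset.sum_const, nsmul_eq_mul]
      have h12 : (S.card : ℝ) ≤ P.card := by
        rw [hS]
        exact_mod_cast Finset.card_filter_le _ _
      have h13 : 0 ≤ (a + cs / 8) * L := by rw [ha]; positivity
      calc (S.card : ℝ) * ((a + cs / 8) * L) ≤ P.card * ((a + cs / 8) * L) := mul_le_mul_of_nonneg_right h12 h13
        _ = _ := by ring
    calc _ ≤ _ := h1
      _ ≤ (a + cs / 8) * L * P.card + ((H.card : ℝ) - 1) * ((1 / 2 - cs) * L * (P.card : ℝ)) := by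
          linarith
      _ = _ := by ring
  -- Markov
  obtain ⟨T, hT⟩ : ∃ T : ℝ, T = (1 - cs) * ((H.card : ℝ) - 1) / 2 := ⟨_, rfl⟩
  have hT0 : 0 < T := by
    rw [hT]
    have : 0 < (1 - cs) * ((H.card : ℝ) - 1) := mul_pos (by linarith) (by linarith)
    linarith
  obtain ⟨Gd, hG⟩ : ∃ Gd : ℕ → Prop, ∀ m, Gd m ↔ ∑ q ∈ cof H m, Real.log (q : ℝ) ≤ T * L :=
    ⟨_, fun m => Iff.rfl⟩
  have hbad : T * L * ((S.filter (fun m => ¬ Gd m)).card : ℝ)
      ≤ (((H.card : ℝ) - 1) * (1 / 2 - cs) + a + cs / 8) * L * P.card := by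
    refine le_trans ?_ hsum
    have h1 : T * L * ((S.filter (fun m => ¬ Gd m)).card : ℝ)
        ≤ ∑ m ∈ S.filter (fun m => ¬ Gd m), ∑ q ∈ cof H m, Real.log (q : ℝ) := by
      have : T * L * ((S.filter (fun m => ¬ Gd m)).card : ℝ)
          = ∑ m ∈ S.filter (fun m => ¬ Gd m), T * L := by
        rw [Finset.sum_const, nsmul_eq_mul, mul_comm]
      rw [this]
      refine Finset.sum_le_sum fun m hm => ?_
      rw [Finset.mem_filter, hG, not_le] at hm
      exact hm.2.le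
    refine h1.trans (Finset.sum_le_sum_of_subset_of_nonneg (Finset.filter_subset _ _) fun m _ _ =>
      Finset.sum_nonneg fun q _ => log_nonneg_nat q)
  have hbad2 : ((S.filter (fun m => ¬ Gd m)).card : ℝ) ≤ (1 - cs / 2) * P.card := by
    have h1 : (((H.card : ℝ) - 1) * (1 / 2 - cs) + a + cs / 8) ≤ T * (1 - cs / 2) := by
      rw [hT, ha]
      have e1 : (1 - cs) * ((H.card : ℝ) - 1) / 2 * (1 - cs / 2)
          = ((H.card : ℝ) - 1) * (1 / 2 - cs) + ((H.card : ℝ) - 1) * (cs / 4 + cs ^ 2 / 4) := by ring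
      rw [e1]
      have e2 : 2 * (cs / 4 + cs ^ 2 / 4) ≤ ((H.card : ℝ) - 1) * (cs / 4 + cs ^ 2 / 4) :=
        mul_le_mul_of_nonneg_right (by linarith) (by positivity)
      nlinarith
    have h2 : (((H.card : ℝ) - 1) * (1 / 2 - cs) + a + cs / 8) * L * P.card ≤ T * (1 - cs / 2) * L * P.card := by
      refine mul_le_mul_of_nonneg_right (mul_le_mul_of_nonneg_right h1 hL.le) (by positivity)
    have h3 : T * L * ((S.filter (fun m => ¬ Gd m)).card : ℝ) ≤ T * L * ((1 - cs / 2) * P.card) := by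
      calc _ ≤ _ := hbad
        _ ≤ _ := h2
        _ = _ := by ring
    exact le_of_mul_le_mul_left h3 (mul_pos hT0 hL)
  have hsplit : (S.card : ℝ) = (S.filter Gd).card + (S.filter (fun m => ¬ Gd m)).card := by
    exact_mod_cast (Finset.card_filter_add_card_filter_not (s := S) Gd).symm
  have hfin : ((S.filter Gd).card : ℝ) ≤ (((Ioc x (2 * x)).filter (fun m => Good H b η cs x m)).card : ℝ) := by
    have : (S.filter Gd).card ≤ ((Ioc x (2 * x)).filter (fun m => Good H b η cs x m)).card := by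
      refine Finset.card_le_card fun m hm => ?_
      rw [Finset.mem_filter] at hm ⊢
      obtain ⟨hmP, hsq⟩ := hSP m hm.1
      obtain ⟨h6, h7, h8, h9, h10⟩ := hPm m hmP
      refine ⟨Finset.mem_Ioc.2 ⟨h6, h7⟩, h6, h7, h8, h10, hsq, ?_⟩
      have h11 := prod_le (by omega : 1 ≤ x) ((hG m).1 hm.2)
      rwa [hT] at h11
    exact_mod_cast this
  linarith

end

end Pool.Agent.Lib.MP3efbeb.TK.DETM

namespace Pool.Agent.Lib.MP3efbeb.TK

open Finset Filter Topology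
open scoped Classical

theorem specDET (hOV : SpecOV) (hLB : SpecLB) (hSG : T.SpecSG) (hGL : SpecGL) : SpecDET := by
  intro H b hadm
  have h0 := hadm.1
  have hk := hadm.2.1
  obtain ⟨cs, hcs0, hcs1, hOV⟩ := hOV H b hadm
  obtain ⟨a, ha⟩ : ∃ a : ℝ, a = cs / 4 := ⟨_, rfl⟩
  have ha0 : 0 < a := by rw [ha]; positivity
  have ha1 : a ≤ 1 / 8 := by rw [ha]; linarith
  obtain ⟨η1, hη1, hOV⟩ := hOV a ha0 ha1
  obtain ⟨η2, hη2, hLB⟩ := hLB H b hadm a (1 / 2) ha0 (by linarith) (by norm_num)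
  obtain ⟨X3, hSG⟩ := hSG a ha0 (by linarith)
  obtain ⟨cG, hcG, hGL⟩ := hGL H
  obtain ⟨η, hη⟩ : ∃ η : ℝ, η = min (min η1 η2) (1 / 2) := ⟨_, rfl⟩
  have hη0 : 0 < η := by rw [hη]; positivity
  have hη1' : η ≤ η1 := by rw [hη]; exact (min_le_left _ _).trans (min_le_left _ _)
  have hη2' : η ≤ η2 := by rw [hη]; exact (min_le_left _ _).trans (min_le_right _ _)
  have hηh : η ≤ 1 / 2 := by rw [hη]; exact min_le_right _ _
  obtain ⟨X1, hOV⟩ := hOV η hη0 hη1'
  obtain ⟨X2, hLB⟩ := hLB η hη0 hη2'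
  have hMk : (0 : ℝ) < Mk H := by
    have h1 : 0 < Mk H := by
      unfold Mk
      refine Finset.prod_pos fun p hp => ?_
      exact Nat.Prime.pos (Finset.mem_filter.1 hp).2
    exact_mod_cast h1
  have hkr : (0 : ℝ) < H.card := by exact_mod_cast (by omega : 0 < H.card)
  -- `#PP ≥ c2 x/(log x)^k`
  obtain ⟨c2, hc2⟩ : ∃ c : ℝ, c = a * cG / (8 * Mk H * η ^ H.card) := ⟨_, rfl⟩
  have hc20 : 0 < c2 := by rw [hc2]; positivity
  have e1 : ∀ᶠ x : ℕ in atTop, max 2 (((H.sup id : ℕ) : ℝ) + 1) ≤ (x : ℝ) ^ η := by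
    have := (tendsto_rpow_atTop hη0).comp tendsto_natCast_atTop_atTop
    exact this.eventually_ge_atTop _
  have e2 : ∀ᶠ x : ℕ in atTop, Real.log (x : ℝ) ^ H.card ≤ (cs * c2 / (20 * H.card)) * (x : ℝ) ^ η := by
    have h1 := (isLittleO_log_rpow_rpow_atTop (H.card : ℝ) hη0).comp_tendsto tendsto_natCast_atTop_atTop
    have h2 := h1.bound (by positivity : 0 < cs * c2 / (20 * H.card))
    filter_upwards [h2, eventually_ge_atTop 2] with x hx hx2
    simp only [Function.comp] at hx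
    have hx1 : (1 : ℝ) ≤ x := by exact_mod_cast (by omega : 1 ≤ x)
    rw [Real.norm_of_nonneg (by positivity : (0 : ℝ) ≤ (x : ℝ) ^ η), Real.rpow_natCast,
      Real.norm_of_nonneg (pow_nonneg (Real.log_nonneg hx1) _)] at hx
    exact hx
  have e3 : ∀ᶠ x : ℕ in atTop, Real.log 2 / (cs / 8) ≤ Real.log (x : ℝ) :=
    (Real.tendsto_log_atTop.comp tendsto_natCast_atTop_atTop).eventually_ge_atTop _
  obtain ⟨X4, hX4⟩ := eventually_atTop.1 (e1.and (e2.and e3))
  refine ⟨η, cs, cs * c2 / 4, hη0, hcs0, by linarith, by positivity, X1 + X2 + X3 + X4 + 10 + H.sup id,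
    fun x hx => ?_⟩
  obtain ⟨h1, h2, h3⟩ := hX4 x (by omega)
  have hxr : (10 : ℝ) ≤ x := by exact_mod_cast (by omega : 10 ≤ x)
  have hx0 : (0 : ℝ) < x := by linarith
  have hL : 0 < Real.log x := Real.log_pos (by linarith)
  have h4 : (2 : ℝ) ≤ (x : ℝ) ^ η := (le_max_left _ _).trans h1
  have h5 : ((H.sup id : ℕ) : ℝ) + 1 ≤ (x : ℝ) ^ η := (le_max_right _ _).trans h1
  have hsup : ∀ h ∈ H, h ≤ H.sup id := fun h hh => Finset.le_sup (f := id) hh
  have hmain := DETM.fixed (H := H) (b := b) (a := a) (η := η) (cs := cs) (x := x) h0 hk (by omega)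
    (fun h hh => by have := hsup h hh; omega) ha hcs0 hcs1 hηh
    (fun h hh => by
      have h6 : (h : ℝ) ≤ ((H.sup id : ℕ) : ℝ) := by exact_mod_cast hsup h hh
      linarith) (by linarith)
    (by
      rw [div_le_iff₀ (by positivity)] at h3
      linarith)
    (fun u hu => hOV x (by omega) u hu)
  -- lower bound for `#PP`
  have hPP : c2 * x / Real.log x ^ H.card ≤ ((PP H b a η x).card : ℝ) := by
    refine le_trans ?_ (hLB x (by omega))
    have h6 := hGL ((x : ℝ) ^ η) h4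
    have h7 := (hSG x (by omega)).1
    rw [Real.log_rpow hx0] at h6
    unfold N0
    have h8 : c2 * x / Real.log x ^ H.card
        = (1 - 1 / 2) * (a / 4 * ((x : ℝ) / Mk H * (cG / (η * Real.log x) ^ H.card))) := by
      rw [hc2, mul_pow]
      field_simp
      ring
    rw [h8]
    have h9 : 0 ≤ (x : ℝ) / Mk H * (cG / (η * Real.log x) ^ H.card) := by positivity
    have h10 : (x : ℝ) / Mk H * (cG / (η * Real.log x) ^ H.card) ≤ (x : ℝ) / Mk H * GG H ((x : ℝ) ^ η) :=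
      mul_le_mul_of_nonneg_left h6 (by positivity)
    refine mul_le_mul_of_nonneg_left ?_ (by norm_num)
    exact mul_le_mul h7 h10 h9 (by linarith)
  have h11 : 5 * H.card * (x : ℝ) ^ (1 - η) ≤ cs * c2 / 4 * x / Real.log x ^ H.card := by
    rw [le_div_iff₀ (by positivity)]
    have h12 : (x : ℝ) ^ (1 - η) * (x : ℝ) ^ η = x := by
      rw [← Real.rpow_add hx0]
      simp
    have h13 : 0 < (x : ℝ) ^ (1 - η) := by positivity
    calc 5 * H.card * (x : ℝ) ^ (1 - η) * Real.log x ^ H.card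
        ≤ 5 * H.card * (x : ℝ) ^ (1 - η) * ((cs * c2 / (20 * H.card)) * (x : ℝ) ^ η) :=
          mul_le_mul_of_nonneg_left h2 (by positivity)
      _ = cs * c2 / 4 * ((x : ℝ) ^ (1 - η) * (x : ℝ) ^ η) := by field_simp; ring
      _ = _ := by rw [h12]
  have h14 : cs / 2 * (c2 * x / Real.log x ^ H.card) ≤ cs / 2 * ((PP H b a η x).card : ℝ) :=
    mul_le_mul_of_nonneg_left hPP (by positivity)
  have h15 : cs / 2 * (c2 * x / Real.log x ^ H.card) = 2 * (cs * c2 / 4 * x / Real.log x ^ H.card) := by ring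
  linarith

end Pool.Agent.Lib.MP3efbeb.TK
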