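import Pool.Agent.Lib.MP_3efbeb_nt.TK.Spec

/-!
# TK: DF, the scales
-/

set_option autoImplicit false

namespace Pool.Agent.Lib.MP3efbeb.TK

open Finset
open scoped Classical
open Pool.Agent.Lib.MP391708.QPA (PB rInd Rough)

namespace DFM

/-- the elements are large, squarefree and have only large prime factors -/
def Big (H : Finset ℕ) (N : ℕ) (S : Finset ℕ) : Prop :=
  ∀ m ∈ S, N ≤ m ∧ Squarefree (PiH H m) ∧ ∀ p : ℕ, p.Prime → p ∣ PiH H m → N ≤ p

/-- one scale -/
lemma scale (hDET : SpecDET) (hPR : SpecPR) (H : Finset ℕ) (b : ℕ) (hadm : Adm H b) (δ : ℝ) (hδ : 0 < δ) (hδ1 : δ ≤ 1) :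
    ∃ K : ℝ, 0 < K ∧ ∀ N : ℕ, ∃ G : Finset ℕ, 0 < G.card ∧ Big H N G ∧
      ∑ m ∈ G, ∑ n ∈ G, RR H δ m n ≤ K * (G.card : ℝ) ^ 2 := by
  obtain ⟨η, c, c₁, hη, hc, hc1, hc₁, X₁, h1⟩ := hDET H b hadm
  obtain ⟨C, hC, X₂, h2⟩ := hPR H b hadm η c δ hη hc hc1 hδ hδ1
  refine ⟨C / c₁ ^ 2, by positivity, fun N => ?_⟩
  have h3 : Filter.Tendsto (fun x : ℕ => (x : ℝ) ^ η) Filter.atTop Filter.atTop :=
    (tendsto_rpow_atTop hη).comp tendsto_natCast_atTop_atTop
  obtain ⟨x, hx, hx2⟩ := ((h3.eventually_ge_atTop (N : ℝ)).and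
    (Filter.eventually_ge_atTop (max (max X₁ X₂) (max N 3)))).exists
  have hx1 : X₁ ≤ x := ((le_max_left _ _).trans (le_max_left _ _)).trans hx2
  have hx2' : X₂ ≤ x := ((le_max_right _ _).trans (le_max_left _ _)).trans hx2
  have hxN : N ≤ x := ((le_max_left _ _).trans (le_max_right _ _)).trans hx2
  have hx3 : 3 ≤ x := ((le_max_right _ _).trans (le_max_right _ _)).trans hx2
  have hx3' : (3 : ℝ) ≤ x := by exact_mod_cast hx3
  have hx0 : (0 : ℝ) < x := by linarith
  have hlog : 0 < Real.log x := Real.log_pos (by linarith)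
  have e1 := h1 x hx1
  have e2 := h2 x hx2'
  set G : Finset ℕ := (Ioc x (2 * x)).filter (fun m => Good H b η c x m) with hG
  have hpos : 0 < c₁ * x / Real.log x ^ H.card := by positivity
  have hc0 : (0 : ℝ) < G.card := lt_of_lt_of_le hpos e1
  refine ⟨G, by exact_mod_cast hc0, ?_, ?_⟩
  · intro m hm
    rw [hG, mem_filter, mem_Ioc] at hm
    obtain ⟨⟨g1, g2⟩, -, -, -, g3, g4, -⟩ := hm
    refine ⟨by omega, g4, fun p hp hd => ?_⟩
    have := g3 p hp hd
    exact_mod_cast hx.trans this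
  · refine e2.trans ?_
    have e3 : (c₁ * x / Real.log x ^ H.card) ^ 2 ≤ (G.card : ℝ) ^ 2 := pow_le_pow_left₀ hpos.le e1 2
    have e4 : C * (x : ℝ) ^ 2 / Real.log x ^ (2 * H.card) = C / c₁ ^ 2 * (c₁ * x / Real.log x ^ H.card) ^ 2 := by
      field_simp
      rw [← pow_mul, mul_comm H.card 2]
    rw [e4]
    exact mul_le_mul_of_nonneg_left e3 (by positivity)

lemma RR_one {H : Finset ℕ} {N : ℕ} {δ : ℝ} {m n : ℕ} (hm : PiH H m ≠ 0) (hmN : PiH H m < N)
    (hn : ∀ p : ℕ, p.Prime → p ∣ PiH H n → N ≤ p) : RR H δ m n = 1 ∧ RR H δ n m = 1 := by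
  have hd : Disjoint (PiH H m).primeFactors (PiH H n).primeFactors := by
    rw [Finset.disjoint_left]
    intro p hp hq
    have hpp := Nat.prime_of_mem_primeFactors hp
    have h1 : p ≤ PiH H m := Nat.le_of_dvd (Nat.pos_of_ne_zero hm) (Nat.dvd_of_mem_primeFactors hp)
    have h2 := hn p hpp (Nat.dvd_of_mem_primeFactors hq)
    omega
  unfold RR
  rw [if_pos hd, if_pos hd.symm]
  exact ⟨rfl, rfl⟩

/-- `J` scales with weights of total mass `J` -/
lemma scales (H : Finset ℕ) (δ K : ℝ) (hK : 0 < K)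
    (h : ∀ N : ℕ, ∃ G : Finset ℕ, 0 < G.card ∧ Big H N G ∧
      ∑ m ∈ G, ∑ n ∈ G, RR H δ m n ≤ K * (G.card : ℝ) ^ 2) (J : ℕ) :
    ∀ N : ℕ, ∃ (S : Finset ℕ) (v : ℕ → ℝ), (∀ m, 0 ≤ v m) ∧ ∑ m ∈ S, v m = J ∧ Big H N S ∧
      ∑ m ∈ S, ∑ n ∈ S, v m * v n * RR H δ m n ≤ (J : ℝ) ^ 2 + K * J := by
  induction J with
  | zero =>
    intro N
    refine ⟨∅, fun _ => 0, fun _ => le_refl _, by simp, ?_, by simp⟩
    intro m hm
    exact absurd hm (Finset.notMem_empty m)
  | succ J ih =>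
    intro N
    obtain ⟨S, v, hv, hv1, hS, hR⟩ := ih N
    set N' : ℕ := N + 1 + ∑ m ∈ S, (PiH H m + m) with hN'
    obtain ⟨G, hG0, hG, hGR⟩ := h N'
    have hc : (0 : ℝ) < G.card := by exact_mod_cast hG0
    have hSlt : ∀ m ∈ S, PiH H m < N' ∧ m < N' := by
      intro m hm
      have h1 : PiH H m + m ≤ ∑ m ∈ S, (PiH H m + m) :=
        single_le_sum (f := fun m => PiH H m + m) (fun _ _ => Nat.zero_le _) hm
      constructor <;> omega
    have hdisj : Disjoint S G := by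
      rw [Finset.disjoint_left]
      intro m hm hmG
      have h1 := (hSlt m hm).2
      have h2 := (hG m hmG).1
      omega
    have hone : ∀ m ∈ S, ∀ n ∈ G, RR H δ m n = 1 ∧ RR H δ n m = 1 := by
      intro m hm n hn
      exact RR_one (hS m hm).2.1.ne_zero (hSlt m hm).1 (hG n hn).2.2
    set w : ℕ → ℝ := fun m => if m ∈ G then 1 / (G.card : ℝ) else v m with hw
    have hwG : ∀ m ∈ G, w m = 1 / (G.card : ℝ) := fun m hm => by
      rw [hw]
      exact if_pos hm
    have hwS : ∀ m ∈ S, w m = v m := fun m hm => by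
      rw [hw]
      exact if_neg fun h => Finset.disjoint_left.1 hdisj hm h
    have hsG : ∑ m ∈ G, w m = 1 := by
      rw [sum_congr rfl hwG, sum_const, nsmul_eq_mul]
      field_simp
    have hsS : ∑ m ∈ S, w m = J := by
      rw [sum_congr rfl hwS, hv1]
    refine ⟨S ∪ G, w, fun m => ?_, ?_, ?_, ?_⟩
    · rw [hw]
      show 0 ≤ if m ∈ G then 1 / (G.card : ℝ) else v m
      split_ifs
      · positivity
      · exact hv m
    · rw [sum_union hdisj, hsG, hsS]
      push_cast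
      ring
    · intro m hm
      rcases mem_union.1 hm with h1 | h1
      · exact hS m h1
      · obtain ⟨g1, g2, g3⟩ := hG m h1
        refine ⟨by omega, g2, fun p hp hd => ?_⟩
        have := g3 p hp hd
        omega
    · have e1 : ∑ m ∈ S, ∑ n ∈ S, w m * w n * RR H δ m n ≤ (J : ℝ) ^ 2 + K * J := by
        refine le_trans (le_of_eq ?_) hR
        exact sum_congr rfl fun m hm => sum_congr rfl fun n hn => by rw [hwS m hm, hwS n hn]
      have e2 : ∑ m ∈ S, ∑ n ∈ G, w m * w n * RR H δ m n = J := by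
        calc ∑ m ∈ S, ∑ n ∈ G, w m * w n * RR H δ m n
            = ∑ m ∈ S, w m * ∑ n ∈ G, w n := by
              refine sum_congr rfl fun m hm => ?_
              rw [mul_sum]
              exact sum_congr rfl fun n hn => by rw [(hone m hm n hn).1, mul_one]
          _ = J := by rw [hsG, ← sum_mul, hsS, mul_one]
      have e3 : ∑ m ∈ G, ∑ n ∈ S, w m * w n * RR H δ m n = J := by
        calc ∑ m ∈ G, ∑ n ∈ S, w m * w n * RR H δ m n
            = ∑ m ∈ G, w m * ∑ n ∈ S, w n := by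
              refine sum_congr rfl fun m hm => ?_
              rw [mul_sum]
              exact sum_congr rfl fun n hn => by rw [(hone n hn m hm).2, mul_one]
          _ = J := by rw [hsS, ← sum_mul, hsG, one_mul]
      have e4 : ∑ m ∈ G, ∑ n ∈ G, w m * w n * RR H δ m n ≤ K := by
        calc ∑ m ∈ G, ∑ n ∈ G, w m * w n * RR H δ m n
            = (1 / (G.card : ℝ)) ^ 2 * ∑ m ∈ G, ∑ n ∈ G, RR H δ m n := by
              rw [mul_sum]
              refine sum_congr rfl fun m hm => ?_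
              rw [mul_sum]
              exact sum_congr rfl fun n hn => by rw [hwG m hm, hwG n hn]; ring
          _ ≤ (1 / (G.card : ℝ)) ^ 2 * (K * (G.card : ℝ) ^ 2) := mul_le_mul_of_nonneg_left hGR (by positivity)
          _ = K := by field_simp
      rw [sum_union hdisj]
      have e5 : ∑ m ∈ S, ∑ n ∈ S ∪ G, w m * w n * RR H δ m n
          = ∑ m ∈ S, ∑ n ∈ S, w m * w n * RR H δ m n + ∑ m ∈ S, ∑ n ∈ G, w m * w n * RR H δ m n := by
        rw [← sum_add_distrib]
        exact sum_congr rfl fun m _ => sum_union hdisj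
      have e6 : ∑ m ∈ G, ∑ n ∈ S ∪ G, w m * w n * RR H δ m n
          = ∑ m ∈ G, ∑ n ∈ S, w m * w n * RR H δ m n + ∑ m ∈ G, ∑ n ∈ G, w m * w n * RR H δ m n := by
        rw [← sum_add_distrib]
        exact sum_congr rfl fun m _ => sum_union hdisj
      rw [e5, e6, e2, e3]
      push_cast
      nlinarith

end DFM

open DFM

theorem specDF (hDET : SpecDET) (hPR : SpecPR) : SpecDF := by
  intro H b hadm δ κ hδ hδ1 hκ N
  obtain ⟨K, hK, h⟩ := scale hDET hPR H b hadm δ hδ hδ1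
  obtain ⟨J, hJ⟩ := exists_nat_gt (K / κ)
  have hJ0 : (0 : ℝ) < J := lt_trans (by positivity) hJ
  obtain ⟨S, v, hv, hv1, hS, hR⟩ := scales H δ K hK h J N
  refine ⟨S, fun m => v m / J, fun m => div_nonneg (hv m) hJ0.le, ?_, hS, ?_⟩
  · rw [← sum_div, hv1, div_self hJ0.ne']
  · have e1 : ∑ m ∈ S, ∑ n ∈ S, v m / J * (v n / J) * RR H δ m n
        = (∑ m ∈ S, ∑ n ∈ S, v m * v n * RR H δ m n) / (J : ℝ) ^ 2 := by
      rw [sum_div]
      refine sum_congr rfl fun m _ => ?_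
      rw [sum_div]
      refine sum_congr rfl fun n _ => ?_
      field_simp
    rw [e1, div_le_iff₀ (by positivity)]
    refine hR.trans ?_
    have e2 : K ≤ κ * J := by
      rw [div_lt_iff₀ hκ] at hJ
      linarith
    nlinarith

end Pool.Agent.Lib.MP3efbeb.TK
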