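import Pool.Agent.Lib.MP_3efbeb_nt.TK.Spec
import Pool.Agent.Lib.MP_3efbeb_nt.T.Prob

/-!
# TK: IO, infinitely many of the events occur almost surely
-/

set_option autoImplicit false

namespace Pool.Agent.Lib.MP3efbeb.TK

open Finset MeasureTheory ProbabilityTheory
open scoped Classical
open Pool.Agent.Lib.MP_3efbeb_nt.T.ProbM

theorem specIO (hPROB : SpecPROB) (hDF : SpecDF) : SpecIO := by
  intro Ω _ μ _ A hA hind δ P₀ H b hδ hδ1 hadm hp
  have hEm : ∀ m, MeasurableSet (EE A H m) := fun m => measurableSet_Ev A hA (cof H m) (top H m)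
  set U : ℕ → Set Ω := fun N => ⋃ m ∈ {m : ℕ | N ≤ m ∧ Squarefree (PiH H m)}, EE A H m with hU
  have hUm : ∀ N, MeasurableSet (U N) := fun N =>
    MeasurableSet.biUnion (Set.to_countable _) fun m _ => hEm m
  have h1 : ∀ N, μ.real (U N) = 1 := by
    intro N
    refine le_antisymm measureReal_le_one ?_
    refine le_of_forall_pos_lt_add fun ζ hζ => ?_
    obtain ⟨S, w, hw, hw1, hS, hR⟩ := hDF H b hadm δ ζ hδ hδ1.le hζ (max N (max P₀ 2))
    have e1 := hPROB Ω μ A hA hind δ ζ (max P₀ 1) H S w hδ hδ1 hζ (le_max_right _ _)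
      (fun p hpp hP => hp p hpp ((le_max_left _ _).trans hP)) hw hw1
      (fun m hm => by
        obtain ⟨g1, g2, g3⟩ := hS m hm
        refine ⟨?_, g2, fun p hpp hd => ?_⟩
        · exact ((le_max_right _ _).trans (le_max_right _ _)).trans g1
        · have g4 := g3 p hpp hd
          have g5 : P₀ ≤ p := ((le_max_left _ _).trans (le_max_right _ _)).trans g4
          exact max_le g5 hpp.one_lt.le) hR
    have e0 : (⋃ m ∈ S, EE A H m) ⊆ U N := by
      refine Set.iUnion₂_subset fun m hm => ?_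
      exact Set.subset_biUnion_of_mem (u := fun m => EE A H m)
        (show m ∈ {m : ℕ | N ≤ m ∧ Squarefree (PiH H m)} from ⟨(le_max_left _ _).trans (hS m hm).1, (hS m hm).2.1⟩)
    have e2 : μ.real (⋃ m ∈ S, EE A H m) ≤ μ.real (U N) := measureReal_mono e0 (measure_ne_top _ _)
    have e3 : 1 / (1 + ζ) ≤ μ.real (U N) := e1.trans e2
    rw [div_le_iff₀ (by linarith)] at e3
    have e5 : μ.real (U N) ≤ 1 := measureReal_le_one
    nlinarith
  have h2 : ∀ᵐ ω ∂μ, ∀ N, ω ∈ U N := by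
    rw [ae_all_iff]
    intro N
    refine (mem_ae_iff_prob_eq_one (hUm N)).2 ?_
    have h3 := h1 N
    rw [Measure.real, ENNReal.toReal_eq_one_iff] at h3
    exact h3
  filter_upwards [h2] with ω hω N
  have h4 := hω N
  rw [hU] at h4
  simp only [Set.mem_iUnion, Set.mem_ofPred_eq] at h4
  obtain ⟨m, ⟨hm1, hm2⟩, hm3⟩ := h4
  exact ⟨m, hm1, hm2, hm3⟩

end Pool.Agent.Lib.MP3efbeb.TK
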