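import Pool.Agent.Lib.MP_3efbeb_nt.TK.NUM

/-!
# MP_3efbeb_nt, line T(k): LB (and the common lemma of LB and A1)
-/

set_option autoImplicit false

namespace Pool.Agent.Lib.MP3efbeb.TK

open Finset
open scoped Classical
open Pool.Agent.Lib.MP391708.QPA (PB rInd Rough)
open Pool.Agent.Lib.MP3efbeb.T (BP sg gpf cofP RS PrimeIn SpecSG)

namespace LBM

open NUM

theorem tend_rpow {e : ℝ} (he : 0 < e) (K : ℝ) : ∃ X₀ : ℕ, ∀ x : ℕ, X₀ ≤ x → K ≤ (x : ℝ) ^ e := by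
  have h := ((tendsto_rpow_atTop he).comp tendsto_natCast_atTop_atTop).eventually_ge_atTop K
  rw [Filter.eventually_atTop] at h
  obtain ⟨X₀, h⟩ := h
  exact ⟨X₀, fun x hx => h x hx⟩

theorem log_bound {e : ℝ} (he : 0 < e) {x : ℕ} (hx : 1 ≤ x) :
    1 + Real.log x ≤ (1 + 1 / e) * (x : ℝ) ^ e := by
  have hx1 : (1 : ℝ) ≤ x := by exact_mod_cast hx
  have h1 := Real.log_le_rpow_div (show (0 : ℝ) ≤ x by linarith) he
  have h2 := Real.one_le_rpow hx1 he.le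
  have h3 : (x : ℝ) ^ e / e = 1 / e * (x : ℝ) ^ e := by ring
  rw [h3] at h1
  linarith

theorem exists_b {C κ : ℝ} (hC : 0 < C) (hκ : 0 < κ) : ∃ b : ℕ, C * Real.exp (-(b : ℝ)) ≤ κ / 2 := by
  refine ⟨⌈Real.log (2 * C / κ)⌉₊, ?_⟩
  have h1 : Real.log (2 * C / κ) ≤ (⌈Real.log (2 * C / κ)⌉₊ : ℝ) := Nat.le_ceil _
  have h2 : Real.exp (-(⌈Real.log (2 * C / κ)⌉₊ : ℝ)) ≤ Real.exp (-(Real.log (2 * C / κ))) :=
    Real.exp_le_exp.2 (by linarith)
  rw [Real.exp_neg (Real.log (2 * C / κ)), Real.exp_log (by positivity)] at h2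
  have h3 := mul_le_mul_of_nonneg_left h2 hC.le
  refine h3.trans (le_of_eq ?_)
  field_simp

/-- the error term of one `δ` -/
theorem rem_le {H : Finset ℕ} {b : ℕ} (hA : Adm H b) {a : ℝ} {x : ℕ} {Y : ℝ}
    (hCL : ∀ M : ℕ, 1 ≤ M → Nat.Coprime M (Mk H) → (M : ℝ) ≤ (x : ℝ) ^ (3 / 4 : ℝ) → ∀ R : Finset ℕ, R ⊆ range M →
      |(((MM (Mk H) b a x).filter (fun m => m % M ∈ R)).card : ℝ) - (x : ℝ) / (Mk H : ℕ) * sg a x * ((R.card : ℝ) / M)|
        ≤ 2 * R.card * Y) (hY : 0 ≤ Y)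
    {u q δ : ℕ} (hq : 0 < q) (hq30 : Nat.Coprime q (Mk H)) (hδ : Squarefree δ) (hqd : Nat.Coprime q δ)
    (hsz : ((q * δ : ℕ) : ℝ) ≤ (x : ℝ) ^ (3 / 4 : ℝ)) :
    |(∑ i ∈ ((MM (Mk H) b a x).filter (fun m => q ∣ m + u)).filter (fun i => δ ∣ PiH H i), (1 : ℝ))
      - (x : ℝ) / (Mk H : ℕ) * sg a x / q * ∏ p ∈ δ.primeFactors, gg H p| ≤ 2 * δ * Y := by
  have hδ0 : 0 < δ := Nat.pos_of_ne_zero hδ.ne_zero
  by_cases h30 : Nat.Coprime δ (Mk H)
  · have h := hCL (q * δ) (Nat.succ_le_of_lt (by positivity)) (Nat.Coprime.mul_left hq30 h30) hsz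
      (RR2 H u q δ) (filter_subset _ _)
    rw [card_RR2 H u hqd hq hδ0] at h
    rw [prod_gg_of_coprime H hδ h30]
    have e1 : ((MM (Mk H) b a x).filter (fun m => q ∣ m + u)).filter (fun i => δ ∣ PiH H i)
        = (MM (Mk H) b a x).filter (fun m => m % (q * δ) ∈ RR2 H u q δ) := by
      ext m
      simp only [mem_filter, mem_RR2 H u hq hδ0, and_assoc]
    rw [e1, sum_const, nsmul_eq_mul, mul_one]
    have hq' : (0 : ℝ) < q := by exact_mod_cast hq
    have hδ' : (0 : ℝ) < δ := by exact_mod_cast hδ0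
    have e2 : (x : ℝ) / (Mk H : ℕ) * sg a x / q * ((nu H δ : ℝ) / δ)
        = (x : ℝ) / (Mk H : ℕ) * sg a x * ((nu H δ : ℝ) / ((q * δ : ℕ) : ℝ)) := by
      push_cast
      field_simp
    rw [e2]
    refine h.trans ?_
    have h1 : (nu H δ : ℝ) ≤ δ := by exact_mod_cast nu_le H δ
    have h2 := mul_le_mul_of_nonneg_right h1 hY
    linarith
  · rw [prod_gg_of_not_coprime H hδ.ne_zero h30, mul_zero, sub_zero]
    have e1 : ((MM (Mk H) b a x).filter (fun m => q ∣ m + u)).filter (fun i => δ ∣ PiH H i) = ∅ := by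
      rw [eq_empty_iff_forall_notMem]
      intro m hm
      rw [mem_filter, mem_filter] at hm
      obtain ⟨⟨h1, _⟩, h2⟩ := hm
      unfold MM at h1
      rw [mem_filter] at h1
      exact h30 (coprime_of_adm hA h1.2.1 h2)
    rw [e1, sum_empty, abs_zero]
    positivity

theorem gen (hFLK : Odd.SpecFLK) (hCL : SpecCL) (hGL : SpecGL) (hSG : SpecSG) :
    ∀ (H : Finset ℕ) (b : ℕ), Adm H b → ∀ a κ : ℝ, 0 < a → a ≤ 1 / 4 → 0 < κ → ∃ η₀ : ℝ, 0 < η₀ ∧
      ∀ η : ℝ, 0 < η → η ≤ η₀ → ∃ X₀ : ℕ, ∀ x : ℕ, X₀ ≤ x → ∀ u q : ℕ,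
        (q = 1 ∨ (q.Prime ∧ (x : ℝ) ^ η ≤ q ∧ (q : ℝ) ≤ (x : ℝ) ^ (a / 8))) →
        |(((PP H b a η x).filter (fun m => q ∣ m + u)).card : ℝ) - sg a x * N0 H η x / q|
          ≤ κ * (sg a x * N0 H η x / q) := by
  intro H b hA a κ ha ha4 hκ
  obtain ⟨C, hC, hF⟩ := hFLK H.card
  set k : ℕ := H.card with hk
  have hQ0 : (0 : ℝ) < (Mk H : ℕ) := by exact_mod_cast Mk_pos H
  obtain ⟨b', hb'⟩ := exists_b hC hκ
  obtain ⟨c, hc, hG⟩ := hGL H
  obtain ⟨X₁, hX₁⟩ := hCL (Mk H) (Mk_pos H) a ha ha4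
  obtain ⟨X₂, hX₂⟩ := hSG a ha ha4
  set E : ℕ := 8 * b' + 16 with hE
  have hE0 : (0 : ℝ) < E := by rw [hE]; positivity
  refine ⟨min 1 (a / (16 * E)), by positivity, ?_⟩
  intro η hη hη'
  have hη1 : η ≤ 1 := hη'.trans (min_le_left _ _)
  have hηE : η * E ≤ a / 16 := by
    have h1 := hη'.trans (min_le_right _ _)
    rw [le_div_iff₀ (by positivity)] at h1
    linarith
  obtain ⟨X₃, hX₃⟩ := tend_rpow hη (max 6 (2 * k + 1))
  have hk1 : (0 : ℝ) < (k : ℝ) + 1 := by positivity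
  obtain ⟨e, he⟩ : ∃ e : ℝ, e = a / (8 * ((k : ℝ) + 1)) := ⟨_, rfl⟩
  have he0 : 0 < e := by rw [he]; positivity
  obtain ⟨X₄, hX₄⟩ := tend_rpow (show 0 < a / 8 by positivity)
    (16 * (Mk H : ℕ) * C * (1 + 1 / e) ^ (k + 1) / (κ * a * c))
  refine ⟨max (max X₁ X₂) (max (max X₃ X₄) 2), ?_⟩
  intro x hx u q hq
  simp only [max_le_iff] at hx
  obtain ⟨⟨hx1, hx2⟩, ⟨hx3, hx4⟩, hx5⟩ := hx
  have hxr : (2 : ℝ) ≤ x := by exact_mod_cast hx5
  have hx0 : (0 : ℝ) < x := by linarith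
  have hx1' : (1 : ℝ) ≤ x := by linarith
  set z : ℝ := (x : ℝ) ^ η with hz
  have hz6 : 6 ≤ z := (le_max_left _ _).trans (hX₃ x hx3)
  have hzk : 2 * (k : ℝ) + 1 ≤ z := (le_max_right _ _).trans (hX₃ x hx3)
  have hz0 : 0 < z := by linarith
  set Y : ℝ := (x : ℝ) ^ (1 - a / 2) with hYd
  have hY0 : 0 < Y := Real.rpow_pos_of_pos hx0 _
  -- facts on q
  have hq0 : 0 < q := by
    rcases hq with h | h
    · omega
    · exact h.1.pos
  have hqr : (0 : ℝ) < q := by exact_mod_cast hq0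
  have hqu : (q : ℝ) ≤ (x : ℝ) ^ (a / 8) := by
    rcases hq with h | h
    · rw [h, Nat.cast_one]
      exact Real.one_le_rpow hx1' (by positivity)
    · exact h.2.2
  have hq30 : Nat.Coprime q (Mk H) := by
    rcases hq with h | h
    · rw [h]; exact Nat.coprime_one_left _
    · have h6 : 2 * (k : ℝ) + 1 ≤ q := hzk.trans h.2.1
      have h6' : 2 * k + 1 ≤ q := by exact_mod_cast h6
      rw [coprimeMk]
      intro p hp hpk hd
      rcases (Nat.dvd_prime h.1).1 hd with h' | h'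
      · exact hp.ne_one h'
      · omega
  have hqd : ∀ δ : ℕ, (∀ p : ℕ, p.Prime → p ∣ δ → (p : ℝ) < z) → Nat.Coprime q δ := by
    intro δ hδ
    rcases hq with h | h
    · rw [h]; exact Nat.coprime_one_left _
    · rw [Nat.Prime.coprime_iff_not_dvd h.1]
      intro hd
      exact absurd (hδ q h.1 hd) (not_lt.2 h.2.1)
  -- the size of D
  set D : ℝ := z ^ E with hD
  have hD0 : 0 < D := by positivity
  have hDx : D ≤ (x : ℝ) ^ (a / 16) := by
    rw [hD, hz, ← Real.rpow_natCast, ← Real.rpow_mul hx0.le]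
    exact Real.rpow_le_rpow_of_exponent_le hx1' hηE
  -- apply the fundamental lemma
  have hsg := (hX₂ x hx2).1
  have hsg0 : 0 < sg a x := lt_of_lt_of_le (by positivity) hsg
  set X : ℝ := (x : ℝ) / (Mk H : ℕ) * sg a x / q with hX
  have hX0 : 0 < X := by positivity
  have key := hF b' z (by linarith) ((MM (Mk H) b a x).filter (fun m => q ∣ m + u)) (fun m => PiH H m)
    (fun _ => 1) X (gg H) hX0.le (fun _ _ => zero_le_one)
    (fun p hp => ⟨gg_nonneg H p, gg_le H hp, gg_le_half H hp⟩)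
  -- the error sum
  have herr : ∑ δ ∈ (Icc 1 ⌊z ^ (8 * b' + 16)⌋₊).filter
          (fun δ => Squarefree δ ∧ ∀ p : ℕ, p.Prime → p ∣ δ → (p : ℝ) < z),
          |(∑ i ∈ ((MM (Mk H) b a x).filter (fun m => q ∣ m + u)).filter (fun i => δ ∣ PiH H i), (1 : ℝ))
            - X * ∏ p ∈ δ.primeFactors, gg H p| ≤ D * (2 * D * Y) := by
    have h1 : ∀ δ ∈ (Icc 1 ⌊z ^ (8 * b' + 16)⌋₊).filter
          (fun δ => Squarefree δ ∧ ∀ p : ℕ, p.Prime → p ∣ δ → (p : ℝ) < z),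
          |(∑ i ∈ ((MM (Mk H) b a x).filter (fun m => q ∣ m + u)).filter (fun i => δ ∣ PiH H i), (1 : ℝ))
            - X * ∏ p ∈ δ.primeFactors, gg H p| ≤ 2 * D * Y := by
      intro δ hδ
      rw [mem_filter, mem_Icc] at hδ
      obtain ⟨⟨hδ1, hδ2⟩, hδs, hδp⟩ := hδ
      have hδD : (δ : ℝ) ≤ D := (Nat.le_floor_iff hD0.le).1 hδ2
      have hsz : ((q * δ : ℕ) : ℝ) ≤ (x : ℝ) ^ (3 / 4 : ℝ) := by
        push_cast
        calc (q : ℝ) * δ ≤ (x : ℝ) ^ (a / 8) * (x : ℝ) ^ (a / 16) :=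
              mul_le_mul hqu (hδD.trans hDx) (by positivity) (by positivity)
          _ = (x : ℝ) ^ (a / 8 + a / 16) := by rw [Real.rpow_add hx0]
          _ ≤ (x : ℝ) ^ (3 / 4 : ℝ) := Real.rpow_le_rpow_of_exponent_le hx1' (by linarith)
      have h2 := rem_le hA (a := a) (x := x) (Y := Y)
        (hX₁ x hx1 b hA.2.2.1 (coprime_b hA)) hY0.le (u := u) hq0 hq30 hδs (hqd δ hδp) hsz
      refine h2.trans ?_
      have := mul_le_mul_of_nonneg_right hδD hY0.le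
      linarith
    refine (sum_le_sum h1).trans ?_
    rw [sum_const, nsmul_eq_mul]
    refine mul_le_mul_of_nonneg_right ?_ (by positivity)
    have h2 := card_filter_le (Icc 1 ⌊z ^ (8 * b' + 16)⌋₊)
      (fun δ => Squarefree δ ∧ ∀ p : ℕ, p.Prime → p ∣ δ → (p : ℝ) < z)
    rw [Nat.card_Icc, Nat.add_sub_cancel] at h2
    have h3 : ((((Icc 1 ⌊z ^ (8 * b' + 16)⌋₊).filter
      (fun δ => Squarefree δ ∧ ∀ p : ℕ, p.Prime → p ∣ δ → (p : ℝ) < z)).card : ℕ) : ℝ)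
        ≤ (⌊z ^ (8 * b' + 16)⌋₊ : ℝ) := by exact_mod_cast h2
    exact h3.trans (Nat.floor_le (by positivity))
  -- sizes
  have hlogx : 0 < Real.log x := Real.log_pos (by linarith)
  have hlogz : 0 < Real.log z := Real.log_pos (by linarith)
  have hlzx : Real.log z ≤ Real.log x := by
    rw [hz, Real.log_rpow hx0]
    nlinarith
  set G : ℝ := ∏ p ∈ PB z, (1 - gg H p) with hGd
  have hGlow : c / Real.log x ^ k ≤ G := by
    have h1 := hG z (by linarith)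
    refine le_trans ?_ h1
    exact div_le_div_of_nonneg_left hc.le (by positivity) (by gcongr)
  have hG0 : 0 < G := lt_of_lt_of_le (by positivity) hGlow
  have hXG : X * G = sg a x * N0 H η x / q := by
    rw [hX]; unfold N0 GG
    rw [← hz, ← hGd]
    ring
  have hsum : ∑ i ∈ (MM (Mk H) b a x).filter (fun m => q ∣ m + u), (1 : ℝ) * rInd z (PiH H i)
      = (((PP H b a η x).filter (fun m => q ∣ m + u)).card : ℝ) := by
    unfold PP rInd
    rw [← hz]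
    simp only [one_mul]
    rw [← sum_filter, sum_const, nsmul_eq_mul, mul_one, filter_filter, filter_filter]
    congr 2
    ext m
    simp only [mem_filter]
    tauto
  have herr2 : C * (1 + Real.log z) * (D * (2 * D * Y)) ≤ κ / 2 * (X * G) := by
    have hD2 : D * D ≤ (x : ℝ) ^ (a / 8) := by
      calc D * D ≤ (x : ℝ) ^ (a / 16) * (x : ℝ) ^ (a / 16) := by gcongr
        _ = (x : ℝ) ^ (a / 8) := by rw [← Real.rpow_add hx0]; congr 1; ring
    have hl := log_bound he0 (x := x) (by omega)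
    have hl1 : 1 + Real.log z ≤ 1 + Real.log x := by linarith
    set W : ℝ := (x : ℝ) ^ (a / 8) with hW
    have hW0 : 0 < W := Real.rpow_pos_of_pos hx0 _
    have hYW : (x : ℝ) = Y * W ^ 4 := by
      rw [hYd, hW, ← Real.rpow_natCast, ← Real.rpow_mul hx0.le, ← Real.rpow_add hx0]
      rw [show 1 - a / 2 + a / 8 * ((4 : ℕ) : ℝ) = 1 by push_cast; ring, Real.rpow_one]
    have hL4 : (1 + Real.log x) * Real.log x ^ k ≤ (1 + 1 / e) ^ (k + 1) * W := by
      have h1 : Real.log x ≤ (1 + 1 / e) * (x : ℝ) ^ e := by linarith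
      have h2 : Real.log x ^ k ≤ ((1 + 1 / e) * (x : ℝ) ^ e) ^ k :=
        pow_le_pow_left₀ hlogx.le h1 k
      have h3 : (1 + Real.log x) * Real.log x ^ k
          ≤ ((1 + 1 / e) * (x : ℝ) ^ e) * ((1 + 1 / e) * (x : ℝ) ^ e) ^ k :=
        mul_le_mul hl h2 (by positivity) (by positivity)
      have h4 : W = ((x : ℝ) ^ e) ^ (k + 1) := by
        rw [hW, ← Real.rpow_natCast, ← Real.rpow_mul hx0.le]
        congr 1; rw [he]; push_cast; field_simp
      rw [h4]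
      refine h3.trans (le_of_eq ?_)
      rw [← mul_pow, pow_succ, mul_comm]
    have hbig := hX₄ x hx4
    rw [div_le_iff₀ (by positivity)] at hbig
    -- lower bound for X G
    have hXGl : (a * c / (4 * (Mk H : ℕ))) * (Y * W ^ 3) / Real.log x ^ k ≤ X * G := by
      have h1 : (a / (4 * (Mk H : ℕ))) * (Y * W ^ 3) ≤ X := by
        rw [hX]
        rw [le_div_iff₀ hqr]
        calc a / (4 * (Mk H : ℕ)) * (Y * W ^ 3) * q ≤ a / (4 * (Mk H : ℕ)) * (Y * W ^ 3) * W := by gcongr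
          _ = (Y * W ^ 4) / (Mk H : ℕ) * (a / 4) := by field_simp
          _ = (x : ℝ) / (Mk H : ℕ) * (a / 4) := by rw [← hYW]
          _ ≤ (x : ℝ) / (Mk H : ℕ) * sg a x := by gcongr
      calc (a * c / (4 * (Mk H : ℕ))) * (Y * W ^ 3) / Real.log x ^ k
          = ((a / (4 * (Mk H : ℕ))) * (Y * W ^ 3)) * (c / Real.log x ^ k) := by ring
        _ ≤ X * G := mul_le_mul h1 hGlow (by positivity) hX0.le
    refine le_trans ?_ (mul_le_mul_of_nonneg_left hXGl (by positivity))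
    rw [mul_div_assoc', le_div_iff₀ (by positivity)]
    calc C * (1 + Real.log z) * (D * (2 * D * Y)) * Real.log x ^ k
        = (2 * C * Y) * ((1 + Real.log z) * Real.log x ^ k) * (D * D) := by ring
      _ ≤ (2 * C * Y) * ((1 + Real.log x) * Real.log x ^ k) * W := by gcongr
      _ ≤ (2 * C * Y) * ((1 + 1 / e) ^ (k + 1) * W) * W := by gcongr
      _ = (Y * W ^ 2) / (8 * (Mk H : ℕ)) * (16 * (Mk H : ℕ) * C * (1 + 1 / e) ^ (k + 1)) := by
          generalize (1 + 1 / e) ^ (k + 1) = T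
          field_simp; ring
      _ ≤ (Y * W ^ 2) / (8 * (Mk H : ℕ)) * (W * (κ * a * c)) := by gcongr
      _ = κ / 2 * ((a * c / (4 * (Mk H : ℕ))) * (Y * W ^ 3)) := by ring
  -- conclusion
  have key2 := key
  rw [hsum] at key2
  rw [← hXG]
  refine key2.trans ?_
  have h1 : C * (1 + Real.log z) * _ ≤ C * (1 + Real.log z) * (D * (2 * D * Y)) :=
    mul_le_mul_of_nonneg_left herr (by positivity)
  have h2 : C * Real.exp (-(b' : ℝ)) * X * G ≤ κ / 2 * (X * G) := by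
    rw [mul_assoc (C * Real.exp (-(b' : ℝ)))]
    exact mul_le_mul_of_nonneg_right hb' (by positivity)
  have h3 : κ / 2 * (X * G) + κ / 2 * (X * G) = κ * (X * G) := by ring
  rw [← h3]
  exact add_le_add h2 (h1.trans herr2)

end LBM

open LBM in
theorem specLB (hFLK : Odd.SpecFLK) (hCL : SpecCL) (hGL : SpecGL) (hSG : SpecSG) : SpecLB := by
  intro H b hA a κ ha ha4 hκ
  obtain ⟨η₀, hη₀, h⟩ := gen hFLK hCL hGL hSG H b hA a κ ha ha4 hκ
  refine ⟨η₀, hη₀, ?_⟩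
  intro η hη hη'
  obtain ⟨X₀, hX⟩ := h η hη hη'
  refine ⟨X₀, ?_⟩
  intro x hx
  have h1 := hX x hx 0 1 (Or.inl rfl)
  have e : (PP H b a η x).filter (fun m => 1 ∣ m + 0) = PP H b a η x := by
    apply filter_true_of_mem
    intro m _
    exact one_dvd _
  rw [e, Nat.cast_one, div_one] at h1
  have h2 := (abs_le.1 h1).1
  linarith

end Pool.Agent.Lib.MP3efbeb.TK
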