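import Pool.Agent.Lib.MP_3efbeb_nt.TK.Spec
import Pool.Agent.Lib.MP_3efbeb_nt.Odd.CRT

/-!
# TK: MAIN1, prime tuples in almost every ring `ℤ[1/S]`
-/

set_option autoImplicit false

namespace Pool.Agent.Lib.MP3efbeb.TK

open Finset MeasureTheory ProbabilityTheory
open scoped Classical
open Pool.Agent.Lib.MP3efbeb.T (gpf cofP PrimeIn SpecRING)

namespace MAIN1M

/-- `H` covers no prime -/
def Admis (H : Finset ℕ) : Prop := ∀ p : ℕ, p.Prime → ∃ r : ℕ, ∀ h ∈ H, ¬ p ∣ r + h

/-- small sets do not cover -/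
lemma avoid (H : Finset ℕ) (p : ℕ) (hc : H.card < p) : ∃ r : ℕ, ∀ h ∈ H, ¬ p ∣ r + h := by
  have hp : 0 < p := by omega
  have h1 : (H.image fun h => (p - h % p) % p).card < (range p).card := by
    rw [card_range]
    exact lt_of_le_of_lt card_image_le hc
  obtain ⟨r, hr, hr'⟩ := Finset.exists_mem_notMem_of_card_lt_card h1
  refine ⟨r, fun h hh hd => hr' ?_⟩
  rw [mem_image]
  refine ⟨h, hh, ?_⟩
  have hrp : r < p := mem_range.1 hr
  have hm : h % p < p := Nat.mod_lt _ hp
  have h2 : p ∣ r + h % p := by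
    have h3 : r + h ≡ r + h % p [MOD p] := Nat.ModEq.add_left r (Nat.mod_modEq h p).symm
    exact (h3.dvd_iff (dvd_refl p)).1 hd
  rcases Nat.eq_zero_or_pos (h % p) with h0 | h0
  · rw [h0, add_zero] at h2
    rw [h0, Nat.sub_zero, Nat.mod_self]
    rcases Nat.eq_zero_or_pos r with hr0 | hr0
    · exact hr0.symm
    · exact absurd (Nat.le_of_dvd hr0 h2) (by omega)
  · rw [Nat.mod_eq_of_lt (by omega)]
    obtain ⟨c, hc⟩ := h2
    have hc1 : c = 1 := by
      rcases Nat.lt_or_ge c 1 with h4 | h4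
      · have : c = 0 := by omega
        rw [this, mul_zero] at hc
        omega
      · rcases Nat.lt_or_ge 1 c with h5 | h5
        · have : p * 2 ≤ p * c := Nat.mul_le_mul_left p h5
          omega
        · omega
    rw [hc1, mul_one] at hc
    omega

/-- one more element -/
lemma ext1 (H : Finset ℕ) (hH : Admis H) (hc : H.card ≤ 2) :
    ∃ H' : Finset ℕ, H ⊆ H' ∧ H'.card = H.card + 1 ∧ Admis H' := by
  rcases H.eq_empty_or_nonempty with h0 | ⟨a, ha⟩
  · subst h0
    refine ⟨{0}, empty_subset _, by simp, fun p hp => ?_⟩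
    exact avoid _ p (by rw [card_singleton]; exact hp.one_lt)
  · set c : ℕ := a + 6 * (H.sup id + 1) with hcdef
    have hcH : c ∉ H := by
      intro h
      have : c ≤ H.sup id := le_sup (f := id) h
      omega
    refine ⟨insert c H, subset_insert _ _, card_insert_of_notMem hcH, fun p hp => ?_⟩
    by_cases h5 : 5 ≤ p
    · exact avoid _ p (by rw [card_insert_of_notMem hcH]; omega)
    · obtain ⟨r, hr⟩ := hH p hp
      refine ⟨r, fun h hh => ?_⟩
      rcases mem_insert.1 hh with rfl | hh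
      · intro hd
        have h6 : p ∣ 6 := by
          have h2 := hp.two_le
          have h4 : p ≠ 4 := by
            rintro rfl
            exact absurd hp (by norm_num)
          interval_cases p
          · norm_num
          · norm_num
          · exact absurd rfl h4
        have h7 : p ∣ 6 * (H.sup id + 1) := h6.mul_right _
        have h8 : r + (a + 6 * (H.sup id + 1)) = (r + a) + 6 * (H.sup id + 1) := by ring
        rw [h8] at hd
        exact hr a ha ((Nat.dvd_add_left h7).1 hd)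
      · exact hr h hh

/-- small sets are contained in sets with three elements -/
lemma ext3 (H : Finset ℕ) (hH : Admis H) (hc : H.card ≤ 3) :
    ∃ H' : Finset ℕ, H ⊆ H' ∧ H'.card = 3 ∧ Admis H' := by
  obtain ⟨j, hj⟩ : ∃ j, j = 3 - H.card := ⟨_, rfl⟩
  induction j generalizing H with
  | zero => exact ⟨H, Subset.refl _, by omega, hH⟩
  | succ j ih =>
    obtain ⟨H₁, h1, h2, h3⟩ := ext1 H hH (by omega)
    obtain ⟨H', g1, g2, g3⟩ := ih H₁ h3 (by omega) (by omega)
    exact ⟨H', h1.trans g1, g2, g3⟩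

/-- the translate which contains `0`, and its class -/
lemma translate (H : Finset ℕ) (hH : Admis H) (hc : 3 ≤ H.card) :
    ∃ (a : ℕ) (H₀ : Finset ℕ) (b : ℕ), Adm H₀ b ∧ H₀.card = H.card ∧ ∀ h ∈ H, a ≤ h ∧ h - a ∈ H₀ := by
  have hne : H.Nonempty := card_pos.1 (by omega)
  set a := H.min' hne with ha
  set H₀ := H.image (fun h => h - a) with hH₀
  have hle : ∀ h ∈ H, a ≤ h := fun h hh => min'_le H h hh
  have hcard : H₀.card = H.card := by
    rw [hH₀]
    refine card_image_of_injOn fun x hx y hy hxy => ?_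
    have h1 := hle x hx
    have h2 := hle y hy
    have h3 : x - a = y - a := hxy
    omega
  have hadm : Odd.Admissible H₀ := by
    intro p hp
    obtain ⟨r, hr⟩ := hH p hp
    refine ⟨r + a, fun h hh hd => ?_⟩
    rw [hH₀, mem_image] at hh
    obtain ⟨h', hh', rfl⟩ := hh
    have h1 := hle h' hh'
    rw [show r + a + (h' - a) = r + h' by omega] at hd
    exact hr h' hh' hd
  obtain ⟨y0, -, hy⟩ := Odd.specCRT H₀ hadm (2 * H₀.card)
  have hMk : 0 < Mk H₀ := prod_pos fun p hp => (mem_filter.1 hp).2.pos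
  refine ⟨a, H₀, y0 % Mk H₀, ⟨?_, by omega, Nat.mod_lt _ hMk, ?_⟩, hcard, fun h hh => ⟨hle h hh, ?_⟩⟩
  · rw [hH₀, mem_image]
    exact ⟨a, min'_mem H hne, Nat.sub_self a⟩
  · have key : ∀ p ∈ (range (2 * H₀.card + 1)).filter Nat.Prime, Nat.Coprime (PiH H₀ (y0 % Mk H₀)) p := by
      intro p hp
      have hpp := (mem_filter.1 hp).2
      have hp2 : p ≤ 2 * H₀.card := by
        have := mem_range.1 (mem_filter.1 hp).1
        omega
      rw [Nat.coprime_comm, hpp.coprime_iff_not_dvd]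
      intro hd
      unfold PiH at hd
      obtain ⟨h, hh, hd'⟩ := (hpp.prime.dvd_finsetProd_iff _).1 hd
      have hpM : p ∣ Mk H₀ := dvd_prod_of_mem (fun p => p) hp
      have e : y0 % Mk H₀ ≡ y0 [MOD p] := (Nat.mod_modEq y0 (Mk H₀)).of_dvd hpM
      have e2 : y0 % Mk H₀ + h ≡ y0 + h [MOD p] := Nat.ModEq.add_right h e
      exact hy p hpp hp2 h hh ((e2.dvd_iff (dvd_refl p)).1 hd')
    unfold Mk at key ⊢
    exact Nat.Coprime.prod_right key
  · rw [hH₀, mem_image]
    exact ⟨h, hh, rfl⟩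

lemma th_anti {k k' : ℕ} (h3 : 3 ≤ k') (hk : k' ≤ k) : th k ≤ th k' := by
  unfold th
  have h1 : (3 : ℝ) ≤ k' := by exact_mod_cast h3
  have h2 : (k' : ℝ) ≤ k := by exact_mod_cast hk
  exact div_le_div_of_nonneg_left (by norm_num) (by linarith) (by linarith)

end MAIN1M

open MAIN1M

theorem specMAIN1 (hIO : SpecIO) (hRING : SpecRING) : SpecMAIN1 := by
  intro Ω _ μ _ A hA hind δ P₀ k hδ hk hp
  have hδ1 : δ < 1 := by
    obtain ⟨p, hpP, hpp⟩ := Nat.exists_infinite_primes P₀
    obtain ⟨h1, h2⟩ := hp p hpp hpP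
    have hp0 : (0 : ℝ) < p := by exact_mod_cast hpp.pos
    have h3 : 0 < δ * (p : ℝ) ^ (-th k) := mul_pos hδ (Real.rpow_pos_of_pos hp0 _)
    linarith
  have key : ∀ᵐ ω ∂μ, ∀ H : Finset ℕ, 3 ≤ H.card ∧ H.card ≤ k ∧ Admis H →
      {n : ℕ | ∀ h ∈ H, PrimeIn {p | p.Prime ∧ ω ∈ A p} (n + h)}.Infinite := by
    rw [ae_all_iff]
    intro H
    by_cases hH : 3 ≤ H.card ∧ H.card ≤ k ∧ Admis H
    · obtain ⟨h3, hHk, hadm⟩ := hH
      obtain ⟨a, H₀, b, hA0, hc, hsub⟩ := translate H hadm h3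
      have hp' : ∀ p : ℕ, p.Prime → P₀ ≤ p → δ * (p : ℝ) ^ (-th H₀.card) ≤ μ.real (A p) ∧ μ.real (A p) ≤ 1 - δ := by
        intro p hpp hP
        obtain ⟨h1, h2⟩ := hp p hpp hP
        refine ⟨le_trans ?_ h1, h2⟩
        have hp1 : (1 : ℝ) ≤ p := by exact_mod_cast hpp.one_lt.le
        refine mul_le_mul_of_nonneg_left (Real.rpow_le_rpow_of_exponent_le hp1 ?_) hδ.le
        have := th_anti (k := k) (k' := H₀.card) (by omega) (by omega)
        linarith
      have hio := hIO Ω μ A hA hind δ P₀ H₀ b hδ hδ1 hA0 hp'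
      filter_upwards [hio] with ω hω _
      refine Set.infinite_of_forall_exists_gt fun N => ?_
      obtain ⟨m, hm, hsq, hE⟩ := hω (N + a + 2)
      have hSp : ∀ p ∈ {p : ℕ | p.Prime ∧ ω ∈ A p}, p.Prime := fun p hp => hp.1
      refine ⟨m - a, ?_, by omega⟩
      intro h hh
      obtain ⟨hah, hh0⟩ := hsub h hh
      have e : m - a + h = m + (h - a) := by omega
      rw [e]
      have hdvd : m + (h - a) ∣ PiH H₀ m := dvd_prod_of_mem (fun h => m + h) hh0
      refine hRING _ _ hSp (by omega) (hsq.squarefree_of_dvd hdvd) (fun q hq => ?_) ?_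
      · refine ⟨Nat.prime_of_mem_primeFactors (erase_subset _ _ hq), hE.1 q ?_⟩
        unfold cof
        exact mem_biUnion.2 ⟨_, hh0, hq⟩
      · rintro ⟨_, h'⟩
        refine hE.2 _ ?_ h'
        unfold top
        exact mem_image.2 ⟨_, hh0, rfl⟩
    · exact Filter.Eventually.of_forall fun ω h => absurd h hH
  filter_upwards [key] with ω hω H hHk hadm
  by_cases h3 : 3 ≤ H.card
  · exact hω H ⟨h3, hHk, hadm⟩
  · obtain ⟨H', h1, h2, h4⟩ := ext3 H hadm (by omega)
    have h5 := hω H' ⟨by omega, by omega, h4⟩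
    refine h5.mono ?_
    intro n hn h hh
    exact hn h (h1 hh)

end Pool.Agent.Lib.MP3efbeb.TK
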