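import Pool.Agent.Lib.MP_3efbeb_nt.TK.Spec
import Pool.Agent.Lib.MP_3efbeb_nt.T.OV

/-!
# Line T(k), module OV: the mean of `log cofP (m+u)` is strictly less than `(1/2) log x`
-/

set_option autoImplicit false

namespace Pool.Agent.Lib.MP3efbeb.TK.OVM

open Finset Filter Topology
open scoped Classical
open Pool.Agent.Lib.MP3efbeb.T (BP sg gpf cofP RS PrimeIn SpecSG)
open Pool.Agent.Lib.MP3efbeb.T.OVM (PI sum_PI numeric sum_ind core gpf_mem le_gpf gpf_prime Xf sum_log_sq V_eq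
  log_nonneg_nat Xf_nonneg Xf_le Xf_small Xf_large V_le_Xf log_ratio alg1 alg2)

noncomputable section

/-- exchange of sums -/
theorem exch {H : Finset ℕ} {b : ℕ} {a η : ℝ} {x u : ℕ} {v : ℝ} (hx : 1 ≤ x) (hv : v ≤ 1) (hu : 1 ≤ u) :
    ∑ q ∈ (Icc 1 x).filter (fun q : ℕ => q.Prime ∧ (q : ℝ) ≤ (x : ℝ) ^ v),
      Real.log q * (((PP H b a η x).filter (fun m => q ∣ m + u)).card : ℝ)
      = ∑ m ∈ PP H b a η x, Xf ((x : ℝ) ^ v) (m + u) := by
  have hx1 : (1 : ℝ) ≤ x := by exact_mod_cast hx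
  have h1 : ∀ q : ℕ, Real.log (q : ℝ) * (((PP H b a η x).filter (fun m => q ∣ m + u)).card : ℝ)
      = ∑ m ∈ PP H b a η x, if q ∣ m + u then Real.log (q : ℝ) else 0 := by
    intro q
    rw [← Finset.sum_filter, Finset.sum_const, nsmul_eq_mul, mul_comm]
  simp only [h1]
  rw [Finset.sum_comm]
  refine Finset.sum_congr rfl fun m _ => ?_
  rw [← Finset.sum_filter]
  unfold Xf
  refine Finset.sum_congr ?_ fun q _ => rfl
  ext q
  simp only [Finset.mem_filter, Finset.mem_Icc, Nat.mem_primeFactors]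
  constructor
  · rintro ⟨⟨_, h2, h3⟩, h4⟩
    exact ⟨⟨h2, h4, by omega⟩, h3⟩
  · rintro ⟨⟨h2, h4, _⟩, h3⟩
    refine ⟨⟨⟨h2.one_lt.le, ?_⟩, h2, h3⟩, h4⟩
    have h5 : (x : ℝ) ^ v ≤ x := by
      calc (x : ℝ) ^ v ≤ (x : ℝ) ^ (1 : ℝ) := Real.rpow_le_rpow_of_exponent_le hx1 hv
        _ = x := Real.rpow_one _
    exact_mod_cast h3.trans h5

/-- the bound of B, in terms of `#PP` -/
theorem union_le {H : Finset ℕ} {b : ℕ} {a η K' NP : ℝ} {x u : ℕ} {α β : ℝ}
    (hB : ∀ q : ℕ, q.Prime → (x : ℝ) ^ α < q → (q : ℝ) ≤ (x : ℝ) ^ β →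
      (((PP H b a η x).filter (fun m => q ∣ m + u)).card : ℝ) ≤ K' * NP / q) :
    (((PP H b a η x).filter (fun m => ∃ q ∈ PI α β x, q ∣ m + u)).card : ℝ)
      ≤ K' * NP * ∑ q ∈ PI α β x, 1 / (q : ℝ) := by
  have h1 : (PP H b a η x).filter (fun m => ∃ q ∈ PI α β x, q ∣ m + u) ⊆
      (PI α β x).biUnion (fun q => (PP H b a η x).filter (fun m => q ∣ m + u)) := by
    intro m hm
    rw [Finset.mem_filter] at hm
    obtain ⟨q, hq, hd⟩ := hm.2
    exact Finset.mem_biUnion.2 ⟨q, hq, Finset.mem_filter.2 ⟨hm.1, hd⟩⟩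
  have h2 : (((PP H b a η x).filter (fun m => ∃ q ∈ PI α β x, q ∣ m + u)).card : ℝ) ≤
      ∑ q ∈ PI α β x, (((PP H b a η x).filter (fun m => q ∣ m + u)).card : ℝ) := by
    exact_mod_cast (Finset.card_le_card h1).trans Finset.card_biUnion_le
  refine h2.trans ?_
  rw [Finset.mul_sum]
  refine Finset.sum_le_sum fun q hq => ?_
  unfold PI at hq
  rw [Finset.mem_filter] at hq
  have := hB q hq.2.1 hq.2.2.1 hq.2.2.2
  calc _ ≤ _ := this
    _ = K' * NP * (1 / (q : ℝ)) := by ring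

/-- everything for one `x` -/
theorem fixed {H : Finset ℕ} {b : ℕ} {a η K d cst ε κ ω : ℝ} {x u : ℕ} (hK : 1 ≤ K) (hd : d = 1 / (400 * K))
    (hc : cst = d ^ 2 / 100) (hε : ε = cst / (100 * K)) (hκ : κ = cst / 100)
    (ha : 0 < a) (hx : 10 ≤ x) (hut : u ∈ H) (hu1 : 1 ≤ u) (hux : u ≤ x)
    (hω0 : 0 ≤ ω) (hω : ω ≤ cst / 100) (hω3 : Real.log 3 ≤ ω * Real.log x)
    (hx3 : (3 : ℝ) ≤ (x : ℝ) ^ (2 * ε))
    (hsg : a / 4 ≤ sg a x) (hN0 : 0 ≤ N0 H η x)
    (hLB : (1 - κ) * (sg a x * N0 H η x) ≤ ((PP H b a η x).card : ℝ))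
    (hB : ∀ q : ℕ, q.Prime → (x : ℝ) ^ (1 / 4 : ℝ) ≤ q → (q : ℝ) ≤ (x : ℝ) ^ (5 / 8 : ℝ) →
      (((PP H b a η x).filter (fun m => q ∣ m + u)).card : ℝ) ≤ K * a * N0 H η x / q)
    (hAV : ∀ v : ℝ, 0 ≤ v → v ≤ 1 / 2 - ε →
      ∑ q ∈ (Icc 1 x).filter (fun q : ℕ => q.Prime ∧ (q : ℝ) ≤ (x : ℝ) ^ v),
        Real.log q * (((PP H b a η x).filter (fun m => q ∣ m + u)).card : ℝ)
        ≤ (v + κ) * Real.log x * (sg a x * N0 H η x))
    (hM1 : ∑ q ∈ PI (1 / 2 - ε) (1 / 2 + ε) x, 1 / (q : ℝ) ≤ 6 * ε)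
    (hM2 : ∑ q ∈ PI (1 / 2 - ε) (1 / 2 + d) x, 1 / (q : ℝ) ≤ 3 * (d + ε)) :
    ∑ m ∈ (PP H b a η x).filter (fun m => Squarefree (PiH H m)), ∑ q ∈ cofP (m + u), Real.log q
      ≤ (1 / 2 - cst / 2) * Real.log x * ((PP H b a η x).card : ℝ) := by
  have hd0 : 0 < d := by rw [hd]; positivity
  have hd1 : d ≤ 1 / 400 := by
    rw [hd]
    exact one_div_le_one_div_of_le (by norm_num) (by linarith)
  have hc0 : 0 < cst := by rw [hc]; positivity
  have hcd : cst ≤ d / 40000 := by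
    rw [hc]
    nlinarith
  have hε0 : 0 < ε := by rw [hε]; positivity
  have hε1 : ε ≤ cst / 100 := by
    rw [hε]
    exact div_le_div_of_nonneg_left hc0.le (by norm_num) (by linarith)
  have hκ0 : 0 < κ := by rw [hκ]; positivity
  have hxr : (10 : ℝ) ≤ x := by exact_mod_cast hx
  have hx0 : (0 : ℝ) < x := by linarith
  have hx1 : (1 : ℝ) ≤ x := by linarith
  have hL : 0 < Real.log x := Real.log_pos (by linarith)
  set L := Real.log (x : ℝ) with hLdef
  set P := PP H b a η x with hP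
  set S := P.filter (fun m => Squarefree (PiH H m)) with hS
  set NP := (P.card : ℝ) with hNP
  set y := (x : ℝ) ^ (1 / 2 - ε) with hy
  set y' := (x : ℝ) ^ (1 / 2 + ε) with hy'
  have hNP0 : 0 ≤ NP := by positivity
  -- basic facts for the elements
  have hPm : ∀ m ∈ P, x < m ∧ m ≤ 2 * x := by
    intro m hm
    rw [hP] at hm
    unfold PP MM at hm
    rw [Finset.mem_filter, Finset.mem_filter, Finset.mem_Ioc] at hm
    exact hm.1.1
  have hsq : ∀ m ∈ S, Squarefree (m + u) := by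
    intro m hm
    rw [hS, Finset.mem_filter] at hm
    refine Squarefree.squarefree_of_dvd ?_ hm.2
    unfold PiH
    exact Finset.dvd_prod_of_mem (fun h => m + h) hut
  have hmx : ∀ m ∈ S, x < m + u ∧ m + u ≤ 3 * x := by
    intro m hm
    have := hPm m (Finset.mem_filter.1 (hS ▸ hm)).1
    omega
  have hlog : ∀ m ∈ S, Real.log ((m + u : ℕ) : ℝ) ≤ (1 + ω) * L := by
    intro m hm
    have h1 := (hmx m hm)
    have h2 : ((m + u : ℕ) : ℝ) ≤ 3 * x := by exact_mod_cast h1.2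
    have h3 : (0 : ℝ) < ((m + u : ℕ) : ℝ) := by exact_mod_cast (by omega : 0 < m + u)
    calc Real.log ((m + u : ℕ) : ℝ) ≤ Real.log (3 * x) := Real.log_le_log h3 h2
      _ = Real.log 3 + L := Real.log_mul (by norm_num) hx0.ne'
      _ ≤ (1 + ω) * L := by linarith
  have h2n : ∀ m ∈ S, 2 ≤ m + u := fun m hm => by have := hmx m hm; omega
  have hyp : 0 < y := by positivity
  have hy'p : 0 < y' := by positivity
  have hlogy : Real.log y = (1 / 2 - ε) * L := Real.log_rpow hx0 _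
  -- the sum over `q`
  have hx1b : 1 ≤ x := by omega
  have hXsum : ∀ v : ℝ, 0 ≤ v → v ≤ 1 / 2 - ε → ∑ m ∈ P, Xf ((x : ℝ) ^ v) (m + u)
      ≤ (v + κ) * L * (sg a x * N0 H η x) := by
    intro v hv0 hv1
    have h := hAV v hv0 hv1
    rwa [exch (H := H) (b := b) (a := a) (η := η) hx1b (by linarith : v ≤ 1) hu1] at h
  have hsN : sg a x * N0 H η x ≤ (1 + 2 * κ) * NP := by
    have h1 : 0 ≤ sg a x * N0 H η x := mul_nonneg (by linarith) hN0
    have h2 : (1 : ℝ) ≤ (1 + 2 * κ) * (1 - κ) := by nlinarith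
    calc sg a x * N0 H η x = 1 * (sg a x * N0 H η x) := by ring
      _ ≤ ((1 + 2 * κ) * (1 - κ)) * (sg a x * N0 H η x) := mul_le_mul_of_nonneg_right h2 h1
      _ = (1 + 2 * κ) * ((1 - κ) * (sg a x * N0 H η x)) := by ring
      _ ≤ _ := mul_le_mul_of_nonneg_left hLB (by linarith)
  have haN : a * N0 H η x ≤ 8 * NP := by
    have h1 : a / 4 * N0 H η x ≤ sg a x * N0 H η x := mul_le_mul_of_nonneg_right hsg hN0
    have h2 : sg a x * N0 H η x ≤ 2 * NP := by
      refine hsN.trans (mul_le_mul_of_nonneg_right (by linarith) hNP0)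
    linarith
  have hS_le : (S.card : ℝ) ≤ NP := by
    rw [hNP, hS]
    exact_mod_cast Finset.card_filter_le _ _
  -- the union bounds
  have hun : ∀ β : ℝ, β ≤ 5 / 8 →
      ((P.filter (fun m => ∃ q ∈ PI (1 / 2 - ε) β x, q ∣ m + u)).card : ℝ)
        ≤ 8 * K * NP * ∑ q ∈ PI (1 / 2 - ε) β x, 1 / (q : ℝ) := by
    intro β hβ
    have := union_le (H := H) (b := b) (a := a) (η := η) (x := x) (u := u) (K' := 8 * K) (NP := NP)
      (α := 1 / 2 - ε) (β := β) (fun q hq h1 h2 => by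
        have h3 : (x : ℝ) ^ (1 / 4 : ℝ) ≤ q :=
          (Real.rpow_le_rpow_of_exponent_le hx1 (by linarith)).trans h1.le
        have h4 : (q : ℝ) ≤ (x : ℝ) ^ (5 / 8 : ℝ) := h2.trans (Real.rpow_le_rpow_of_exponent_le hx1 hβ)
        refine (hB q hq h3 h4).trans ?_
        refine div_le_div_of_nonneg_right ?_ (by positivity)
        nlinarith)
    exact this
  have hun1 : ((P.filter (fun m => ∃ q ∈ PI (1 / 2 - ε) (1 / 2 + ε) x, q ∣ m + u)).card : ℝ)
      ≤ cst / 2 * NP := by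
    refine (hun (1 / 2 + ε) (by linarith)).trans ?_
    have h1 : 8 * K * NP * ∑ q ∈ PI (1 / 2 - ε) (1 / 2 + ε) x, 1 / (q : ℝ) ≤ 8 * K * NP * (6 * ε) :=
      mul_le_mul_of_nonneg_left hM1 (by positivity)
    have h2 : K * ε = cst / 100 := by rw [hε]; field_simp
    have h3 : 8 * K * NP * (6 * ε) = 48 * (K * ε) * NP := by ring
    rw [h3, h2] at h1
    have h4 : 48 * (cst / 100) * NP ≤ cst / 2 * NP := mul_le_mul_of_nonneg_right (by linarith) hNP0
    exact h1.trans h4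
  have hun2 : ((P.filter (fun m => ∃ q ∈ PI (1 / 2 - ε) (1 / 2 + d) x, q ∣ m + u)).card : ℝ)
      ≤ 1 / 4 * NP := by
    refine (hun (1 / 2 + d) (by linarith)).trans ?_
    have h1 : 8 * K * NP * ∑ q ∈ PI (1 / 2 - ε) (1 / 2 + d) x, 1 / (q : ℝ) ≤ 8 * K * NP * (3 * (d + ε)) :=
      mul_le_mul_of_nonneg_left hM2 (by positivity)
    have h2 : K * d = 1 / 400 := by rw [hd]; field_simp
    have h2' : K * ε ≤ 1 / 400 := by rw [← h2]; exact mul_le_mul_of_nonneg_left (by linarith) (by linarith)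
    have h3 : 8 * K * NP * (3 * (d + ε)) = 24 * (K * d + K * ε) * NP := by ring
    rw [h3] at h1
    have h4 : 24 * (K * d + K * ε) * NP ≤ 1 / 4 * NP := mul_le_mul_of_nonneg_right (by linarith) hNP0
    exact h1.trans h4
  -- the predicates
  obtain ⟨Sm, hSm⟩ : ∃ Sm : ℕ → Prop, ∀ m, Sm m ↔ (gpf (m + u) : ℝ) ≤ y := ⟨_, fun m => Iff.rfl⟩
  obtain ⟨Tn, hTn⟩ : ∃ Tn : ℕ → Prop, ∀ m, Tn m ↔ (gpf (m + u) : ℝ) ≤ (x : ℝ) ^ (d / 8) :=
    ⟨_, fun m => Iff.rfl⟩
  obtain ⟨M1, hM1d⟩ : ∃ M1 : ℕ → Prop, ∀ m, M1 m ↔ ∃ q ∈ PI (1 / 2 - ε) (1 / 2 + ε) x, q ∣ m + u :=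
    ⟨_, fun m => Iff.rfl⟩
  obtain ⟨M2, hM2d⟩ : ∃ M2 : ℕ → Prop, ∀ m, M2 m ↔ ∃ q ∈ PI (1 / 2 - ε) (1 / 2 + d) x, q ∣ m + u :=
    ⟨_, fun m => Iff.rfl⟩
  have hPI : ∀ (β : ℝ) (m : ℕ), m ∈ S → β ≤ 1 → (¬ ∃ q ∈ PI (1 / 2 - ε) β x, q ∣ m + u) →
      ∀ q ∈ (m + u).primeFactors, ¬ (y < (q : ℝ) ∧ (q : ℝ) ≤ (x : ℝ) ^ β) := by
    intro β m hm hβ hno q hq hcon
    refine hno ⟨q, ?_, Nat.dvd_of_mem_primeFactors hq⟩
    unfold PI
    refine Finset.mem_filter.2 ⟨Finset.mem_Icc.2 ⟨(Nat.prime_of_mem_primeFactors hq).one_lt.le, ?_⟩,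
      Nat.prime_of_mem_primeFactors hq, hcon.1, hcon.2⟩
    have h5 : (x : ℝ) ^ β ≤ x := by
      calc (x : ℝ) ^ β ≤ (x : ℝ) ^ (1 : ℝ) := Real.rpow_le_rpow_of_exponent_le hx1 hβ
        _ = x := Real.rpow_one _
    exact_mod_cast hcon.2.trans h5
  have hVeq : ∀ m ∈ S, ∑ q ∈ cofP (m + u), Real.log (q : ℝ)
      = Real.log ((m + u : ℕ) : ℝ) - Real.log (gpf (m + u)) := fun m hm => V_eq (h2n m hm) (hsq m hm)
  have hgpos : ∀ m ∈ S, (0 : ℝ) < gpf (m + u) := fun m hm => by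
    exact_mod_cast (gpf_prime (h2n m hm)).pos
  obtain ⟨hc1, hc2⟩ := core (S := S) (Vv := fun m => ∑ q ∈ cofP (m + u), Real.log (q : ℝ))
    (Xv := fun m => Xf y (m + u)) (L := L) (ε := ε) (ω := ω) (d := d) (Sm := Sm) (Tn := Tn) (M1 := M1) (M2 := M2)
    hL.le hε0.le hω0 hd0.le
    (by
      intro m hm
      rw [hTn] at hm
      rw [hSm]
      refine hm.trans (Real.rpow_le_rpow_of_exponent_le hx1 (by linarith)))
    (by
      intro m hm hs ht
      rw [hSm] at hs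
      rw [hTn] at ht
      have ht' := not_le.1 ht
      have h1 : d / 8 * L ≤ Real.log (gpf (m + u)) := by
        rw [hLdef, ← Real.log_rpow hx0]
        exact Real.log_le_log (by positivity) ht'.le
      simp only [hVeq m hm]
      rw [Xf_small (hsq m hm) hs]
      linarith)
    (by
      intro m hm hs
      rw [hSm] at hs
      simp only [hVeq m hm]
      rw [Xf_small (hsq m hm) hs]
      have := Real.log_natCast_nonneg (gpf (m + u))
      linarith)
    (by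
      intro m hm hs hno
      rw [hSm] at hs
      refine V_le_Xf (y' := y') (h2n m hm) ?_ hy'p.le (not_le.1 hs) (hPI _ m hm (by linarith) (fun h => hno ((hM1d m).2 h)))
      have h1 : ((m + u : ℕ) : ℝ) ≤ 3 * x := by exact_mod_cast (hmx m hm).2
      have h2 : y' * y' = (x : ℝ) ^ (2 * ε) * x := by
        rw [hy', ← Real.rpow_add hx0, ← Real.rpow_add_one hx0.ne']
        congr 1
        ring
      rw [h2]
      nlinarith)
    (by
      intro m hm hs
      rw [hSm] at hs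
      have h1 := hlog m hm
      have h2 : (1 / 2 - ε) * L ≤ Real.log (gpf (m + u)) := by
        rw [← hlogy]
        exact Real.log_le_log hyp (not_le.1 hs).le
      simp only [hVeq m hm]
      linarith)
    (fun m => Xf_nonneg _ _)
    (fun m hm hs => (Xf_le _ (hsq m hm)).trans (hlog m hm))
    (by
      intro m hm hs
      rw [hSm] at hs
      have h1 := hlog m hm
      have h2 : (1 / 2 - ε) * L ≤ Real.log (gpf (m + u)) := by
        rw [← hlogy]
        exact Real.log_le_log hyp (not_le.1 hs).le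
      have := Xf_large (h2n m hm) (hsq m hm) (not_le.1 hs)
      linarith)
    (by
      intro m hm hs hno
      rw [hSm] at hs
      have h1 := hlog m hm
      have h3 : (x : ℝ) ^ (1 / 2 + d) < gpf (m + u) := by
        by_contra hcon
        exact hPI _ m hm (by linarith) (fun h => hno ((hM2d m).2 h)) _ (gpf_mem (h2n m hm)) ⟨not_le.1 hs, not_lt.1 hcon⟩
      have h2 : (1 / 2 + d) * L ≤ Real.log (gpf (m + u)) := by
        rw [hLdef, ← Real.log_rpow hx0]
        exact Real.log_le_log (by positivity) h3.le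
      have := Xf_large (h2n m hm) (hsq m hm) (not_le.1 hs)
      linarith)
  rcases hNP0.eq_or_lt with h0 | hpos
  · -- no elements
    have hPe : P = ∅ := by
      have : P.card = 0 := by
        have h9 : (P.card : ℝ) = 0 := by rw [← hNP]; exact h0.symm
        exact_mod_cast h9
      exact Finset.card_eq_zero.1 this
    rw [hS, hPe, ← h0]
    simp
  -- normalise
  have hTau : ((S.filter Tn).card : ℝ) * L ≤ (d / 8 + κ) * L * ((1 + 2 * κ) * NP) := by
    have h1 := hXsum (d / 8) (by linarith) (by linarith)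
    have h2 : ((S.filter Tn).card : ℝ) * L ≤ ∑ m ∈ P, Xf ((x : ℝ) ^ (d / 8)) (m + u) := by
      have h3 : ((S.filter Tn).card : ℝ) * L ≤ ∑ m ∈ S.filter Tn, Xf ((x : ℝ) ^ (d / 8)) (m + u) := by
        rw [← nsmul_eq_mul, ← Finset.sum_const]
        refine Finset.sum_le_sum fun m hm => ?_
        rw [Finset.mem_filter] at hm
        rw [Xf_small (hsq m hm.1) ((hTn m).1 hm.2)]
        refine Real.log_le_log hx0 ?_
        exact_mod_cast (hmx m hm.1).1.le
      refine h3.trans (Finset.sum_le_sum_of_subset_of_nonneg ?_ fun m _ _ => Xf_nonneg _ _)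
      exact (Finset.filter_subset _ _).trans (Finset.filter_subset _ _)
    refine h2.trans (h1.trans ?_)
    exact mul_le_mul_of_nonneg_left hsN (by positivity)
  have hX1 : ∑ m ∈ S, Xf y (m + u) ≤ (1 / 2 - ε + κ) * L * ((1 + 2 * κ) * NP) := by
    have h1 := hXsum (1 / 2 - ε) (by linarith) le_rfl
    have h2 : ∑ m ∈ S, Xf y (m + u) ≤ ∑ m ∈ P, Xf y (m + u) :=
      Finset.sum_le_sum_of_subset_of_nonneg (Finset.filter_subset _ _) fun m _ _ => Xf_nonneg _ _
    refine h2.trans (h1.trans ?_)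
    refine mul_le_mul_of_nonneg_left hsN (mul_nonneg (by linarith) hL.le)
  have hT : ((S.filter Tn).card : ℝ) ≤ (S.filter Sm).card := by
    have : (S.filter Tn).card ≤ (S.filter Sm).card := by
      refine Finset.card_le_card fun m hm => ?_
      rw [Finset.mem_filter] at hm ⊢
      refine ⟨hm.1, ?_⟩
      rw [hSm]
      exact ((hTn m).1 hm.2).trans (Real.rpow_le_rpow_of_exponent_le hx1 (by linarith))
    exact_mod_cast this
  have hm1 : ((S.filter M1).card : ℝ) ≤ cst / 2 * NP := by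
    refine le_trans ?_ hun1
    have : (S.filter M1).card ≤
        (P.filter (fun m => ∃ q ∈ PI (1 / 2 - ε) (1 / 2 + ε) x, q ∣ m + u)).card := by
      refine Finset.card_le_card fun m hm => ?_
      rw [Finset.mem_filter] at hm ⊢
      exact ⟨(Finset.filter_subset _ _) hm.1, (hM1d m).1 hm.2⟩
    exact_mod_cast this
  have hm2 : ((S.filter M2).card : ℝ) ≤ 1 / 4 * NP := by
    refine le_trans ?_ hun2
    have : (S.filter M2).card ≤
        (P.filter (fun m => ∃ q ∈ PI (1 / 2 - ε) (1 / 2 + d) x, q ∣ m + u)).card := by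
      refine Finset.card_le_card fun m hm => ?_
      rw [Finset.mem_filter] at hm ⊢
      exact ⟨(Finset.filter_subset _ _) hm.1, (hM2d m).1 hm.2⟩
    exact_mod_cast this
  have hLN : 0 < L * NP := by positivity
  have hkey := numeric (K := K) (d := d) (cst := cst) (ε := ε) (κ := κ) (ω := ω)
    (x1 := (∑ m ∈ S, Xf y (m + u)) / (L * NP))
    (V := (∑ m ∈ S, ∑ q ∈ cofP (m + u), Real.log (q : ℝ)) / (L * NP))
    (σ := ((S.filter Sm).card : ℝ) / NP) (μ1 := ((S.filter M1).card : ℝ) / NP)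
    (μ2 := ((S.filter M2).card : ℝ) / NP) (τ := ((S.filter Tn).card : ℝ) / NP) (p := (S.card : ℝ) / NP)
    hK hd hc hε hκ hω0 hω (by positivity) ((div_le_one hpos).2 hS_le)
    (div_le_div_of_nonneg_right hT hpos.le)
    (by
      rw [div_le_iff₀ hpos]
      have : ((S.filter Tn).card : ℝ) * L ≤ ((d / 8 + κ) * (1 + 2 * κ) * NP) * L := by
        calc _ ≤ _ := hTau
          _ = _ := by ring
      exact le_of_mul_le_mul_right this hL)
    (by
      rw [div_le_iff₀ hLN]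
      calc _ ≤ _ := hX1
        _ = _ := by ring)
    (by positivity)
    ((div_le_iff₀ hpos).2 hm1)
    ((div_le_iff₀ hpos).2 hm2)
    (by
      rw [div_le_iff₀ hLN]
      refine hc1.trans (le_of_eq ?_)
      exact alg1 hL.ne' hpos.ne' _ _ _ _ _ _)
    (by
      rw [div_le_iff₀ hLN]
      refine hc2.trans (le_of_eq ?_)
      exact alg2 hL.ne' hpos.ne' _ _ _ _ _ _)
  rw [div_le_iff₀ hLN] at hkey
  calc _ ≤ _ := hkey
    _ = _ := by ring

theorem gg_le_one (H : Finset ℕ) (p : ℕ) : gg H p ≤ 1 := by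
  unfold gg
  split_ifs with h
  · norm_num
  · refine div_le_one_of_le₀ ?_ (by positivity)
    unfold nu
    have := Finset.card_filter_le (range p) (fun r => p ∣ PiH H r)
    rw [Finset.card_range] at this
    exact_mod_cast this

theorem N0_nonneg (H : Finset ℕ) (η : ℝ) (x : ℕ) : 0 ≤ N0 H η x := by
  unfold N0 GG
  refine mul_nonneg (by positivity) (Finset.prod_nonneg fun p _ => ?_)
  have := gg_le_one H p
  linarith

end

end Pool.Agent.Lib.MP3efbeb.TK.OVM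

namespace Pool.Agent.Lib.MP3efbeb.TK

open Finset Filter Topology
open scoped Classical

theorem specOV (hAV : SpecAV) (hB : SpecB) (hSG : T.SpecSG) (hLB : SpecLB) : SpecOV := by
  intro H b hadm
  obtain ⟨K, hK, hB⟩ := hB H b hadm
  obtain ⟨d, hd⟩ : ∃ d : ℝ, d = 1 / (400 * K) := ⟨_, rfl⟩
  obtain ⟨cst, hc⟩ : ∃ c : ℝ, c = d ^ 2 / 100 := ⟨_, rfl⟩
  obtain ⟨ε, hε⟩ : ∃ e : ℝ, e = cst / (100 * K) := ⟨_, rfl⟩
  obtain ⟨κ, hκ⟩ : ∃ k : ℝ, k = cst / 100 := ⟨_, rfl⟩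
  have hd0 : 0 < d := by rw [hd]; positivity
  have hd1 : d ≤ 1 / 400 := by
    rw [hd]
    exact one_div_le_one_div_of_le (by norm_num) (by linarith)
  have hc0 : 0 < cst := by rw [hc]; positivity
  have hcd : cst ≤ d / 40000 := by
    rw [hc]
    nlinarith
  have hε0 : 0 < ε := by rw [hε]; positivity
  have hε1 : ε ≤ cst / 100 := by
    rw [hε]
    exact div_le_div_of_nonneg_left hc0.le (by norm_num) (by linarith)
  have hκ0 : 0 < κ := by rw [hκ]; positivity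
  refine ⟨cst / 2, by linarith, by linarith, fun a ha0 ha1 => ?_⟩
  obtain ⟨η1, hη1, hAV⟩ := hAV H b hadm a ε κ ha0 (by linarith) hε0 (by linarith) hκ0
  obtain ⟨η2, hη2, hB⟩ := hB a ha0 ha1
  obtain ⟨η3, hη3, hLB⟩ := hLB H b hadm a κ ha0 (by linarith) hκ0
  obtain ⟨X4, hSG⟩ := hSG a ha0 (by linarith)
  obtain ⟨X5, hM1⟩ := T.OVM.sum_PI (α := 1 / 2 - ε) (β := 1 / 2 + ε) (κ := ε) (by linarith) (by linarith) hε0
  obtain ⟨X6, hM2⟩ := T.OVM.sum_PI (α := 1 / 2 - ε) (β := 1 / 2 + d) (κ := (d + ε) / 2) (by linarith) (by linarith)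
    (by linarith)
  refine ⟨min η1 (min η2 η3), by positivity, fun η hη0 hη => ?_⟩
  have hη1' : η ≤ η1 := hη.trans (min_le_left _ _)
  have hη2' : η ≤ η2 := hη.trans ((min_le_right _ _).trans (min_le_left _ _))
  have hη3' : η ≤ η3 := hη.trans ((min_le_right _ _).trans (min_le_right _ _))
  obtain ⟨X1, hAV⟩ := hAV η hη0 hη1'
  obtain ⟨X2, hB⟩ := hB η hη0 hη2'
  obtain ⟨X3, hLB⟩ := hLB η hη0 hη3'
  have e1 : ∀ᶠ x : ℕ in atTop, (3 : ℝ) ≤ (x : ℝ) ^ (2 * ε) := by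
    have := (tendsto_rpow_atTop (by linarith : 0 < 2 * ε)).comp tendsto_natCast_atTop_atTop
    exact this.eventually_ge_atTop 3
  have e2 : ∀ᶠ x : ℕ in atTop, Real.log 3 / Real.log x ≤ cst / 100 := by
    have h1 : Tendsto (fun x : ℕ => Real.log 3 / Real.log (x : ℝ)) atTop (𝓝 0) :=
      (Real.tendsto_log_atTop.comp tendsto_natCast_atTop_atTop).const_div_atTop _
    exact h1.eventually_le_const (by linarith : (0 : ℝ) < cst / 100)
  obtain ⟨X7, hX7⟩ := eventually_atTop.1 (e1.and e2)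
  refine ⟨X1 + X2 + X3 + X4 + X5 + X6 + X7 + 10 + H.sup id, fun x hx u hu => ?_⟩
  obtain ⟨h3, hω⟩ := hX7 x (by omega)
  have hu0 := Finset.mem_erase.1 hu
  have hut : u ∈ H := hu0.2
  have hu1 : 1 ≤ u := Nat.pos_of_ne_zero hu0.1
  have hux : u ≤ H.sup id := Finset.le_sup (f := id) hut
  have hL : 0 < Real.log x := Real.log_pos (by exact_mod_cast (by omega : 1 < x))
  refine OVM.fixed (K := K) (d := d) (cst := cst) (ε := ε) (κ := κ) (ω := Real.log 3 / Real.log x) hK hd hc hε hκ ha0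
    (by omega) hut (by omega) (by omega) ?_ hω ?_ h3 (hSG x (by omega)).1 (OVM.N0_nonneg _ _ _)
    (hLB x (by omega)) (fun q hq h1 h2 => hB x (by omega) u hu q hq h1 h2)
    (fun v hv0 hv1 => hAV x (by omega) u hu v hv0 hv1) ?_ ?_
  · exact div_nonneg (Real.log_nonneg (by norm_num)) hL.le
  · rw [div_mul_cancel₀ _ hL.ne']
  · refine (hM1 x (by omega)).trans ?_
    have h5 := T.OVM.log_ratio (α := 1 / 2 - ε) (β := 1 / 2 + ε) (by linarith) (by linarith)
    have h6 : (1 / 2 + ε - (1 / 2 - ε)) / (1 / 2 - ε) ≤ 5 * ε := by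
      rw [div_le_iff₀ (by linarith)]
      nlinarith
    linarith
  · refine (hM2 x (by omega)).trans ?_
    have h5 := T.OVM.log_ratio (α := 1 / 2 - ε) (β := 1 / 2 + d) (by linarith) (by linarith)
    have h6 : (1 / 2 + d - (1 / 2 - ε)) / (1 / 2 - ε) ≤ 5 / 2 * (d + ε) := by
      rw [div_le_iff₀ (by linarith)]
      nlinarith
    linarith

end Pool.Agent.Lib.MP3efbeb.TK
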