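import Pool.Agent.Lib.MP_3efbeb_nt.TK.PR
import Pool.Agent.Lib.MP_3efbeb_nt.TK.DF
import Pool.Agent.Lib.MP_3efbeb_nt.TK.IO
import Pool.Agent.Lib.MP_3efbeb_nt.TK.MAIN1
import Pool.Agent.Lib.MP_3efbeb_nt.TK.CONV
import Pool.Agent.Lib.MP_3efbeb_nt.TK.AV
import Pool.Agent.Lib.MP_3efbeb_nt.TK.DET
import Pool.Agent.Lib.MP_3efbeb_nt.TK.OV
import Pool.Agent.Lib.MP_3efbeb_nt.TK.LB
import Pool.Agent.Lib.MP_3efbeb_nt.TK.A1
import Pool.Agent.Lib.MP_3efbeb_nt.TK.A2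
import Pool.Agent.Lib.MP_3efbeb_nt.TK.CL
import Pool.Agent.Lib.MP_3efbeb_nt.T.SG
import Pool.Agent.Lib.MP_3efbeb_nt.Odd.FLK
import Pool.Agent.Lib.MP_d1f1b5_nt.TB.KUM
import Pool.Agent.Lib.MP_d1f1b5_nt.TB.LSI

/-!
# TK: all modules, up to B, GL and UG
-/

set_option autoImplicit false

namespace Pool.Agent.Lib.MP3efbeb.TK

open Pool.Agent.Lib.MP3efbeb.T (specSG specRING)

/-- the theorem on random rings, from the upper bounds B, UG and the lower bound GL -/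
theorem main1_of (hB : SpecB) (hGL : SpecGL) (hUG : SpecUG) : SpecMAIN1 := by
  have hFLK : Odd.SpecFLK := Odd.specFLK
  have hBIL : Pool.Agent.Lib.MP_d1f1b5_nt.TB.SpecBIL :=
    Pool.Agent.Lib.MP_d1f1b5_nt.TB.specBIL Pool.Agent.Lib.MP_d1f1b5_nt.TB.specLSI
      Pool.Agent.Lib.MP_d1f1b5_nt.TB.specDFT
  have hA1 : SpecA1 := specA1 hFLK specCL hGL specSG
  have hA2 : SpecA2 := specA2 hFLK specCL hGL specSG hBIL
  have hLB : SpecLB := specLB hFLK specCL hGL specSG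
  have hAV : SpecAV := specAV hA1 hA2
  have hOV : SpecOV := specOV hAV hB specSG hLB
  have hDET : SpecDET := specDET hOV hLB specSG hGL
  have hDF : SpecDF := specDF hDET (specPR hUG)
  exact specMAIN1 (specIO specPROB hDF) specRING

end Pool.Agent.Lib.MP3efbeb.TK
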