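import Pool.Agent.Lib.MP_3efbeb_nt.TK.Spec
import Pool.Agent.Lib.MP_3efbeb_nt.T.B

/-!
# Module B of line T(k), part A: counting the prime variable for one cofactor
-/

set_option autoImplicit false

namespace Pool.Agent.Lib.MP3efbeb.TK

open Finset
open scoped Classical
open Pool.Agent.Lib.MP391708.QPA (PB rInd Rough Wp)
open Pool.Agent.Lib.MP3efbeb.T (BP sg gpf cofP RS PrimeIn)

noncomputable section

namespace BM

open Pool.Agent.Lib.MP3efbeb.T.BM (crt_count mem_PB sqf_dvd len_bd)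

/-- the number of classes is at most `k` -/
theorem nu_le (H : Finset ℕ) {p : ℕ} (hp : p.Prime) : nu H p ≤ H.card := by
  unfold nu
  refine (card_le_card (t := H.image (fun h => (p - h % p) % p)) ?_).trans card_image_le
  intro r hr
  rw [mem_filter, mem_range] at hr
  obtain ⟨hr1, hr2⟩ := hr
  unfold PiH at hr2
  obtain ⟨h, hh, hd⟩ := (Prime.dvd_finsetProd_iff hp.prime _).1 hr2
  rw [mem_image]
  refine ⟨h, hh, ?_⟩
  have h1 : (p - h % p) + h % p = p := Nat.sub_add_cancel (Nat.mod_lt _ hp.pos).le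
  have h2 : (p - h % p) ≡ r [MOD p] := by
    have h3 : (p - h % p) + h ≡ r + h [MOD p] := by
      have h4 : (p - h % p) + h ≡ (p - h % p) + h % p [MOD p] :=
        (Nat.mod_modEq h p).symm.add_left _
      refine h4.trans ?_
      rw [h1]
      exact ((Nat.modEq_zero_iff_dvd).2 dvd_rfl).trans ((Nat.modEq_zero_iff_dvd).2 hd).symm
    exact Nat.ModEq.add_right_cancel' h h3
  unfold Nat.ModEq at h2
  rw [h2, Nat.mod_eq_of_lt hr1]

theorem gg_nonneg (H : Finset ℕ) (p : ℕ) : 0 ≤ gg H p := by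
  unfold gg
  split_ifs
  · exact le_rfl
  · positivity

theorem gg_le (H : Finset ℕ) {p : ℕ} (hp : p.Prime) : gg H p ≤ (H.card : ℝ) / p := by
  unfold gg
  split_ifs
  · positivity
  · exact div_le_div_of_nonneg_right (by exact_mod_cast nu_le H hp) (by positivity)

theorem gg_le_half (H : Finset ℕ) {p : ℕ} (hp : p.Prime) : gg H p ≤ 1 / 2 := by
  by_cases h : p ≤ 2 * H.card
  · unfold gg
    rw [if_pos h]
    norm_num
  · refine (gg_le H hp).trans ?_
    push Not at h
    have hp0 : (0 : ℝ) < p := by exact_mod_cast hp.pos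
    rw [div_le_div_iff₀ hp0 (by norm_num)]
    have : (2 * H.card : ℝ) < p := by exact_mod_cast h
    linarith

theorem Mk_pos (H : Finset ℕ) : 0 < Mk H := by
  unfold Mk
  exact prod_pos fun p hp => (mem_filter.1 hp).2.pos

theorem dvd_Mk (H : Finset ℕ) {p : ℕ} (hp : p.Prime) : p ∣ Mk H ↔ p ≤ 2 * H.card := by
  unfold Mk
  constructor
  · intro h
    obtain ⟨q, hq, hd⟩ := (Prime.dvd_finsetProd_iff hp.prime _).1 h
    rw [mem_filter, mem_range] at hq
    have : p = q := (Nat.prime_dvd_prime_iff_eq hp hq.2).1 hd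
    omega
  · intro h
    exact dvd_prod_of_mem _ (mem_filter.2 ⟨mem_range.2 (by omega), hp⟩)

/-- the condition on the prime variable `r` at `p` -/
def cnd (H : Finset ℕ) (c : ℕ) (z : ℝ) (p r : ℕ) : Prop :=
  p ∣ r ∨ ((p : ℝ) < z ∧ p ∣ ∏ h ∈ H.erase 0, (c * r + h))

theorem cnd_congr (H : Finset ℕ) (c : ℕ) (z : ℝ) (p r r' : ℕ) (h : r ≡ r' [MOD p]) :
    cnd H c z p r ↔ cnd H c z p r' := by
  have h1 : (r : ZMod p) = r' := (ZMod.natCast_eq_natCast_iff _ _ _).2 h
  unfold cnd
  rw [← ZMod.natCast_eq_zero_iff, ← ZMod.natCast_eq_zero_iff, ← ZMod.natCast_eq_zero_iff,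
    ← ZMod.natCast_eq_zero_iff]
  push_cast
  rw [h1]

theorem piH_congr (H : Finset ℕ) {n m m' : ℕ} (h : m ≡ m' [MOD n]) : n ∣ PiH H m ↔ n ∣ PiH H m' := by
  have h1 : (m : ZMod n) = m' := (ZMod.natCast_eq_natCast_iff _ _ _).2 h
  unfold PiH
  rw [← ZMod.natCast_eq_zero_iff, ← ZMod.natCast_eq_zero_iff]
  push_cast
  rw [h1]

theorem piH_split (H : Finset ℕ) (h0 : 0 ∈ H) (m : ℕ) :
    PiH H m = m * ∏ h ∈ H.erase 0, (m + h) := by
  unfold PiH
  rw [← mul_prod_erase H (fun h => m + h) h0, add_zero]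

theorem cnd_iff (H : Finset ℕ) (h0 : 0 ∈ H) (c : ℕ) {z : ℝ} {p : ℕ} (hp : p.Prime) (hz : (p : ℝ) < z)
    (hc : ¬ p ∣ c) (r : ℕ) :
    cnd H c z p r ↔ p ∣ PiH H (c * r) := by
  unfold cnd
  rw [piH_split H h0, hp.dvd_mul (m := c * r), hp.dvd_mul (m := c) (n := r)]
  tauto

/-- the number of classes at `p < z` -/
theorem rho_lt (H : Finset ℕ) (h0 : 0 ∈ H) (c : ℕ) {z : ℝ} {p : ℕ} (hp : p.Prime) (hz : (p : ℝ) < z)
    (hc : ¬ p ∣ c) :
    ((range p).filter (cnd H c z p)).card = nu H p := by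
  have hcop : Nat.Coprime c p := (hp.coprime_iff_not_dvd.2 hc).symm
  obtain ⟨d, _, hd⟩ := Nat.exists_mul_mod_eq_one_of_coprime hcop hp.one_lt
  have hd' : c * d ≡ 1 [MOD p] := by
    unfold Nat.ModEq
    rw [hd, Nat.mod_eq_of_lt hp.one_lt]
  unfold nu
  refine card_bij' (fun r _ => (c * r) % p) (fun y _ => (d * y) % p) ?_ ?_ ?_ ?_
  · intro r hr
    rw [mem_filter, mem_range] at hr ⊢
    refine ⟨Nat.mod_lt _ hp.pos, ?_⟩
    exact (piH_congr H (Nat.mod_modEq (c * r) p)).2 ((cnd_iff H h0 c hp hz hc r).1 hr.2)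
  · intro y hy
    rw [mem_filter, mem_range] at hy ⊢
    refine ⟨Nat.mod_lt _ hp.pos, ?_⟩
    rw [cnd_congr H c z p _ _ (Nat.mod_modEq (d * y) p), cnd_iff H h0 c hp hz hc]
    refine (piH_congr H ?_).2 hy.2
    calc c * (d * y) = (c * d) * y := by ring
      _ ≡ 1 * y [MOD p] := hd'.mul_right y
      _ = y := one_mul y
  · intro r hr
    rw [mem_filter, mem_range] at hr
    have : (d * ((c * r) % p)) % p = r := by
      have h1 : d * ((c * r) % p) ≡ r [MOD p] := by
        calc d * ((c * r) % p) ≡ d * (c * r) [MOD p] := (Nat.mod_modEq _ _).mul_left d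
          _ = (c * d) * r := by ring
          _ ≡ 1 * r [MOD p] := hd'.mul_right r
          _ = r := one_mul r
      unfold Nat.ModEq at h1
      rw [h1, Nat.mod_eq_of_lt hr.1]
    exact this
  · intro y hy
    rw [mem_filter, mem_range] at hy
    have : (c * ((d * y) % p)) % p = y := by
      have h1 : c * ((d * y) % p) ≡ y [MOD p] := by
        calc c * ((d * y) % p) ≡ c * (d * y) [MOD p] := (Nat.mod_modEq _ _).mul_left c
          _ = (c * d) * y := by ring
          _ ≡ 1 * y [MOD p] := hd'.mul_right y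
          _ = y := one_mul y
      unfold Nat.ModEq at h1
      rw [h1, Nat.mod_eq_of_lt hy.1]
    exact this

/-- the number of classes at `p ≥ z` -/
theorem rho_ge (H : Finset ℕ) (c : ℕ) {z : ℝ} {p : ℕ} (hp : p.Prime) (hz : ¬ (p : ℝ) < z) :
    ((range p).filter (cnd H c z p)).card = 1 := by
  have : (range p).filter (cnd H c z p) = {0} := by
    ext r
    rw [mem_filter, mem_range, mem_singleton]
    unfold cnd
    constructor
    · rintro ⟨h1, h2 | h2⟩
      · exact Nat.eq_zero_of_dvd_of_lt h2 h1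
      · exact absurd h2.1 hz
    · rintro rfl
      exact ⟨hp.pos, Or.inl (dvd_zero _)⟩
  rw [this, card_singleton]

/-- the prime variable -/
def SS (M b c q u x : ℕ) : Finset ℕ :=
  (Ioc (x / c) ((2 * x) / c)).filter (fun P => (c * P) % M = b ∧ q ∣ c * P + u)

/-- the sieved number -/
def vv (H : Finset ℕ) (c : ℕ) (z : ℝ) (P : ℕ) : ℕ :=
  P * ∏ p ∈ (PB z).filter (fun p => p ∣ ∏ h ∈ H.erase 0, (c * P + h)), p

/-- the density -/
def g1 (H : Finset ℕ) (z : ℝ) (p : ℕ) : ℝ := if (p : ℝ) < z then gg H p else 1 / p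

theorem dvd_vv (H : Finset ℕ) (c : ℕ) (z : ℝ) {p : ℕ} (hp : p.Prime) (P : ℕ) :
    p ∣ vv H c z P ↔ cnd H c z p P := by
  unfold vv cnd
  rw [hp.dvd_mul]
  apply or_congr Iff.rfl
  rw [Prime.dvd_finsetProd_iff hp.prime]
  constructor
  · rintro ⟨p', hp', hd⟩
    rw [mem_filter, mem_PB] at hp'
    have : p = p' := (Nat.prime_dvd_prime_iff_eq hp hp'.1.2).1 hd
    subst this
    exact ⟨hp'.1.1, hp'.2⟩
  · rintro ⟨h1, h2⟩
    exact ⟨p, mem_filter.2 ⟨mem_PB.2 ⟨h1, hp⟩, h2⟩, dvd_rfl⟩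

/-- the class modulo `M q` -/
theorem exists_class (M b c q u : ℕ) (hM : 0 < M) (hb : b < M) (hq : q.Prime) (hqM : M < q)
    (hc : Nat.Coprime c (M * q)) :
    ∃ r₀ : ℕ, ∀ P : ℕ, ((c * P) % M = b ∧ q ∣ c * P + u) ↔ P ≡ r₀ [MOD M * q] := by
  have h30 : Nat.Coprime M q := by
    apply Nat.Coprime.symm
    rw [Nat.Prime.coprime_iff_not_dvd hq]
    intro h
    exact absurd (Nat.le_of_dvd hM h) (by omega)
  have hMq : 1 < M * q := by
    have : 1 * 2 ≤ M * q := Nat.mul_le_mul hM hq.two_le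
    omega
  obtain ⟨d, _, hd⟩ := Nat.exists_mul_mod_eq_one_of_coprime hc hMq
  have hd' : c * d ≡ 1 [MOD M * q] := by
    unfold Nat.ModEq
    rw [hd, Nat.mod_eq_of_lt hMq]
  obtain ⟨w, hw1, hw2⟩ := Nat.chineseRemainder h30 b (q - u % q)
  refine ⟨d * w, fun P => ?_⟩
  have hw3 : q ∣ w + u := by
    have h1 : w + u ≡ (q - u % q) + u % q [MOD q] := hw2.add (Nat.mod_modEq u q).symm
    rw [Nat.sub_add_cancel (Nat.mod_lt _ hq.pos).le] at h1
    exact (Nat.modEq_zero_iff_dvd).1 (h1.trans ((Nat.modEq_zero_iff_dvd).2 dvd_rfl))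
  have key : (P ≡ d * w [MOD M * q]) ↔ (c * P ≡ w [MOD M * q]) := by
    constructor
    · intro h
      calc c * P ≡ c * (d * w) [MOD M * q] := h.mul_left c
        _ = (c * d) * w := by ring
        _ ≡ 1 * w [MOD M * q] := hd'.mul_right w
        _ = w := one_mul w
    · intro h
      calc P = 1 * P := (one_mul P).symm
        _ ≡ (c * d) * P [MOD M * q] := (hd'.mul_right P).symm
        _ = d * (c * P) := by ring
        _ ≡ d * w [MOD M * q] := h.mul_left d
  rw [key, ← Nat.modEq_and_modEq_iff_modEq_mul h30]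
  apply and_congr
  · constructor
    · intro h
      refine Nat.ModEq.trans ?_ hw1.symm
      unfold Nat.ModEq
      rw [h, Nat.mod_eq_of_lt hb]
    · intro h
      have h2 := h.trans hw1
      unfold Nat.ModEq at h2
      rw [h2, Nat.mod_eq_of_lt hb]
  · constructor
    · intro h
      have h1 : c * P + u ≡ w + u [MOD q] :=
        ((Nat.modEq_zero_iff_dvd).2 h).trans ((Nat.modEq_zero_iff_dvd).2 hw3).symm
      exact Nat.ModEq.add_right_cancel' _ h1
    · intro h
      exact (Nat.modEq_zero_iff_dvd).1 ((h.add_right u).trans ((Nat.modEq_zero_iff_dvd).2 hw3))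

theorem g1_nonneg (H : Finset ℕ) (z : ℝ) (p : ℕ) : 0 ≤ g1 H z p := by
  unfold g1
  split_ifs
  · exact gg_nonneg H p
  · positivity

theorem g1_le (H : Finset ℕ) (hH : 1 ≤ H.card) (z : ℝ) {p : ℕ} (hp : p.Prime) :
    g1 H z p ≤ (H.card : ℝ) / p := by
  unfold g1
  split_ifs
  · exact gg_le H hp
  · exact div_le_div_of_nonneg_right (by exact_mod_cast hH) (by positivity)

theorem g1_le_half (H : Finset ℕ) (z : ℝ) {p : ℕ} (hp : p.Prime) : g1 H z p ≤ 1 / 2 := by
  unfold g1
  split_ifs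
  · exact gg_le_half H hp
  · have h2 : (2 : ℝ) ≤ p := by exact_mod_cast hp.two_le
    exact div_le_div_of_nonneg_left (by norm_num) (by norm_num) h2

/-- the remainder -/
theorem rem_le (H : Finset ℕ) (b c q u x : ℕ) (z : ℝ) (hA : Adm H b) (hq : q.Prime) (hqM : Mk H < q)
    (hz : (2 * H.card : ℝ) < z)
    (hc1 : 1 ≤ c) (hc : Nat.Coprime c (Mk H * q)) (hcz : Rough z c) (δ : ℕ) (hδ : Squarefree δ) (hδq : ¬ q ∣ δ) :
    |(((SS (Mk H) b c q u x).filter (fun P => δ ∣ vv H c z P)).card : ℝ)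
      - (x : ℝ) / (Mk H * c * q) * ∏ p ∈ δ.primeFactors, g1 H z p| ≤ 2 * δ := by
  obtain ⟨h0, hk, hb, hb30⟩ := hA
  have hM0 : 0 < Mk H := Mk_pos H
  have hδ0 : 0 < δ := Nat.pos_of_ne_zero hδ.ne_zero
  have hδ1 : (1 : ℝ) ≤ δ := by exact_mod_cast hδ0
  by_cases h5 : ∃ p : ℕ, p.Prime ∧ p ∣ δ ∧ p ≤ 2 * H.card
  · obtain ⟨p, hp, hpδ, hp5⟩ := h5
    have hpz : (p : ℝ) < z := by
      have : (p : ℝ) ≤ 2 * H.card := by exact_mod_cast hp5
      linarith
    have h1 : ∏ p ∈ δ.primeFactors, g1 H z p = 0 := by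
      apply prod_eq_zero (i := p) (Nat.mem_primeFactors.2 ⟨hp, hpδ, hδ0.ne'⟩)
      unfold g1 gg
      rw [if_pos hpz, if_pos hp5]
    have h2 : (SS (Mk H) b c q u x).filter (fun P => δ ∣ vv H c z P) = ∅ := by
      rw [filter_eq_empty_iff]
      intro P hP hd
      unfold SS at hP
      rw [mem_filter] at hP
      have h3 : cnd H c z p P := (dvd_vv H c z hp P).1 (hpδ.trans hd)
      have h4 : p ∣ PiH H (c * P) := by
        unfold cnd at h3
        rw [piH_split H h0]
        rcases h3 with h3 | h3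
        · exact (h3.mul_left c).mul_right _
        · exact h3.2.mul_left _
      have hp30 : p ∣ Mk H := (dvd_Mk H hp).2 hp5
      have h6 : p ∣ PiH H b := by
        refine (piH_congr H (n := p) ?_).1 h4
        have h7 : c * P ≡ b [MOD Mk H] := by
          unfold Nat.ModEq
          rw [hP.2.1, Nat.mod_eq_of_lt hb]
        exact h7.of_dvd hp30
      exact absurd (Nat.dvd_gcd h6 hp30) (by rw [hb30]; exact hp.one_lt.ne' ∘ Nat.dvd_one.1)
    rw [h1, h2]
    simp only [card_empty, Nat.cast_zero, mul_zero, sub_zero, abs_zero]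
    linarith
  · push Not at h5
    obtain ⟨r₀, hr₀⟩ := exists_class (Mk H) b c q u hM0 hb hq hqM hc
    have hpf : ∀ p ∈ δ.primeFactors, p.Prime ∧ 2 * H.card < p ∧ Nat.Coprime (Mk H * q) p := by
      intro p hp
      have hp1 := Nat.prime_of_mem_primeFactors hp
      have hp2 := Nat.dvd_of_mem_primeFactors hp
      have hp5 := h5 p hp1 hp2
      refine ⟨hp1, hp5, ?_⟩
      apply Nat.Coprime.symm
      rw [Nat.Prime.coprime_iff_not_dvd hp1]
      intro h
      rcases (hp1.dvd_mul).1 h with h | h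
      · exact absurd ((dvd_Mk H hp1).1 h) (by omega)
      · have : p = q := (Nat.prime_dvd_prime_iff_eq hp1 hq).1 h
        subst this
        exact hδq hp2
    have e1 : (SS (Mk H) b c q u x).filter (fun P => δ ∣ vv H c z P)
        = (Ioc (x / c) ((2 * x) / c)).filter
          (fun P => P ≡ r₀ [MOD Mk H * q] ∧ ∀ p ∈ δ.primeFactors, cnd H c z p P) := by
      unfold SS
      rw [filter_filter]
      apply filter_congr
      intro P _
      rw [hr₀ P, sqf_dvd hδ]
      apply and_congr Iff.rfl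
      constructor
      · intro h p hp
        exact (dvd_vv H c z (hpf p hp).1 P).1 (h p hp)
      · intro h p hp
        exact (dvd_vv H c z (hpf p hp).1 P).2 (h p hp)
    have h30q : 0 < Mk H * q := Nat.mul_pos hM0 hq.pos
    have h1 := crt_count (x / c) ((2 * x) / c) (Nat.div_le_div_right (by omega)) (cnd H c z)
      (cnd_congr H c z) δ.primeFactors (fun p hp => (hpf p hp).1) (Mk H * q) r₀ h30q
      (fun p hp => (hpf p hp).2.2)
    have h2 : ∀ p ∈ δ.primeFactors, (((range p).filter (cnd H c z p)).card : ℝ) / p = g1 H z p := by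
      intro p hp
      obtain ⟨hp1, hp5, _⟩ := hpf p hp
      unfold g1
      split_ifs with hpz
      · rw [rho_lt H h0 c hp1 hpz]
        · unfold gg
          rw [if_neg (by omega)]
        · intro hd
          have := hcz p hp1 hd
          linarith
      · rw [rho_ge H c hp1 hpz]
        simp
    rw [prod_congr rfl h2] at h1
    have h3 : ∏ p ∈ δ.primeFactors, (((range p).filter (cnd H c z p)).card : ℝ) ≤ δ := by
      have h4 : ∏ p ∈ δ.primeFactors, (((range p).filter (cnd H c z p)).card : ℝ)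
          ≤ ∏ p ∈ δ.primeFactors, (p : ℝ) := by
        apply prod_le_prod
        · intro p _; positivity
        · intro p _
          have : ((range p).filter (cnd H c z p)).card ≤ p :=
            (card_filter_le _ _).trans (by simp)
          exact_mod_cast this
      refine h4.trans ?_
      rw [← Nat.cast_prod, Nat.prod_primeFactors_of_squarefree hδ]
    have h4 : 0 ≤ ∏ p ∈ δ.primeFactors, g1 H z p := prod_nonneg fun p _ => g1_nonneg H z p
    have h5 : ∏ p ∈ δ.primeFactors, g1 H z p ≤ 1 := by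
      apply prod_le_one
      · intro p _; exact g1_nonneg H z p
      · intro p hp
        have := g1_le_half H z (hpf p hp).1
        linarith
    have h6 := len_bd x c hc1
    have hq0 : (0 : ℝ) < q := by exact_mod_cast hq.pos
    have hc0 : (0 : ℝ) < c := by exact_mod_cast hc1
    have hMr : (1 : ℝ) ≤ Mk H := by exact_mod_cast hM0
    have hMr0 : (0 : ℝ) < Mk H := by linarith
    have h7 : |((((2 * x) / c : ℕ) : ℝ) - ((x / c : ℕ) : ℝ)) / ((Mk H * q : ℕ) : ℝ) -
        (x : ℝ) / (Mk H * c * q)| ≤ 1 := by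
      have h8 : ((((2 * x) / c : ℕ) : ℝ) - ((x / c : ℕ) : ℝ)) / ((Mk H * q : ℕ) : ℝ) -
          (x : ℝ) / (Mk H * c * q)
          = (((((2 * x) / c : ℕ) : ℝ) - ((x / c : ℕ) : ℝ)) - (x : ℝ) / c) / (Mk H * q) := by
        push_cast
        field_simp
      rw [h8, abs_div, abs_of_pos (by positivity : (0 : ℝ) < Mk H * q), div_le_one (by positivity)]
      have hq1 : (1 : ℝ) ≤ q := by exact_mod_cast hq.one_lt.le
      nlinarith
    rw [e1]
    set N : ℝ := (((Ioc (x / c) ((2 * x) / c)).filter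
          (fun P => P ≡ r₀ [MOD Mk H * q] ∧ ∀ p ∈ δ.primeFactors, cnd H c z p P)).card : ℝ) with hN
    set G : ℝ := ∏ p ∈ δ.primeFactors, g1 H z p with hG
    set L : ℝ := ((((2 * x) / c : ℕ) : ℝ) - ((x / c : ℕ) : ℝ)) / ((Mk H * q : ℕ) : ℝ) with hL
    set X : ℝ := (x : ℝ) / (Mk H * c * q) with hX
    have h9 : N - X * G = (N - L * G) + (L - X) * G := by ring
    rw [h9]
    refine (abs_add_le _ _).trans ?_
    have h10 : |(L - X) * G| ≤ 1 := by
      rw [abs_mul, abs_of_nonneg h4]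
      calc |L - X| * G ≤ 1 * 1 := mul_le_mul h7 h5 h4 (by norm_num)
        _ = 1 := by norm_num
    have h11 := h1.trans h3
    linarith

end BM

end

end Pool.Agent.Lib.MP3efbeb.TK
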