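import Pool.Agent.Lib.MP_3efbeb_nt.TK.Spec

/-!
# MP_3efbeb_nt, line T(k): the roots of `PiH H` modulo a squarefree number
-/

set_option autoImplicit false

namespace Pool.Agent.Lib.MP3efbeb.TK

open Finset
open scoped Classical
open Pool.Agent.Lib.MP391708.QPA (PB rInd Rough)
open Pool.Agent.Lib.MP3efbeb.T (BP sg gpf cofP RS PrimeIn)

namespace NUM

theorem dvd_iff_of_modEq (H : Finset ℕ) {n r r' : ℕ} (h : r ≡ r' [MOD n]) :
    n ∣ PiH H r ↔ n ∣ PiH H r' := by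
  have h1 : (r : ZMod n) = r' := (ZMod.natCast_eq_natCast_iff _ _ _).2 h
  rw [← ZMod.natCast_eq_zero_iff, ← ZMod.natCast_eq_zero_iff]
  unfold PiH
  push_cast
  rw [h1]

theorem nu_one (H : Finset ℕ) : nu H 1 = 1 := by
  unfold nu
  simp

theorem nu_mul (H : Finset ℕ) {m n : ℕ} (h : Nat.Coprime m n) (hm : 0 < m) (hn : 0 < n) :
    nu H (m * n) = nu H m * nu H n := by
  unfold nu
  rw [← card_product]
  refine card_nbij' (fun t => (t % m, t % n)) (fun p => (Nat.chineseRemainder h p.1 p.2 : ℕ))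
    ?_ ?_ ?_ ?_
  · intro r hr
    simp only [coe_filter, mem_range, Set.mem_ofPred_eq, coe_product, Set.mem_prod] at hr ⊢
    obtain ⟨h1, h2⟩ := hr
    refine ⟨⟨Nat.mod_lt _ hm, ?_⟩, Nat.mod_lt _ hn, ?_⟩
    · exact (dvd_iff_of_modEq H (Nat.mod_modEq r m)).2 ((Dvd.intro _ rfl).trans h2)
    · exact (dvd_iff_of_modEq H (Nat.mod_modEq r n)).2 ((Dvd.intro_left _ rfl).trans h2)
  · intro p hp
    simp only [coe_filter, mem_range, Set.mem_ofPred_eq, coe_product, Set.mem_prod] at hp ⊢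
    obtain ⟨⟨h1, h2⟩, h3, h4⟩ := hp
    refine ⟨Nat.chineseRemainder_lt_mul h _ _ hm.ne' hn.ne', h.mul_dvd_of_dvd_of_dvd ?_ ?_⟩
    · exact (dvd_iff_of_modEq H (Nat.chineseRemainder h p.1 p.2).2.1).2 h2
    · exact (dvd_iff_of_modEq H (Nat.chineseRemainder h p.1 p.2).2.2).2 h4
  · intro r hr
    simp only [coe_filter, mem_range, Set.mem_ofPred_eq] at hr
    have h1 := (Nat.chineseRemainder h (r % m) (r % n)).2
    have h2 : (Nat.chineseRemainder h (r % m) (r % n) : ℕ) ≡ r [MOD m * n] :=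
      (Nat.modEq_and_modEq_iff_modEq_mul h).1
        ⟨h1.1.trans (Nat.mod_modEq r m), h1.2.trans (Nat.mod_modEq r n)⟩
    exact Nat.ModEq.eq_of_lt_of_lt h2 (Nat.chineseRemainder_lt_mul h _ _ hm.ne' hn.ne') hr.1
  · intro p hp
    simp only [coe_filter, mem_range, Set.mem_ofPred_eq, coe_product, Set.mem_prod] at hp
    obtain ⟨⟨h1, h2⟩, h3, h4⟩ := hp
    have h5 := (Nat.chineseRemainder h p.1 p.2).2
    refine Prod.ext ?_ ?_
    · change (Nat.chineseRemainder h p.1 p.2 : ℕ) % m = p.1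
      rw [show (Nat.chineseRemainder h p.1 p.2 : ℕ) % m = p.1 % m from h5.1, Nat.mod_eq_of_lt h1]
    · change (Nat.chineseRemainder h p.1 p.2 : ℕ) % n = p.2
      rw [show (Nat.chineseRemainder h p.1 p.2 : ℕ) % n = p.2 % n from h5.2, Nat.mod_eq_of_lt h3]

theorem nu_prod (H : Finset ℕ) (A : Finset ℕ) (hs : ∀ p ∈ A, p.Prime) :
    nu H (∏ p ∈ A, p) = ∏ p ∈ A, nu H p := by
  induction A using Finset.induction_on with
  | empty => simp [nu_one]
  | insert a A ha ih =>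
    have hs' : ∀ p ∈ A, p.Prime := fun p hp => hs p (mem_insert_of_mem hp)
    have hap : a.Prime := hs a (mem_insert_self _ _)
    rw [prod_insert ha, prod_insert ha, nu_mul, ih hs']
    · refine Nat.Coprime.prod_right fun p hp => ?_
      rw [Nat.coprime_primes hap (hs' p hp)]
      rintro rfl
      exact ha hp
    · exact hap.pos
    · exact prod_pos fun p hp => (hs' p hp).pos

theorem nu_sq (H : Finset ℕ) {δ : ℕ} (hδ : Squarefree δ) : nu H δ = ∏ p ∈ δ.primeFactors, nu H p := by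
  conv_lhs => rw [← Nat.prod_primeFactors_of_squarefree hδ]
  exact nu_prod H _ fun p hp => Nat.prime_of_mem_primeFactors hp

theorem nu_le (H : Finset ℕ) (n : ℕ) : nu H n ≤ n := by
  unfold nu
  exact (card_filter_le _ _).trans (by simp)

theorem one_root (p c : ℕ) : ((range p).filter (fun r => p ∣ r + c)).card ≤ 1 := by
  rw [card_le_one]
  intro r hr r' hr'
  rw [mem_filter, mem_range] at hr hr'
  have h1 : r + c ≡ r' + c [MOD p] :=
    ((Nat.modEq_zero_iff_dvd).2 hr.2).trans ((Nat.modEq_zero_iff_dvd).2 hr'.2).symm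
  exact Nat.ModEq.eq_of_lt_of_lt (Nat.ModEq.add_right_cancel' c h1) hr.1 hr'.1

theorem dvd_piH {H : Finset ℕ} {p m : ℕ} (hp : p.Prime) : p ∣ PiH H m ↔ ∃ h ∈ H, p ∣ m + h := by
  unfold PiH
  exact hp.prime.dvd_finsetProd_iff _

theorem nu_le_card (H : Finset ℕ) {p : ℕ} (hp : p.Prime) : nu H p ≤ H.card := by
  unfold nu
  have h : (range p).filter (fun r => p ∣ PiH H r) ⊆
      H.biUnion (fun h => (range p).filter (fun r => p ∣ r + h)) := by
    intro r hr
    rw [mem_filter, dvd_piH hp] at hr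
    obtain ⟨h1, h, h2, h3⟩ := hr
    rw [mem_biUnion]
    exact ⟨h, h2, mem_filter.2 ⟨h1, h3⟩⟩
  refine (card_le_card h).trans ?_
  refine card_biUnion_le.trans ?_
  refine (sum_le_sum (fun h _ => one_root p h)).trans ?_
  simp

/-- the classes modulo `q δ` -/
def RR2 (H : Finset ℕ) (u q δ : ℕ) : Finset ℕ := (range (q * δ)).filter (fun r => q ∣ r + u ∧ δ ∣ PiH H r)

theorem card_RR2 (H : Finset ℕ) (u : ℕ) {q δ : ℕ} (h : Nat.Coprime q δ) (hq : 0 < q) (hδ : 0 < δ) :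
    (RR2 H u q δ).card = nu H δ := by
  unfold RR2 nu
  have hu : (q - 1) * u + u ≡ 0 [MOD q] := by
    have : (q - 1) * u + u = q * u := by
      obtain ⟨k, rfl⟩ : ∃ k, q = k + 1 := ⟨q - 1, by omega⟩
      simp; ring
    rw [this, Nat.modEq_zero_iff_dvd]
    exact Dvd.intro _ rfl
  refine card_nbij' (fun r => r % δ) (fun a => (Nat.chineseRemainder h ((q - 1) * u) a : ℕ)) ?_ ?_ ?_ ?_
  · intro r hr
    simp only [coe_filter, mem_range, Set.mem_ofPred_eq] at hr ⊢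
    obtain ⟨h1, h2, h3⟩ := hr
    exact ⟨Nat.mod_lt _ hδ, (dvd_iff_of_modEq H (Nat.mod_modEq r δ)).2 h3⟩
  · intro a ha
    simp only [coe_filter, mem_range, Set.mem_ofPred_eq] at ha ⊢
    have h5 := (Nat.chineseRemainder h ((q - 1) * u) a).2
    refine ⟨Nat.chineseRemainder_lt_mul h _ _ hq.ne' hδ.ne', ?_, (dvd_iff_of_modEq H h5.2).2 ha.2⟩
    exact (Nat.modEq_zero_iff_dvd).1 ((Nat.ModEq.add_right u h5.1).trans hu)
  · intro r hr
    simp only [coe_filter, mem_range, Set.mem_ofPred_eq] at hr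
    obtain ⟨h1, h2, h3⟩ := hr
    have h5 := (Nat.chineseRemainder h ((q - 1) * u) (r % δ)).2
    have h6 : (q - 1) * u ≡ r [MOD q] :=
      Nat.ModEq.add_right_cancel' u (hu.trans ((Nat.modEq_zero_iff_dvd).2 h2).symm)
    have h7 : (Nat.chineseRemainder h ((q - 1) * u) (r % δ) : ℕ) ≡ r [MOD q * δ] :=
      (Nat.modEq_and_modEq_iff_modEq_mul h).1 ⟨h5.1.trans h6, h5.2.trans (Nat.mod_modEq r δ)⟩
    exact Nat.ModEq.eq_of_lt_of_lt h7 (Nat.chineseRemainder_lt_mul h _ _ hq.ne' hδ.ne') h1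
  · intro a ha
    simp only [coe_filter, mem_range, Set.mem_ofPred_eq] at ha
    have h5 := (Nat.chineseRemainder h ((q - 1) * u) a).2
    change (Nat.chineseRemainder h ((q - 1) * u) a : ℕ) % δ = a
    rw [show (Nat.chineseRemainder h ((q - 1) * u) a : ℕ) % δ = a % δ from h5.2, Nat.mod_eq_of_lt ha.1]

theorem mem_RR2 (H : Finset ℕ) (u : ℕ) {q δ : ℕ} (hq : 0 < q) (hδ : 0 < δ) (m : ℕ) :
    m % (q * δ) ∈ RR2 H u q δ ↔ (q ∣ m + u ∧ δ ∣ PiH H m) := by
  unfold RR2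
  rw [mem_filter, mem_range]
  have h0 : m % (q * δ) ≡ m [MOD q * δ] := Nat.mod_modEq _ _
  have h1 : m % (q * δ) ≡ m [MOD q] := h0.of_mul_right δ
  have h2 : m % (q * δ) ≡ m [MOD δ] := h0.of_mul_left q
  have h3 : q ∣ m % (q * δ) + u ↔ q ∣ m + u := by
    rw [← Nat.modEq_zero_iff_dvd, ← Nat.modEq_zero_iff_dvd]
    exact ⟨fun h => (h1.symm.add_right u).trans h, fun h => (h1.add_right u).trans h⟩
  rw [h3, dvd_iff_of_modEq H h2]
  constructor
  · rintro ⟨_, h⟩; exact h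
  · intro h; exact ⟨Nat.mod_lt _ (by positivity), h⟩

theorem gg_nonneg (H : Finset ℕ) (p : ℕ) : 0 ≤ gg H p := by
  unfold gg; split_ifs <;> positivity

theorem gg_le (H : Finset ℕ) {p : ℕ} (hp : p.Prime) : gg H p ≤ (H.card : ℝ) / p := by
  unfold gg
  have hp0 : (0 : ℝ) < p := by exact_mod_cast hp.pos
  split_ifs with h
  · positivity
  · have h1 : (nu H p : ℝ) ≤ (H.card : ℝ) := by exact_mod_cast nu_le_card H hp
    exact div_le_div_of_nonneg_right h1 hp0.le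

theorem gg_le_half (H : Finset ℕ) {p : ℕ} (hp : p.Prime) : gg H p ≤ 1 / 2 := by
  have h0 := gg_le H hp
  by_cases h : p ≤ 2 * H.card
  · unfold gg; rw [if_pos h]; norm_num
  · have h1 : 2 * (H.card : ℝ) ≤ p := by
      have : 2 * H.card ≤ p := by omega
      exact_mod_cast this
    have hp0 : (0 : ℝ) < p := by exact_mod_cast hp.pos
    refine h0.trans ?_
    rw [div_le_iff₀ hp0]
    linarith

theorem Mk_pos (H : Finset ℕ) : 0 < Mk H := by
  unfold Mk
  exact prod_pos fun p hp => (mem_filter.1 hp).2.pos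

theorem dvd_Mk {H : Finset ℕ} {p : ℕ} (hp : p.Prime) (h : p ≤ 2 * H.card) : p ∣ Mk H := by
  unfold Mk
  exact dvd_prod_of_mem _ (mem_filter.2 ⟨mem_range.2 (by omega), hp⟩)

theorem coprimeMk {H : Finset ℕ} {n : ℕ} : Nat.Coprime n (Mk H) ↔ ∀ p : ℕ, p.Prime → p ≤ 2 * H.card → ¬ p ∣ n := by
  constructor
  · intro h p hp hk hd
    exact Nat.not_coprime_of_dvd_of_dvd hp.one_lt hd (dvd_Mk hp hk) h
  · intro h
    unfold Mk
    refine Nat.Coprime.prod_right fun p hp => ?_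
    rw [mem_filter, mem_range] at hp
    rw [Nat.coprime_comm, Nat.Prime.coprime_iff_not_dvd hp.2]
    exact h p hp.2 (by omega)

theorem prod_gg_of_coprime (H : Finset ℕ) {δ : ℕ} (hδ : Squarefree δ) (hM : Nat.Coprime δ (Mk H)) :
    ∏ p ∈ δ.primeFactors, gg H p = (nu H δ : ℝ) / δ := by
  have h1 : ∏ p ∈ δ.primeFactors, gg H p = ∏ p ∈ δ.primeFactors, ((nu H p : ℝ) / p) := by
    apply prod_congr rfl
    intro p hp
    have hpp := Nat.prime_of_mem_primeFactors hp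
    have hd := Nat.dvd_of_mem_primeFactors hp
    unfold gg
    rw [if_neg]
    intro h5
    exact coprimeMk.1 hM p hpp h5 hd
  rw [h1, prod_div_distrib, ← Nat.cast_prod, ← Nat.cast_prod, Nat.prod_primeFactors_of_squarefree hδ,
    nu_sq H hδ]

theorem prod_gg_of_not_coprime (H : Finset ℕ) {δ : ℕ} (hδ : δ ≠ 0) (hM : ¬ Nat.Coprime δ (Mk H)) :
    ∏ p ∈ δ.primeFactors, gg H p = 0 := by
  rw [coprimeMk] at hM
  push Not at hM
  obtain ⟨p, hp, h5, hd⟩ := hM
  refine prod_eq_zero (Nat.mem_primeFactors.2 ⟨hp, hd, hδ⟩) ?_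
  unfold gg
  rw [if_pos h5]

/-- `m = b mod Mk`: no divisor of `PiH H m` has a common factor with `Mk` -/
theorem coprime_of_adm {H : Finset ℕ} {b m δ : ℕ} (h : Adm H b) (hm : m % Mk H = b) (hd : δ ∣ PiH H m) :
    Nat.Coprime δ (Mk H) := by
  obtain ⟨_, _, hb, hc⟩ := h
  have h1 : m ≡ b [MOD (Mk H)] := by
    unfold Nat.ModEq
    rw [hm, Nat.mod_eq_of_lt hb]
  rw [coprimeMk] at hc ⊢
  intro p hp hk hdp
  exact hc p hp hk ((dvd_iff_of_modEq H (h1.of_dvd (dvd_Mk hp hk))).1 (hdp.trans hd))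

theorem coprime_b {H : Finset ℕ} {b : ℕ} (h : Adm H b) : Nat.Coprime b (Mk H) := by
  refine coprime_of_adm h (m := b) (Nat.mod_eq_of_lt h.2.2.1) ?_
  unfold PiH
  have := dvd_prod_of_mem (fun h => b + h) h.1
  simpa using this

end NUM

end Pool.Agent.Lib.MP3efbeb.TK
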