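import Pool.Agent.Lib.MP_3efbeb_nt.TK.PRA

/-!
# TK: PR, the pairs
-/

set_option autoImplicit false

namespace Pool.Agent.Lib.MP3efbeb.TK

open Finset
open scoped Classical
open Pool.Agent.Lib.MP391708.QPA (PB rInd Rough)

namespace PRM

open Pool.Agent.Lib.MP3efbeb.T.PRM (FF count_trivial sum_inv_le sum_sqf_le prod_sqf)

lemma gc_dvd_left (H : Finset ℕ) (m n : ℕ) : gc H m n ∣ PiH H m := by
  unfold gc
  exact (prod_dvd_prod_of_subset _ _ _ inter_subset_left).trans (Nat.prod_primeFactors_dvd _)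

lemma gc_dvd_right (H : Finset ℕ) (m n : ℕ) : gc H m n ∣ PiH H n := by
  unfold gc
  exact (prod_dvd_prod_of_subset _ _ _ inter_subset_right).trans (Nat.prod_primeFactors_dvd _)

/-- the pairs with a small common part -/
lemma part1 (H G : Finset ℕ) (y : ℝ) (D : Finset ℕ)
    (hD : ∀ m ∈ G, ∀ n ∈ G, (gc H m n : ℝ) ≤ y → gc H m n ∈ D) :
    ∑ m ∈ G, ∑ n ∈ G, (if (gc H m n : ℝ) ≤ y then (gc H m n : ℝ) else 0)
      ≤ ∑ d ∈ D, (d : ℝ) * ((G.filter fun m => d ∣ PiH H m).card : ℝ) ^ 2 := by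
  let a : ℕ → ℕ → ℝ := fun d m => if d ∣ PiH H m then 1 else 0
  have ha0 : ∀ d m, 0 ≤ a d m := fun d m => by
    simp only [a]
    split_ifs <;> norm_num
  have h1 : ∀ m ∈ G, ∀ n ∈ G, (if (gc H m n : ℝ) ≤ y then (gc H m n : ℝ) else 0)
      ≤ ∑ d ∈ D, (d : ℝ) * (a d m * a d n) := by
    intro m hm n hn
    split_ifs with h
    · refine le_trans (le_of_eq ?_) (single_le_sum (f := fun d : ℕ => (d : ℝ) * (a d m * a d n))
        (fun d _ => mul_nonneg (Nat.cast_nonneg d) (mul_nonneg (ha0 d m) (ha0 d n))) (hD m hm n hn h))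
      simp only [a]
      rw [if_pos (gc_dvd_left H m n), if_pos (gc_dvd_right H m n)]
      ring
    · exact sum_nonneg fun d _ => mul_nonneg (Nat.cast_nonneg d) (mul_nonneg (ha0 d m) (ha0 d n))
  have h2 : ∀ d, ∑ m ∈ G, a d m = ((G.filter fun m => d ∣ PiH H m).card : ℝ) := by
    intro d
    simp only [a]
    rw [Finset.card_filter]
    push_cast
    rfl
  calc ∑ m ∈ G, ∑ n ∈ G, (if (gc H m n : ℝ) ≤ y then (gc H m n : ℝ) else 0)
      ≤ ∑ m ∈ G, ∑ n ∈ G, ∑ d ∈ D, (d : ℝ) * (a d m * a d n) :=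
        sum_le_sum fun m hm => sum_le_sum fun n hn => h1 m hm n hn
    _ = ∑ m ∈ G, ∑ d ∈ D, ∑ n ∈ G, (d : ℝ) * (a d m * a d n) := sum_congr rfl fun m _ => sum_comm
    _ = ∑ d ∈ D, ∑ m ∈ G, ∑ n ∈ G, (d : ℝ) * (a d m * a d n) := sum_comm
    _ = ∑ d ∈ D, (d : ℝ) * ((G.filter fun m => d ∣ PiH H m).card : ℝ) ^ 2 := by
        refine sum_congr rfl fun d _ => ?_
        rw [← h2 d, sq, sum_mul_sum, mul_sum]
        exact sum_congr rfl fun m _ => by rw [mul_sum]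

/-- the pairs with a large common part -/
lemma part2 (H G : Finset ℕ) (y X B : ℝ) (hX : 0 ≤ X) (hB0 : 0 ≤ B) (L : ℕ)
    (hL : ∀ m ∈ G, (PiH H m).primeFactors.card ≤ L)
    (hB : ∀ T : Finset ℕ, (∀ p ∈ T, p.Prime) → T.card ≤ L → y < ((∏ p ∈ T, p : ℕ) : ℝ) →
      ((G.filter fun n => (∏ p ∈ T, p) ∣ PiH H n).card : ℝ) ≤ B) :
    ∑ m ∈ G, ∑ n ∈ G, (if (gc H m n : ℝ) ≤ y then 0 else X) ≤ G.card * (2 ^ L * B * X) := by
  have h1 : ∀ m ∈ G, ∑ n ∈ G, (if (gc H m n : ℝ) ≤ y then 0 else X) ≤ 2 ^ L * B * X := by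
    intro m hm
    set F := (PiH H m).primeFactors with hF
    set P := F.powerset.filter (fun T => y < ((∏ p ∈ T, p : ℕ) : ℝ)) with hP
    have h2 : ∀ n ∈ G, (if (gc H m n : ℝ) ≤ y then 0 else X)
        ≤ ∑ T ∈ P, X * (if (∏ p ∈ T, p) ∣ PiH H n then 1 else 0) := by
      intro n hn
      have h0 : ∀ T : Finset ℕ, 0 ≤ X * (if (∏ p ∈ T, p) ∣ PiH H n then (1 : ℝ) else 0) := fun T =>
        mul_nonneg hX (by split_ifs <;> norm_num)
      by_cases h : (gc H m n : ℝ) ≤ y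
      · rw [if_pos h]
        exact sum_nonneg fun T _ => h0 T
      · rw [if_neg h]
        have hmem : F ∩ (PiH H n).primeFactors ∈ P := by
          rw [hP, mem_filter, mem_powerset]
          exact ⟨inter_subset_left, not_le.1 h⟩
        refine le_trans (le_of_eq ?_) (single_le_sum
          (f := fun T : Finset ℕ => X * (if (∏ p ∈ T, p) ∣ PiH H n then (1 : ℝ) else 0))
          (fun T _ => h0 T) hmem)
        have h3 : (∏ p ∈ F ∩ (PiH H n).primeFactors, p) ∣ PiH H n := gc_dvd_right H m n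
        simp only [if_pos h3, mul_one]
    have h3 : ∀ T ∈ P, ∑ n ∈ G, X * (if (∏ p ∈ T, p) ∣ PiH H n then (1 : ℝ) else 0) ≤ X * B := by
      intro T hT
      rw [hP, mem_filter, mem_powerset] at hT
      rw [← mul_sum]
      refine mul_le_mul_of_nonneg_left ?_ hX
      have h4 := hB T (fun p hp => Nat.prime_of_mem_primeFactors (hT.1 hp))
        ((card_le_card hT.1).trans (hL m hm)) hT.2
      refine le_trans (le_of_eq ?_) h4
      rw [Finset.card_filter]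
      push_cast
      rfl
    have hcard : (P.card : ℝ) ≤ 2 ^ L := by
      have h5 : P.card ≤ 2 ^ F.card := by
        rw [hP, ← card_powerset]
        exact card_filter_le _ _
      have h6 : P.card ≤ 2 ^ L := h5.trans (Nat.pow_le_pow_right (by norm_num) (hL m hm))
      exact_mod_cast h6
    calc ∑ n ∈ G, (if (gc H m n : ℝ) ≤ y then 0 else X)
        ≤ ∑ n ∈ G, ∑ T ∈ P, X * (if (∏ p ∈ T, p) ∣ PiH H n then (1 : ℝ) else 0) := sum_le_sum h2
      _ = ∑ T ∈ P, ∑ n ∈ G, X * (if (∏ p ∈ T, p) ∣ PiH H n then (1 : ℝ) else 0) := sum_comm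
      _ ≤ ∑ T ∈ P, X * B := sum_le_sum h3
      _ = P.card * (X * B) := by rw [sum_const, nsmul_eq_mul]
      _ ≤ 2 ^ L * (X * B) := mul_le_mul_of_nonneg_right hcard (mul_nonneg hX hB0)
      _ = 2 ^ L * B * X := by ring
  refine (sum_le_sum h1).trans (le_of_eq ?_)
  rw [sum_const, nsmul_eq_mul]

end PRM

open PRM
open Pool.Agent.Lib.MP3efbeb.T.PRM (FF count_trivial sum_inv_le sum_sqf_le prod_sqf)

theorem specPR (hUG : SpecUG) : SpecPR := by
  intro H b hadm η c δ hη hc hc1 hδ hδ1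
  obtain ⟨C, hC, X₀, hX₀⟩ := hUG H b hadm η (c / 2) hη (by linarith) (by linarith)
  obtain ⟨CM, hCM, hM⟩ := sum_inv_le
  set L : ℕ := ⌈2 * (H.card : ℝ) / η⌉₊ with hL
  set K : ℝ := (1 / δ) ^ (H.card + L) with hK
  have hK0 : 0 < K := by positivity
  set E : ℝ := Real.exp ((1 + CM) / η) with hE
  have hE0 : 0 < E := Real.exp_pos _
  refine ⟨K * (C ^ 2 * E + 2 * (2 * H.card) ^ L * (4 * H.card / c) ^ (2 * H.card)), by positivity, max X₀ (max 27 (H.sup id)), fun x hx => ?_⟩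
  have hxX : X₀ ≤ x := (le_max_left _ _).trans hx
  have hx27 : 27 ≤ x := ((le_max_left _ _).trans (le_max_right _ _)).trans hx
  have hxt : ∀ h ∈ H, h ≤ x := fun h hh =>
    (le_sup (f := id) hh).trans (((le_max_right _ _).trans (le_max_right _ _)).trans hx)
  obtain ⟨h0H, hk, hb, -⟩ := hadm
  have hk3 : (3 : ℝ) ≤ H.card := by exact_mod_cast hk
  have hx27' : (27 : ℝ) ≤ x := by exact_mod_cast hx27
  have hx0 : (0 : ℝ) < x := by linarith
  have hx1 : (1 : ℝ) ≤ x := by linarith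
  have hlog : 0 < Real.log x := Real.log_pos (by linarith)
  set G : Finset ℕ := (Ioc x (2 * x)).filter (fun m => Good H b η c x m) with hG
  have hGI : G ⊆ Ioc x (2 * x) := filter_subset _ _
  have hG2 : ∀ m ∈ G, 2 ≤ m := fun m hm => by
    have := (mem_Ioc.1 (hGI hm)).1
    omega
  have hGood : ∀ m ∈ G, Good H b η c x m := fun m hm => (mem_filter.1 hm).2
  have hGL : ∀ m ∈ G, (PiH H m).primeFactors.card ≤ L := by
    intro m hm
    obtain ⟨g1, g2, g3, g4, g5, g6⟩ := hGood m hm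
    have h1 := card_pf_le (η := η) (by omega) hxt (hG2 m hm) g2 g4
    have h2 : ((PiH H m).primeFactors.card : ℝ) ≤ 2 * H.card / η := by
      rw [le_div_iff₀ hη]
      exact h1
    have h3 := h2.trans (Nat.le_ceil (2 * (H.card : ℝ) / η))
    rw [← hL] at h3
    exact_mod_cast h3
  set y : ℝ := (x : ℝ) ^ (1 - c / 2) with hy
  set X : ℝ := (x : ℝ) ^ (1 - c) with hXdef
  have hX0 : 0 < X := Real.rpow_pos_of_pos hx0 _
  have hy0 : 0 < y := Real.rpow_pos_of_pos hx0 _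
  have hyx : y ≤ x := by
    rw [hy]
    refine (Real.rpow_le_rpow_of_exponent_le hx1 (show 1 - c / 2 ≤ 1 by linarith)).trans ?_
    rw [Real.rpow_one]
  -- the bound for the correlation factor
  have hRR : ∀ m ∈ G, ∀ n ∈ G, RR H δ m n ≤ K * ((if (gc H m n : ℝ) ≤ y then (gc H m n : ℝ) else 0) +
      (if (gc H m n : ℝ) ≤ y then 0 else X)) := by
    intro m hm n hn
    refine (RR_le hk hδ hδ1 hc1 (by omega) (hG2 m hm) (hG2 n hn) (hGL m hm) (hGood m hm).2.2.2.2.2).trans ?_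
    refine mul_le_mul_of_nonneg_left ?_ hK0.le
    by_cases h : (gc H m n : ℝ) ≤ y
    · rw [if_pos h, if_pos h, add_zero]
      exact min_le_left _ _
    · rw [if_neg h, if_neg h, zero_add]
      exact min_le_right _ _
  -- first part
  set D : Finset ℕ := (Icc 1 ⌊y⌋₊).filter (fun d => Squarefree d ∧ Rough ((x : ℝ) ^ η) d) with hD
  have hDm : ∀ m ∈ G, ∀ n ∈ G, (gc H m n : ℝ) ≤ y → gc H m n ∈ D := by
    intro m hm n hn h
    rw [hD, mem_filter, mem_Icc]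
    obtain ⟨g1, g2, g3, g4, g5, g6⟩ := hGood m hm
    refine ⟨⟨gc_pos H m n, Nat.le_floor h⟩, g5.squarefree_of_dvd (gc_dvd_left H m n), ?_⟩
    intro p hp hd
    exact g4 p hp (hd.trans (gc_dvd_left H m n))
  have hDc : ∀ d ∈ D, ((G.filter fun m => d ∣ PiH H m).card : ℝ) ≤ C * x / (d * Real.log x ^ H.card) := by
    intro d hd
    rw [hD, mem_filter, mem_Icc] at hd
    have h1 : (d : ℝ) ≤ y := (Nat.cast_le.2 hd.1.2).trans (Nat.floor_le hy0.le)
    have h2 := hX₀ x hxX d hd.2.1 hd.2.2 h1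
    refine le_trans ?_ h2
    have h3 : (G.filter fun m => d ∣ PiH H m) ⊆ (Ioc x (2 * x)).filter
        (fun m => m % Mk H = b ∧ Rough ((x : ℝ) ^ η) (PiH H m) ∧ d ∣ PiH H m) := by
      intro m hm
      rw [mem_filter] at hm ⊢
      have h4 := hGood m hm.1
      exact ⟨hGI hm.1, h4.2.2.1, h4.2.2.2.1, hm.2⟩
    exact_mod_cast card_le_card h3
  have hDs : ∑ d ∈ D, 1 / (d : ℝ) ≤ E := by
    refine (sum_sqf_le D ((Ioc 0 x).filter (fun q : ℕ => q.Prime ∧ (x : ℝ) ^ η ≤ q))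
      (fun d hd => (mem_filter.1 hd).2.1) (fun d hd => ?_)).trans ?_
    · intro q hq
      rw [hD, mem_filter, mem_Icc] at hd
      have hqp := Nat.prime_of_mem_primeFactors hq
      have hqd := Nat.dvd_of_mem_primeFactors hq
      rw [mem_filter, mem_Ioc]
      refine ⟨⟨hqp.pos, ?_⟩, hqp, hd.2.2 q hqp hqd⟩
      have h1 : q ≤ d := Nat.le_of_dvd (by omega) hqd
      have h2 : (d : ℝ) ≤ x := ((Nat.cast_le.2 hd.1.2).trans (Nat.floor_le hy0.le)).trans hyx
      have h3 : d ≤ x := by exact_mod_cast h2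
      omega
    · exact Real.exp_le_exp.2 (hM η hη x (by omega))
  have hP1 := part1 H G y D hDm
  have hP1' : ∑ d ∈ D, (d : ℝ) * ((G.filter fun m => d ∣ PiH H m).card : ℝ) ^ 2
      ≤ C ^ 2 * E * ((x : ℝ) ^ 2 / Real.log x ^ (2 * H.card)) := by
    calc ∑ d ∈ D, (d : ℝ) * ((G.filter fun m => d ∣ PiH H m).card : ℝ) ^ 2
        ≤ ∑ d ∈ D, (C ^ 2 * ((x : ℝ) ^ 2 / Real.log x ^ (2 * H.card))) * (1 / (d : ℝ)) := by
          refine sum_le_sum fun d hd => ?_
          have hd0 : (0 : ℝ) < d := by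
            have : 1 ≤ d := (mem_Icc.1 (mem_filter.1 hd).1).1
            exact_mod_cast this
          have h1 : ((G.filter fun m => d ∣ PiH H m).card : ℝ) ^ 2 ≤ (C * x / (d * Real.log x ^ H.card)) ^ 2 :=
            pow_le_pow_left₀ (Nat.cast_nonneg _) (hDc d hd) 2
          refine (mul_le_mul_of_nonneg_left h1 hd0.le).trans (le_of_eq ?_)
          rw [mul_comm 2 H.card, pow_mul]
          field_simp
      _ = (C ^ 2 * ((x : ℝ) ^ 2 / Real.log x ^ (2 * H.card))) * ∑ d ∈ D, 1 / (d : ℝ) := by rw [mul_sum]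
      _ ≤ (C ^ 2 * ((x : ℝ) ^ 2 / Real.log x ^ (2 * H.card))) * E := mul_le_mul_of_nonneg_left hDs (by positivity)
      _ = C ^ 2 * E * ((x : ℝ) ^ 2 / Real.log x ^ (2 * H.card)) := by ring
  -- second part
  set B : ℝ := (H.card : ℝ) ^ L * (2 * (x : ℝ) ^ (c / 2)) with hBdef
  have hxc2 : 1 ≤ (x : ℝ) ^ (c / 2) := Real.one_le_rpow hx1 (by linarith)
  have hB : ∀ T : Finset ℕ, (∀ p ∈ T, p.Prime) → T.card ≤ L → y < ((∏ p ∈ T, p : ℕ) : ℝ) →
      ((G.filter fun n => (∏ p ∈ T, p) ∣ PiH H n).card : ℝ) ≤ B := by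
    intro T hT hTL hyT
    obtain ⟨e1, e2⟩ := prod_sqf T hT
    have e3 := count_trivial H (∏ p ∈ T, p) x e1 G hGI
    simp only [← PiH_eq] at e3
    rw [e2] at e3
    refine e3.trans ?_
    rw [hBdef]
    have hk1 : (1 : ℝ) ≤ H.card := by linarith
    have e5 : (H.card : ℝ) ^ T.card ≤ (H.card : ℝ) ^ L := pow_le_pow_right₀ hk1 hTL
    refine mul_le_mul e5 ?_ (by positivity) (by positivity)
    have e6 : (x : ℝ) / ((∏ p ∈ T, p : ℕ) : ℝ) ≤ (x : ℝ) ^ (c / 2) := by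
      have e7 : (x : ℝ) / ((∏ p ∈ T, p : ℕ) : ℝ) ≤ x / y := div_le_div_of_nonneg_left hx0.le hy0 hyT.le
      refine e7.trans (le_of_eq ?_)
      rw [hy, div_eq_iff (Real.rpow_pos_of_pos hx0 _).ne', ← Real.rpow_add hx0]
      rw [show c / 2 + (1 - c / 2) = 1 by ring, Real.rpow_one]
    linarith
  have hP2 := part2 H G y X B hX0.le (by positivity) L hGL hB
  have hGc : (G.card : ℝ) ≤ x := by
    have h1 := card_le_card hGI
    rw [Nat.card_Ioc] at h1
    have h2 : G.card ≤ x := by omega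
    exact_mod_cast h2
  have hP2' : (G.card : ℝ) * (2 ^ L * B * X) ≤ 2 * (2 * H.card) ^ L * (4 * H.card / c) ^ (2 * H.card) * ((x : ℝ) ^ 2 / Real.log x ^ (2 * H.card)) := by
    have e1 : (G.card : ℝ) * (2 ^ L * B * X) ≤ x * (2 ^ L * B * X) :=
      mul_le_mul_of_nonneg_right hGc (by positivity)
    refine e1.trans ?_
    have e2 : (x : ℝ) * (2 ^ L * B * X)
        = 2 * (2 * (H.card : ℝ)) ^ L * ((x : ℝ) ^ 2 * (x : ℝ) ^ (-(c / 2))) := by
      rw [hBdef, hXdef, mul_pow]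
      have e3 : (x : ℝ) ^ (c / 2) * (x : ℝ) ^ (1 - c) = x * (x : ℝ) ^ (-(c / 2)) := by
        rw [← Real.rpow_add hx0]
        nth_rewrite 2 [← Real.rpow_one (x : ℝ)]
        rw [← Real.rpow_add hx0]
        congr 1
        ring
      calc (x : ℝ) * (2 ^ L * ((H.card : ℝ) ^ L * (2 * (x : ℝ) ^ (c / 2))) * (x : ℝ) ^ (1 - c))
          = 2 * (2 ^ L * (H.card : ℝ) ^ L) * x * ((x : ℝ) ^ (c / 2) * (x : ℝ) ^ (1 - c)) := by ring
        _ = 2 * (2 ^ L * (H.card : ℝ) ^ L) * x * (x * (x : ℝ) ^ (-(c / 2))) := by rw [e3]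
        _ = _ := by ring
    rw [e2]
    have hk0 : (0 : ℝ) < H.card := by linarith
    have e4 : Real.log x ^ (2 * H.card) ≤ (4 * H.card / c) ^ (2 * H.card) * (x : ℝ) ^ (c / 2) := by
      have e5 := Real.log_le_rpow_div hx0.le (show 0 < c / (4 * H.card) by positivity)
      have e6 : Real.log x ^ (2 * H.card) ≤ ((x : ℝ) ^ (c / (4 * H.card)) / (c / (4 * H.card))) ^ (2 * H.card) :=
        pow_le_pow_left₀ hlog.le e5 _
      refine e6.trans (le_of_eq ?_)
      rw [div_pow, ← Real.rpow_natCast ((x : ℝ) ^ (c / (4 * H.card))), ← Real.rpow_mul hx0.le]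
      rw [show c / (4 * H.card) * ((2 * H.card : ℕ) : ℝ) = c / 2 by push_cast; field_simp; ring]
      rw [show (4 * (H.card : ℝ) / c) = (c / (4 * H.card))⁻¹ by rw [inv_div], inv_pow]
      rw [div_eq_inv_mul]
    have e7 : (x : ℝ) ^ (-(c / 2)) ≤ (4 * H.card / c) ^ (2 * H.card) / Real.log x ^ (2 * H.card) := by
      rw [le_div_iff₀ (by positivity), Real.rpow_neg hx0.le]
      rw [inv_mul_le_iff₀ (by positivity)]
      calc Real.log x ^ (2 * H.card) ≤ (4 * H.card / c) ^ (2 * H.card) * (x : ℝ) ^ (c / 2) := e4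
        _ = (x : ℝ) ^ (c / 2) * (4 * H.card / c) ^ (2 * H.card) := by ring
    calc 2 * (2 * (H.card : ℝ)) ^ L * ((x : ℝ) ^ 2 * (x : ℝ) ^ (-(c / 2)))
        ≤ 2 * (2 * (H.card : ℝ)) ^ L * ((x : ℝ) ^ 2 * ((4 * H.card / c) ^ (2 * H.card) / Real.log x ^ (2 * H.card))) := by
          refine mul_le_mul_of_nonneg_left ?_ (by positivity)
          exact mul_le_mul_of_nonneg_left e7 (by positivity)
      _ = _ := by ring
  calc ∑ m ∈ G, ∑ n ∈ G, RR H δ m n
      ≤ ∑ m ∈ G, ∑ n ∈ G, K * ((if (gc H m n : ℝ) ≤ y then (gc H m n : ℝ) else 0) +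
          (if (gc H m n : ℝ) ≤ y then 0 else X)) := sum_le_sum fun m hm => sum_le_sum fun n hn => hRR m hm n hn
    _ = K * (∑ m ∈ G, ∑ n ∈ G, (if (gc H m n : ℝ) ≤ y then (gc H m n : ℝ) else 0) +
          ∑ m ∈ G, ∑ n ∈ G, (if (gc H m n : ℝ) ≤ y then 0 else X)) := by
        rw [← sum_add_distrib, mul_sum]
        refine sum_congr rfl fun m _ => ?_
        rw [← sum_add_distrib, mul_sum]
    _ ≤ K * (C ^ 2 * E * ((x : ℝ) ^ 2 / Real.log x ^ (2 * H.card)) +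
          2 * (2 * H.card) ^ L * (4 * H.card / c) ^ (2 * H.card) * ((x : ℝ) ^ 2 / Real.log x ^ (2 * H.card))) :=
        mul_le_mul_of_nonneg_left (add_le_add (hP1.trans hP1') (hP2.trans hP2')) hK0.le
    _ = K * (C ^ 2 * E + 2 * (2 * H.card) ^ L * (4 * H.card / c) ^ (2 * H.card)) * (x : ℝ) ^ 2 / Real.log x ^ (2 * H.card) := by ring

end Pool.Agent.Lib.MP3efbeb.TK
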