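import Pool.Agent.Lib.MP_3efbeb_nt.TK.PROB
import Pool.Agent.Lib.MP_3efbeb_nt.T.PR

/-!
# TK: PR, lemmas
-/

set_option autoImplicit false

namespace Pool.Agent.Lib.MP3efbeb.TK

open Finset
open scoped Classical
open Pool.Agent.Lib.MP391708.QPA (PB rInd Rough)

namespace PRM

open Pool.Agent.Lib.MP3efbeb.T.PRM (FF count_trivial sum_inv_le sum_sqf_le prod_sqf)

lemma PiH_eq (H : Finset ℕ) (n : ℕ) : PiH H n = FF H n := rfl

/-! ### the number of prime factors -/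

lemma prod_le {H : Finset ℕ} {m : ℕ} (hm : 2 ≤ m) : ∏ q ∈ (PiH H m).primeFactors, q ≤ PiH H m :=
  Nat.le_of_dvd (Nat.pos_of_ne_zero (PROBM.PiH_ne hm)) (Nat.prod_primeFactors_dvd _)

lemma PiH_le {H : Finset ℕ} {m x : ℕ} (hx : 3 ≤ x) (hH : ∀ h ∈ H, h ≤ x) (hm : m ≤ 2 * x) :
    PiH H m ≤ x ^ (2 * H.card) := by
  unfold PiH
  have h1 : ∏ h ∈ H, (m + h) ≤ ∏ _h ∈ H, x ^ 2 := by
    refine prod_le_prod' fun h hh => ?_
    have h2 := hH h hh
    nlinarith
  refine h1.trans (le_of_eq ?_)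
  rw [prod_const, ← pow_mul]

lemma card_pf_le {H : Finset ℕ} {m x : ℕ} {η : ℝ} (hx : 3 ≤ x) (hH : ∀ h ∈ H, h ≤ x)
    (hm2 : 2 ≤ m) (hm : m ≤ 2 * x) (hr : Rough ((x : ℝ) ^ η) (PiH H m)) :
    ((PiH H m).primeFactors.card : ℝ) * η ≤ 2 * H.card := by
  set F := (PiH H m).primeFactors with hF
  have hx1 : (1 : ℝ) < x := by
    have : (3 : ℝ) ≤ x := by exact_mod_cast hx
    linarith
  have hx0 : (0 : ℝ) < x := by linarith
  have h1 : ((x : ℝ) ^ η) ^ F.card ≤ ∏ q ∈ F, (q : ℝ) := by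
    rw [← prod_const]
    refine prod_le_prod (fun q _ => (Real.rpow_pos_of_pos hx0 η).le) fun q hq => ?_
    exact hr q (Nat.prime_of_mem_primeFactors hq) (Nat.dvd_of_mem_primeFactors hq)
  have h2 : ∏ q ∈ F, (q : ℝ) ≤ (x : ℝ) ^ (2 * H.card) := by
    have := (prod_le (H := H) hm2).trans (PiH_le hx hH hm)
    rw [← Nat.cast_prod]
    exact_mod_cast this
  have h3 : (x : ℝ) ^ (η * F.card) ≤ (x : ℝ) ^ (2 * (H.card : ℝ)) := by
    rw [Real.rpow_mul hx0.le, Real.rpow_natCast]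
    refine (h1.trans h2).trans (le_of_eq ?_)
    rw [show (2 * (H.card : ℝ)) = ((2 * H.card : ℕ) : ℝ) by push_cast; ring, Real.rpow_natCast]
  have h4 := (Real.rpow_le_rpow_left_iff hx1).1 h3
  linarith

/-! ### the correlation factor -/

/-- the product of the common primes -/
def gc (H : Finset ℕ) (m n : ℕ) : ℕ := ∏ q ∈ (PiH H m).primeFactors ∩ (PiH H n).primeFactors, q

lemma gc_pos (H : Finset ℕ) (m n : ℕ) : 0 < gc H m n :=
  prod_pos fun _ hq => (Nat.prime_of_mem_primeFactors (mem_inter.1 hq).1).pos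

lemma th_pos {k : ℕ} (hk : 3 ≤ k) : 0 < th k := by
  unfold th
  have : (3 : ℝ) ≤ k := by exact_mod_cast hk
  exact div_pos two_pos (by linarith)

lemma th_le {k : ℕ} (hk : 3 ≤ k) : th k ≤ 1 := by
  unfold th
  have : (3 : ℝ) ≤ k := by exact_mod_cast hk
  rw [div_le_one (by linarith)]
  linarith

lemma RR_le {H : Finset ℕ} {m n L x : ℕ} {δ c : ℝ} (hk : 3 ≤ H.card) (hδ : 0 < δ) (hδ1 : δ ≤ 1) (hc : c < 1)
    (hx : 1 ≤ x) (hm : 2 ≤ m) (hn : 2 ≤ n) (hL : (PiH H m).primeFactors.card ≤ L)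
    (hcof : (∏ q ∈ cof H m, (q : ℝ)) ≤ (x : ℝ) ^ ((1 - c) * ((H.card : ℝ) - 1) / 2)) :
    RR H δ m n ≤ (1 / δ) ^ (H.card + L) * min (gc H m n : ℝ) ((x : ℝ) ^ (1 - c)) := by
  have h1δ : 1 ≤ 1 / δ := by
    rw [le_div_iff₀ hδ]
    linarith
  have hx1 : (1 : ℝ) ≤ x := by exact_mod_cast hx
  have hx0 : (0 : ℝ) < x := by linarith
  have hxc : 1 ≤ (x : ℝ) ^ (1 - c) := Real.one_le_rpow hx1 (by linarith)
  have hg1 : (1 : ℝ) ≤ (gc H m n : ℝ) := by exact_mod_cast gc_pos H m n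
  have hk3 : (3 : ℝ) ≤ H.card := by exact_mod_cast hk
  unfold RR
  split_ifs with h
  · have h2 : 1 ≤ min (gc H m n : ℝ) ((x : ℝ) ^ (1 - c)) := le_min hg1 hxc
    have h3 : 1 ≤ (1 / δ) ^ (H.card + L) := one_le_pow₀ h1δ
    nlinarith
  · set θ : ℝ := th H.card with hθ
    have hθ0 : 0 < θ := th_pos hk
    have hθ1 : θ ≤ 1 := th_le hk
    set T := cof H m ∩ cof H n with hT
    have hprimeC : ∀ q ∈ cof H m, q.Prime := fun q hq => Nat.prime_of_mem_primeFactors (PROBM.cof_sub hm hq)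
    have hprimeT : ∀ q ∈ T, q.Prime := fun q hq => hprimeC q (mem_inter.1 hq).1
    have hT1 : 1 ≤ ∏ q ∈ T, (q : ℝ) := by
      have : 1 ≤ ∏ q ∈ T, q := Nat.one_le_iff_ne_zero.2 (prod_ne_zero_iff.2 fun q hq => (hprimeT q hq).ne_zero)
      rw [← Nat.cast_prod]
      exact_mod_cast this
    have e1 : ∏ q ∈ T, ((q : ℝ) ^ θ / δ) = (∏ q ∈ T, (q : ℝ)) ^ θ * (1 / δ) ^ T.card := by
      rw [← prod_const, ← Real.finsetProd_rpow _ _ (fun q _ => Nat.cast_nonneg q), ← prod_mul_distrib]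
      exact prod_congr rfl fun q _ => by ring
    have e2 : (1 / δ) ^ T.card ≤ (1 / δ) ^ L := by
      refine pow_le_pow_right₀ h1δ ?_
      exact (card_le_card (inter_subset_left.trans (PROBM.cof_sub hm))).trans hL
    have e3 : (∏ q ∈ T, (q : ℝ)) ^ θ ≤ min (gc H m n : ℝ) ((x : ℝ) ^ (1 - c)) := by
      refine le_min ?_ ?_
      · have g1 : (∏ q ∈ T, (q : ℝ)) ^ θ ≤ ∏ q ∈ T, (q : ℝ) := by
          have := Real.rpow_le_rpow_of_exponent_le hT1 hθ1
          rwa [Real.rpow_one] at this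
        refine g1.trans ?_
        unfold gc
        push_cast
        refine prod_le_prod_of_subset_of_one_le ?_ (fun q hq => ?_) fun q hq _ => ?_
        · exact inter_subset_inter (PROBM.cof_sub hm) (PROBM.cof_sub hn)
        · positivity
        · exact_mod_cast (Nat.prime_of_mem_primeFactors (mem_inter.1 hq).1).one_lt.le
      · have g1 : ∏ q ∈ T, (q : ℝ) ≤ (x : ℝ) ^ ((1 - c) * ((H.card : ℝ) - 1) / 2) := by
          refine le_trans ?_ hcof
          refine prod_le_prod_of_subset_of_one_le inter_subset_left (fun q hq => ?_) fun q hq _ => ?_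
          · positivity
          · exact_mod_cast (hprimeC q hq).one_lt.le
        have g2 := Real.rpow_le_rpow (by linarith) g1 hθ0.le
        refine g2.trans (le_of_eq ?_)
        rw [← Real.rpow_mul hx0.le]
        congr 1
        rw [hθ, th]
        have : (H.card : ℝ) - 1 ≠ 0 := by linarith
        field_simp
    have e4 : 0 ≤ (∏ q ∈ T, (q : ℝ)) ^ θ := Real.rpow_nonneg (by linarith) _
    rw [e1, pow_add]
    calc (1 / δ) ^ H.card * ((∏ q ∈ T, (q : ℝ)) ^ θ * (1 / δ) ^ T.card)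
        ≤ (1 / δ) ^ H.card * (min (gc H m n : ℝ) ((x : ℝ) ^ (1 - c)) * (1 / δ) ^ L) := by
          refine mul_le_mul_of_nonneg_left ?_ (by positivity)
          exact mul_le_mul e3 e2 (by positivity) (e4.trans e3)
      _ = _ := by ring

end PRM

end Pool.Agent.Lib.MP3efbeb.TK
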