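import Pool.Agent.Lib.MP_3efbeb_nt.TK.Spec
import Pool.Agent.Lib.MP_3efbeb_nt.T.PROB

/-!
# TK: PROB, the probability of the union
-/

set_option autoImplicit false

namespace Pool.Agent.Lib.MP3efbeb.TK

open Finset MeasureTheory ProbabilityTheory
open scoped Classical
open Pool.Agent.Lib.MP3efbeb.T (gpf cofP)
open Pool.Agent.Lib.MP3efbeb.T.PROBM (gpf_mem cofP_sub sq_false)
open Pool.Agent.Lib.MP_3efbeb_nt.T (Ev)
open Pool.Agent.Lib.MP_3efbeb_nt.T.ProbM

namespace PROBM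

lemma PiH_ne {H : Finset ℕ} {m : ℕ} (hm : 2 ≤ m) : PiH H m ≠ 0 := by
  unfold PiH
  rw [prod_ne_zero_iff]
  intro h _
  omega

lemma dvd_PiH {H : Finset ℕ} {m h : ℕ} (hh : h ∈ H) : m + h ∣ PiH H m :=
  dvd_prod_of_mem (fun h => m + h) hh

lemma mul_dvd_PiH {H : Finset ℕ} {m h h' : ℕ} (hh : h ∈ H) (hh' : h' ∈ H) (hne : h ≠ h') :
    (m + h) * (m + h') ∣ PiH H m := by
  unfold PiH
  rw [← mul_prod_erase H (fun h => m + h) hh]
  refine mul_dvd_mul_left _ ?_
  exact dvd_prod_of_mem (fun h => m + h) (mem_erase.2 ⟨hne.symm, hh'⟩)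

lemma mem_cof {H : Finset ℕ} {m p : ℕ} : p ∈ cof H m ↔ ∃ h ∈ H, p ∈ cofP (m + h) := by
  unfold cof
  rw [mem_biUnion]

lemma mem_top {H : Finset ℕ} {m p : ℕ} : p ∈ top H m ↔ ∃ h ∈ H, gpf (m + h) = p := by
  unfold top
  rw [mem_image]

lemma cof_sub {H : Finset ℕ} {m : ℕ} (hm : 2 ≤ m) : cof H m ⊆ (PiH H m).primeFactors := by
  intro p hp
  obtain ⟨h, hh, hp⟩ := mem_cof.1 hp
  exact Nat.primeFactors_mono (dvd_PiH hh) (PiH_ne hm) (cofP_sub hp)

lemma top_sub {H : Finset ℕ} {m : ℕ} (hm : 2 ≤ m) : top H m ⊆ (PiH H m).primeFactors := by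
  intro p hp
  obtain ⟨h, hh, rfl⟩ := mem_top.1 hp
  exact Nat.primeFactors_mono (dvd_PiH hh) (PiH_ne hm) (gpf_mem (by omega))

lemma card_top_le (H : Finset ℕ) (m : ℕ) : (top H m).card ≤ H.card := card_image_le

lemma disj {H : Finset ℕ} {m : ℕ} (hm : 2 ≤ m) (hsq : Squarefree (PiH H m)) : Disjoint (cof H m) (top H m) := by
  rw [Finset.disjoint_left]
  intro p hc ht
  have hpp := Nat.prime_of_mem_primeFactors (cof_sub hm hc)
  obtain ⟨h, hh, hp⟩ := mem_cof.1 hc
  obtain ⟨h', hh', e⟩ := mem_top.1 ht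
  have hd := Nat.dvd_of_mem_primeFactors (cofP_sub hp)
  have hd' : p ∣ m + h' := e ▸ Nat.dvd_of_mem_primeFactors (gpf_mem (by omega))
  by_cases hne : h = h'
  · subst hne
    rw [← e] at hp
    exact Finset.notMem_erase _ _ hp
  · exact sq_false hpp hsq (mul_dvd_PiH hh hh' hne) hd hd'

end PROBM

open PROBM

theorem specPROB : SpecPROB := by
  intro Ω _ μ _ A hA hind δ κ P₀ H S w hδ hδ1 hκ hP₀ hp hw hw1 hS hR
  have hm : ∀ p, MeasurableSet (ext A p) := ext_meas A fun p _ => hA p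
  have hi := indep_ext A (fun p _ => hA p) hind
  have hprc : ∀ m ∈ S, ∀ q ∈ cof H m, q.Prime ∧ P₀ ≤ q := by
    intro m hmS q hq
    obtain ⟨h2, -, h3⟩ := hS m hmS
    have h4 := cof_sub h2 hq
    have h5 := Nat.prime_of_mem_primeFactors h4
    exact ⟨h5, h3 q h5 (Nat.dvd_of_mem_primeFactors h4)⟩
  have hprt : ∀ m ∈ S, ∀ q ∈ top H m, q.Prime ∧ P₀ ≤ q := by
    intro m hmS q hq
    obtain ⟨h2, -, h3⟩ := hS m hmS
    have h4 := top_sub h2 hq
    have h5 := Nat.prime_of_mem_primeFactors h4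
    exact ⟨h5, h3 q h5 (Nat.dvd_of_mem_primeFactors h4)⟩
  have hdisj : ∀ m ∈ S, Disjoint (cof H m) (top H m) := fun m hmS => disj (hS m hmS).1 (hS m hmS).2.1
  -- lower and upper bounds for the probabilities
  have hlow : ∀ q : ℕ, q.Prime → P₀ ≤ q → 0 < (q : ℝ) ^ th H.card / δ ∧
      ((q : ℝ) ^ th H.card / δ)⁻¹ ≤ μ.real (ext A q) := by
    intro q hq hPq
    have hq0 : (0 : ℝ) < q := by exact_mod_cast hq.pos
    have h1 : 0 < (q : ℝ) ^ th H.card := Real.rpow_pos_of_pos hq0 _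
    refine ⟨div_pos h1 hδ, ?_⟩
    rw [ext_prime A hq, inv_div]
    have h2 := (hp q hq hPq).1
    rw [Real.rpow_neg hq0.le] at h2
    exact h2
  have hup : ∀ q : ℕ, q.Prime → P₀ ≤ q → μ.real (ext A q) ≤ 1 - δ := by
    intro q hq hPq
    rw [ext_prime A hq]
    exact (hp q hq hPq).2
  have hposc : ∀ m ∈ S, ∀ q ∈ cof H m, 0 < μ.real (ext A q) := fun m hmS q hq => by
    obtain ⟨h1, h2⟩ := hprc m hmS q hq
    obtain ⟨h3, h4⟩ := hlow q h1 h2
    exact lt_of_lt_of_le (inv_pos.2 h3) h4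
  have hltt : ∀ m ∈ S, ∀ q ∈ top H m, μ.real (ext A q) < 1 := fun m hmS q hq => by
    obtain ⟨h1, h2⟩ := hprt m hmS q hq
    linarith [hup q h1 h2]
  have hone : 1 ≤ 1 / δ := by
    rw [le_div_iff₀ hδ]
    linarith
  -- the correlation
  have hcorr : ∀ m ∈ S, ∀ n ∈ S, μ.real (Ev (ext A) (cof H m) (top H m) ∩ Ev (ext A) (cof H n) (top H n))
      ≤ μ.real (Ev (ext A) (cof H m) (top H m)) * μ.real (Ev (ext A) (cof H n) (top H n)) * RR H δ m n := by
    intro m hmS n hnS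
    refine (inter_le (μ := μ) (ext A) hm hi _ _ _ _ (hdisj m hmS) (hdisj n hnS)
      (fun p hp => hposc m hmS p (mem_inter.1 hp).1) (fun p hp => hltt m hmS p (mem_inter.1 hp).1)).trans ?_
    refine mul_le_mul_of_nonneg_left ?_ (mul_nonneg measureReal_nonneg measureReal_nonneg)
    unfold RR
    split_ifs with h
    · have h1 : cof H m ∩ cof H n = ∅ := by
        rw [← Finset.disjoint_iff_inter_eq_empty]
        exact h.mono (cof_sub (hS m hmS).1) (cof_sub (hS n hnS).1)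
      have h2 : top H m ∩ top H n = ∅ := by
        rw [← Finset.disjoint_iff_inter_eq_empty]
        exact h.mono (top_sub (hS m hmS).1) (top_sub (hS n hnS).1)
      rw [h1, h2]
      simp
    · rw [mul_comm]
      refine mul_le_mul ?_ ?_ ?_ ?_
      · have h1 : ∏ p ∈ top H m ∩ top H n, (1 - μ.real (ext A p))⁻¹ ≤ ∏ _p ∈ top H m ∩ top H n, (1 / δ) := by
          refine prod_le_prod (fun p hp => ?_) fun p hp => ?_
          · have := hltt m hmS p (mem_inter.1 hp).1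
            exact inv_nonneg.2 (by linarith)
          · obtain ⟨h2, h3⟩ := hprt m hmS p (mem_inter.1 hp).1
            have h4 := hup p h2 h3
            rw [one_div]
            exact inv_anti₀ hδ (by linarith)
        refine h1.trans ?_
        rw [prod_const]
        exact pow_le_pow_right₀ hone ((card_le_card inter_subset_left).trans (card_top_le H m))
      · refine prod_le_prod (fun p hp => (inv_pos.2 (hposc m hmS p (mem_inter.1 hp).1)).le) fun p hp => ?_
        obtain ⟨h1, h2⟩ := hprc m hmS p (mem_inter.1 hp).1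
        obtain ⟨h3, h4⟩ := hlow p h1 h2
        have h5 := inv_anti₀ (inv_pos.2 h3) h4
        rwa [inv_inv] at h5
      · exact prod_nonneg fun p hp => (inv_pos.2 (hposc m hmS p (mem_inter.1 hp).1)).le
      · positivity
  have e1 := chung_erdos_w (μ := μ) S w (fun i _ => hw i) (fun m => Ev (ext A) (cof H m) (top H m))
    (fun m _ => measurableSet_Ev (ext A) hm _ _)
    (fun m hmS => by
      rw [meas_Ev (ext A) hm hi _ _ (hdisj m hmS)]
      refine mul_pos (prod_pos fun p hp => hposc m hmS p hp) (prod_pos fun p hp => ?_)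
      linarith [hltt m hmS p hp])
    (RR H δ) hcorr
  rw [hw1, one_pow] at e1
  have e2 : 1 ≤ μ.real (⋃ m ∈ S, Ev (ext A) (cof H m) (top H m)) * (1 + κ) :=
    e1.trans (mul_le_mul_of_nonneg_left hR measureReal_nonneg)
  have e3 : (⋃ m ∈ S, Ev (ext A) (cof H m) (top H m)) = ⋃ m ∈ S, EE A H m := by
    refine Set.iUnion₂_congr fun n hn => ?_
    exact Ev_ext A _ _ (fun p hpc => (hprc n hn p hpc).1) fun p hpt => (hprt n hn p hpt).1
  rw [e3] at e2
  rw [div_le_iff₀ (by linarith)]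
  exact e2

end Pool.Agent.Lib.MP3efbeb.TK
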